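import Mathlib

/-!
Valuation argument of Erdős for arithmetic progressions, and prime divisors of short blocks.
-/

open Finset

namespace ESU

lemma prod_dist (m a : ℕ) (h : a < m) :
    ∏ l ∈ (range m).erase a, (if l < a then a - l else l - a)
      = a.factorial * (m - 1 - a).factorial := by
  induction m with
  | zero => omega
  | succ m ih =>
    rcases Nat.lt_or_ge a m with h1 | h1
    · have e1 : (range (m + 1)).erase a = insert m ((range m).erase a) := by
        ext x
        simp only [mem_erase, mem_range, mem_insert]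
        omega
      have hnot : m ∉ (range m).erase a := by simp
      rw [e1, prod_insert hnot, ih h1, if_neg (by omega)]
      have e2 : m + 1 - 1 - a = (m - 1 - a) + 1 := by omega
      rw [e2, Nat.factorial_succ]
      have e3 : m - 1 - a + 1 = m - a := by omega
      rw [e3]
      ring
    · have ha : a = m := by omega
      subst ha
      have e1 : (range (a + 1)).erase a = range a := by
        ext x
        simp only [mem_erase, mem_range]
        omega
      rw [e1]
      have e2 : ∏ l ∈ range a, (if l < a then a - l else l - a) = ∏ l ∈ range a, (a - l) := by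
        refine prod_congr rfl fun l hl => ?_
        rw [if_pos (mem_range.mp hl)]
      rw [e2, ← Nat.descFactorial_eq_prod_range, Nat.descFactorial_self]
      simp

/-- Erdős' valuation argument in an arithmetic progression. -/
theorem erdos_prod (a₀ v m : ℕ) (ha₀ : 0 < a₀) (hcop : ∀ l, l < m → Nat.Coprime (a₀ + v * l) v) :
    ∃ R : Finset ℕ, R ⊆ range m ∧
      m ≤ R.card + (∏ l ∈ range m, (a₀ + v * l)).primeFactors.card ∧
      ∏ l ∈ R, (a₀ + v * l) ≤ (m - 1).factorial := by
  classical
  rcases Nat.eq_zero_or_pos m with rfl | hm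
  · exact ⟨∅, by simp, by simp, by simp⟩
  set s : ℕ → ℕ := fun l => a₀ + v * l with hs
  have hs0 : ∀ l, s l ≠ 0 := fun l => by
    simp only [hs]
    omega
  set P : Finset ℕ := (∏ l ∈ range m, s l).primeFactors with hP
  have hmax : ∀ p : ℕ, ∃ l ∈ range m, ∀ l' ∈ range m, (s l').factorization p ≤ (s l).factorization p :=
    fun p => Finset.exists_max_image (range m) (fun l => (s l).factorization p) ⟨0, mem_range.mpr hm⟩
  choose g hg1 hg2 using hmax
  refine ⟨range m \ P.image g, sdiff_subset, ?_, ?_⟩
  · have h1 : (range m).card ≤ (range m \ P.image g).card + (P.image g).card := by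
      rw [← Finset.card_sdiff_add_card_inter (range m) (P.image g)]
      exact Nat.add_le_add_left (card_le_card inter_subset_right) _
    rw [card_range] at h1
    have h2 : (P.image g).card ≤ P.card := card_image_le
    omega
  · set R : Finset ℕ := range m \ P.image g with hR
    have hRsub : R ⊆ range m := sdiff_subset
    have hdvd : ∏ l ∈ R, s l ∣ (m - 1).factorial := by
      rw [← Nat.factorization_prime_le_iff_dvd (prod_ne_zero_iff.mpr fun l _ => hs0 l)
        (Nat.factorial_ne_zero _)]
      intro p hp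
      rw [Nat.factorization_prod fun l _ => hs0 l, Finsupp.finsetSum_apply]
      by_cases hpP : p ∈ P
      · have hga : g p < m := mem_range.mp (hg1 p)
        have hRe : R ⊆ (range m).erase (g p) := by
          intro l hl
          rw [hR, mem_sdiff] at hl
          rw [mem_erase]
          refine ⟨?_, hl.1⟩
          rintro rfl
          exact hl.2 (mem_image_of_mem g hpP)
        have hfac : (∏ l ∈ (range m).erase (g p), (if l < g p then g p - l else l - g p)) ∣
            (m - 1).factorial := by
          rw [prod_dist m (g p) hga]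
          exact Nat.factorial_mul_factorial_dvd_factorial (by omega)
        have hne : ∀ l ∈ (range m).erase (g p), (if l < g p then g p - l else l - g p) ≠ 0 := by
          intro l hl
          rw [mem_erase] at hl
          have := hl.1
          split_ifs <;> omega
        have h3 := (Nat.factorization_prime_le_iff_dvd (prod_ne_zero_iff.mpr hne)
          (Nat.factorial_ne_zero _)).mpr hfac p hp
        rw [Nat.factorization_prod hne, Finsupp.finsetSum_apply] at h3
        refine le_trans ?_ h3
        refine (sum_le_sum_of_subset hRe).trans (sum_le_sum fun l hl => ?_)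
        rw [mem_erase] at hl
        have hlm := mem_range.mp hl.2
        set e : ℕ := (s l).factorization p with he
        rcases Nat.eq_zero_or_pos e with h0 | h0
        · rw [h0]
          exact Nat.zero_le _
        have hd1 : p ^ e ∣ s l := Nat.ordProj_dvd (s l) p
        have hd2 : p ^ e ∣ s (g p) :=
          (pow_dvd_pow p (hg2 p l hl.2)).trans (Nat.ordProj_dvd (s (g p)) p)
        have hpl : p ∣ s l := (dvd_pow_self p h0.ne').trans hd1
        have hcopp : Nat.Coprime (p ^ e) v := by
          apply Nat.Coprime.pow_left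
          exact Nat.Coprime.coprime_dvd_left hpl (hcop l hlm)
        have hdd : p ^ e ∣ (if l < g p then g p - l else l - g p) := by
          split_ifs with hlt
          · have h4 : p ^ e ∣ s (g p) - s l := Nat.dvd_sub hd2 hd1
            have h5 : s (g p) - s l = v * (g p - l) := by
              simp only [hs]
              rw [Nat.mul_sub]
              omega
            rw [h5] at h4
            exact hcopp.dvd_of_dvd_mul_left h4
          · have h4 : p ^ e ∣ s l - s (g p) := Nat.dvd_sub hd1 hd2
            have h5 : s l - s (g p) = v * (l - g p) := by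
              simp only [hs]
              rw [Nat.mul_sub]
              omega
            rw [h5] at h4
            exact hcopp.dvd_of_dvd_mul_left h4
        have hne' : (if l < g p then g p - l else l - g p) ≠ 0 := by
          have := hl.1
          split_ifs <;> omega
        exact (hp.pow_dvd_iff_le_factorization hne').mp hdd
      · have : ∑ l ∈ R, (s l).factorization p = 0 := by
          refine sum_eq_zero fun l hl => ?_
          apply Nat.factorization_eq_zero_of_not_dvd
          intro hdiv
          apply hpP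
          rw [hP, Nat.mem_primeFactors]
          refine ⟨hp, hdiv.trans (dvd_prod_of_mem s (hRsub hl)), ?_⟩
          exact prod_ne_zero_iff.mpr fun l _ => hs0 l
        rw [this]
        exact Nat.zero_le _
    exact Nat.le_of_dvd (Nat.factorial_pos _) hdvd

/-- Many primes divide a block of a progression. -/
theorem erdos_count (ε : ℝ) (a₀ v m : ℕ) (ha₀ : 2 ≤ a₀)
    (hcop : ∀ l, l < m → Nat.Coprime (a₀ + v * l) v) (hm : (m : ℝ) ≤ (a₀ : ℝ) ^ (1 - ε)) :
    ε * m ≤ ((∏ l ∈ range m, (a₀ + v * l)).primeFactors.card : ℝ) := by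
  obtain ⟨R, hR1, hR2, hR3⟩ := erdos_prod a₀ v m (by omega) hcop
  set P := (∏ l ∈ range m, (a₀ + v * l)).primeFactors with hP
  rcases Nat.eq_zero_or_pos m with rfl | hmpos
  · simp
  have ha : (2 : ℝ) ≤ a₀ := by exact_mod_cast ha₀
  have hlog : 0 < Real.log a₀ := Real.log_pos (by linarith)
  have hmr : (1 : ℝ) ≤ m := by exact_mod_cast hmpos
  have h1 : a₀ ^ R.card ≤ m ^ m := by
    calc a₀ ^ R.card = ∏ l ∈ R, a₀ := by rw [prod_const]
      _ ≤ ∏ l ∈ R, (a₀ + v * l) := prod_le_prod' fun l _ => Nat.le_add_right _ _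
      _ ≤ (m - 1).factorial := hR3
      _ ≤ m.factorial := Nat.factorial_le (Nat.sub_le _ _)
      _ ≤ m ^ m := Nat.factorial_le_pow m
  have h2 : (R.card : ℝ) * Real.log a₀ ≤ m * Real.log m := by
    have h3 : ((a₀ : ℝ)) ^ R.card ≤ (m : ℝ) ^ m := by exact_mod_cast h1
    have h4 := Real.log_le_log (by positivity) h3
    rwa [Real.log_pow, Real.log_pow] at h4
  have h5 : Real.log m ≤ (1 - ε) * Real.log a₀ := by
    have h6 := Real.log_le_log (by linarith) hm
    rwa [Real.log_rpow (by linarith)] at h6
  have h7 : (R.card : ℝ) * Real.log a₀ ≤ (m * (1 - ε)) * Real.log a₀ := by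
    calc (R.card : ℝ) * Real.log a₀ ≤ m * Real.log m := h2
      _ ≤ m * ((1 - ε) * Real.log a₀) := by gcongr
      _ = (m * (1 - ε)) * Real.log a₀ := by ring
  have h8 : (R.card : ℝ) ≤ m * (1 - ε) := le_of_mul_le_mul_right h7 hlog
  have h9 : (m : ℝ) ≤ R.card + P.card := by exact_mod_cast hR2
  linarith

/-- Few large primes divide a number. -/
lemma large_primes_card (n k : ℕ) (hn : n ≠ 0) (hk : 2 ≤ k) (τ : ℝ) (hnk : (n : ℝ) ≤ (k : ℝ) ^ τ) :
    ((n.primeFactors.filter (fun p => k < p)).card : ℝ) ≤ τ := by
  set Q := n.primeFactors.filter (fun p => k < p) with hQ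
  have h1 : k ^ Q.card ≤ n := by
    calc k ^ Q.card = ∏ p ∈ Q, k := by rw [prod_const]
      _ ≤ ∏ p ∈ Q, p := prod_le_prod' fun p hp => (mem_filter.mp hp).2.le
      _ ≤ ∏ p ∈ n.primeFactors, p := by
        refine prod_le_prod_of_subset_of_one_le' (filter_subset _ _) fun p hp _ => ?_
        exact (Nat.prime_of_mem_primeFactors hp).one_le
      _ ≤ n := Nat.le_of_dvd (Nat.pos_of_ne_zero hn) (Nat.prod_primeFactors_dvd n)
  have hkr : (2 : ℝ) ≤ k := by exact_mod_cast hk
  have hlog : 0 < Real.log k := Real.log_pos (by linarith)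
  have h2 : ((k : ℝ)) ^ Q.card ≤ (k : ℝ) ^ τ := le_trans (by exact_mod_cast h1) hnk
  have h3 := Real.log_le_log (by positivity) h2
  rw [Real.log_pow, Real.log_rpow (by linarith)] at h3
  exact le_of_mul_le_mul_right h3 hlog

/-- Primes dividing a nonzero member of a short block. -/
theorem block_primes (E : ℤ) (h k : ℕ) (c : ℝ) (hc : 0 < c) (hk : 2 ≤ k) (hkh : k ≤ 2 * h + 1)
    (hE : ((|E| + h : ℤ) : ℝ) ≤ (k : ℝ) ^ c * (2 * h + 1)) (Q : Finset ℕ)
    (hQ : ∀ p ∈ Q, p.Prime ∧ ∃ t : ℤ, t ≠ 0 ∧ |t - E| ≤ h ∧ (p : ℤ) ∣ t)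
    (hlog : 1 ≤ c * Real.log k) :
    (Q.card : ℝ) ≤ (Nat.primeCounting (2 * h + 1) : ℝ) + 2 * c * (2 * h + 1) := by
  classical
  have hkr : (2 : ℝ) ≤ k := by exact_mod_cast hk
  have hk0 : (0 : ℝ) < k := by linarith
  have hlogk : 0 < Real.log k := Real.log_pos (by linarith)
  set L : ℕ := 2 * h + 1 with hL
  have hLr : (L : ℝ) = 2 * h + 1 := by
    rw [hL]
    push_cast
    ring
  have hL1 : (2 : ℝ) ≤ L := by
    have : 2 ≤ L := by omega
    exact_mod_cast this
  set Q1 := Q.filter (fun p => p ≤ L) with hQ1
  set Q2 := Q.filter (fun p => ¬ p ≤ L) with hQ2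
  have hcard : Q.card = Q1.card + Q2.card := (card_filter_add_card_filter_not _).symm
  have hQ1c : Q1.card ≤ Nat.primeCounting L := by
    have hsub : Q1 ⊆ (range (L + 1)).filter Nat.Prime := by
      intro p hp
      rw [hQ1, mem_filter] at hp
      rw [mem_filter, mem_range]
      exact ⟨by omega, (hQ p hp.1).1⟩
    refine (card_le_card hsub).trans (le_of_eq ?_)
    rw [Nat.primeCounting, Nat.primeCounting', Nat.count_eq_card_filter_range]
  have hQ2c : (Q2.card : ℝ) ≤ 2 * c * (2 * h + 1) := by
    rcases Q2.eq_empty_or_nonempty with hemp | ⟨p₀, hp₀⟩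
    · rw [hemp]
      simp only [card_empty, Nat.cast_zero]
      positivity
    -- the block avoids zero
    have hbig : (h : ℤ) < |E| := by
      by_contra hcon
      push Not at hcon
      rw [hQ2, mem_filter] at hp₀
      obtain ⟨_, t, ht0, htE, hpt⟩ := hQ p₀ hp₀.1
      have h1 : |t| ≤ 2 * h := by
        calc |t| = |(t - E) + E| := by ring_nf
          _ ≤ |t - E| + |E| := abs_add_le _ _
          _ ≤ 2 * h := by linarith
      have h2 : (p₀ : ℤ) ≤ |t| := by
        apply Int.le_of_dvd (abs_pos.mpr ht0)
        exact (dvd_abs _ _).mpr hpt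
      have h3 : L < p₀ := by omega
      omega
    obtain ⟨e, he⟩ : ∃ e : ℕ, (e : ℤ) = |E| := ⟨E.natAbs, Int.natCast_natAbs E⟩
    have heh : h < e := by
      rw [← he] at hbig
      exact_mod_cast hbig
    have hdiv : ∀ p ∈ Q2, p ∣ (e + h).choose L := by
      intro p hp
      rw [hQ2, mem_filter] at hp
      obtain ⟨hpp, t, ht0, htE, hpt⟩ := hQ p hp.1
      have h1 : |(|t| - |E|)| ≤ |t - E| := abs_abs_sub_abs_le _ _
      have h2 : |(|t| - |E|)| ≤ h := h1.trans htE
      rw [abs_le, ← he] at h2
      obtain ⟨u, hu⟩ : ∃ u : ℕ, (u : ℤ) = |t| := ⟨t.natAbs, Int.natCast_natAbs t⟩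
      rw [← hu] at h2
      have hu1 : u ≤ e + h := by omega
      have hu2 : e ≤ u + h := by omega
      have hpu : p ∣ u := by
        have : (p : ℤ) ∣ (u : ℤ) := by
          rw [hu]
          exact (dvd_abs _ _).mpr hpt
        exact_mod_cast this
      have h3 : p ∣ (e + h).descFactorial L := by
        rw [Nat.descFactorial_eq_prod_range]
        have hmem : e + h - u ∈ range L := by
          rw [mem_range]
          omega
        have hval : e + h - (e + h - u) = u := by omega
        have h4 : p ∣ e + h - (e + h - u) := by rw [hval]; exact hpu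
        exact h4.trans (dvd_prod_of_mem (fun i => e + h - i) hmem)
      rw [Nat.descFactorial_eq_factorial_mul_choose] at h3
      rcases hpp.dvd_mul.mp h3 with h4 | h4
      · exfalso
        exact hp.2 ((hpp.dvd_factorial).mp h4)
      · exact h4
    have hprod : ∏ p ∈ Q2, p ∣ (e + h).choose L := by
      apply Finset.prod_primes_dvd
      · intro p hp
        rw [hQ2, mem_filter] at hp
        exact (hQ p hp.1).1.prime
      · exact hdiv
    have hchpos : 0 < (e + h).choose L := Nat.choose_pos (by omega)
    have h5 : L ^ Q2.card ≤ (e + h).choose L := by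
      calc L ^ Q2.card = ∏ p ∈ Q2, L := by rw [prod_const]
        _ ≤ ∏ p ∈ Q2, p := by
          refine prod_le_prod' fun p hp => ?_
          rw [hQ2, mem_filter] at hp
          omega
        _ ≤ (e + h).choose L := Nat.le_of_dvd hchpos hprod
    have h6 : ((e + h).choose L : ℝ) ≤ (((e + h : ℕ) : ℝ) / L * Real.exp 1) ^ L := by
      have h7 := Nat.choose_le_pow_div (α := ℝ) L (e + h)
      have h8 := Real.pow_div_factorial_le_exp (L : ℝ) (by positivity) L
      have h9 : (0 : ℝ) < L.factorial := by exact_mod_cast Nat.factorial_pos L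
      have hL0 : (0 : ℝ) < L := by linarith
      calc ((e + h).choose L : ℝ) ≤ ((e + h : ℕ) : ℝ) ^ L / L.factorial := h7
        _ = (((e + h : ℕ) : ℝ) / L) ^ L * ((L : ℝ) ^ L / L.factorial) := by
            rw [div_pow]
            field_simp
        _ ≤ (((e + h : ℕ) : ℝ) / L) ^ L * Real.exp L := by gcongr
        _ = (((e + h : ℕ) : ℝ) / L * Real.exp 1) ^ L := by
            rw [mul_pow, ← Real.exp_nat_mul, mul_one]
    have h10 : ((e + h : ℕ) : ℝ) / L ≤ (k : ℝ) ^ c := by
      rw [div_le_iff₀ (by linarith), hLr]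
      have e1 : ((e + h : ℕ) : ℝ) = ((|E| + h : ℤ) : ℝ) := by
        rw [← he]
        push_cast
        ring
      rw [e1]
      exact hE
    have h11 : ((L : ℝ)) ^ Q2.card ≤ ((k : ℝ) ^ c * Real.exp 1) ^ L := by
      calc ((L : ℝ)) ^ Q2.card ≤ ((e + h).choose L : ℝ) := by exact_mod_cast h5
        _ ≤ (((e + h : ℕ) : ℝ) / L * Real.exp 1) ^ L := h6
        _ ≤ ((k : ℝ) ^ c * Real.exp 1) ^ L := by gcongr
    have h12 := Real.log_le_log (by positivity) h11
    rw [Real.log_pow, Real.log_pow, Real.log_mul (by positivity) (Real.exp_pos 1).ne',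
      Real.log_rpow hk0, Real.log_exp] at h12
    have h13 : Real.log k ≤ Real.log L := Real.log_le_log hk0 (by exact_mod_cast hkh)
    have h14 : (Q2.card : ℝ) * Real.log k ≤ (2 * c * (2 * h + 1)) * Real.log k := by
      calc (Q2.card : ℝ) * Real.log k ≤ Q2.card * Real.log L := by gcongr
        _ ≤ L * (c * Real.log k + 1) := h12
        _ ≤ L * (c * Real.log k + c * Real.log k) := by gcongr
        _ = (2 * c * (2 * h + 1)) * Real.log k := by
            rw [hLr]
            ring
    exact le_of_mul_le_mul_right h14 hlogk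
  rw [hcard]
  push_cast
  have : (Q1.card : ℝ) ≤ (Nat.primeCounting L : ℝ) := by exact_mod_cast hQ1c
  linarith

/-- `π(a k + 1) ≤ δ k` for large `k`. -/
lemma pi_small (a : ℕ) (δ : ℝ) (hδ : 0 < δ) (ha : 1 ≤ a) :
    ∃ X : ℕ, ∀ k : ℕ, X ≤ k → (Nat.primeCounting (a * k) : ℝ) ≤ δ * k := by
  have h1 := Chebyshev.eventually_primeCounting_le (ε := 1) one_pos
  rw [Filter.eventually_atTop] at h1
  obtain ⟨x₀, hx₀⟩ := h1
  have h4 : Real.log 4 ≤ 2 := by
    have : Real.log 4 = 2 * Real.log 2 := by
      rw [show (4 : ℝ) = 2 ^ 2 by norm_num, Real.log_pow]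
      norm_num
    rw [this]
    have := Real.log_two_lt_d9
    linarith
  refine ⟨max (max 2 ⌈x₀⌉₊) ⌈Real.exp (3 * a / δ)⌉₊, fun k hk => ?_⟩
  have hk2 : 2 ≤ k := (le_max_left _ _).trans ((le_max_left _ _).trans hk)
  have hkx : x₀ ≤ k := (Nat.le_ceil _).trans
    (by exact_mod_cast (le_max_right _ _).trans ((le_max_left _ _).trans hk))
  have hke : Real.exp (3 * a / δ) ≤ k := (Nat.le_ceil _).trans
    (by exact_mod_cast (le_max_right _ _).trans hk)
  have hkr : (2 : ℝ) ≤ k := by exact_mod_cast hk2
  have har : (1 : ℝ) ≤ a := by exact_mod_cast ha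
  have hak : (k : ℝ) ≤ a * k := by nlinarith
  have h5 := hx₀ ((a * k : ℕ) : ℝ) (by push_cast; linarith)
  rw [Nat.floor_natCast] at h5
  push_cast at h5
  have hlogk : 3 * a / δ ≤ Real.log k := by
    rw [Real.le_log_iff_exp_le (by linarith)]
    exact hke
  have hlog2 : Real.log k ≤ Real.log (a * k) := Real.log_le_log (by linarith) hak
  have hpos : 0 < 3 * a / δ := by positivity
  have hlogpos : 0 < Real.log (a * k) := by linarith
  refine h5.trans ?_
  rw [div_le_iff₀ hlogpos]
  have h6 : 3 * a ≤ δ * Real.log (a * k) := by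
    have : 3 * a / δ ≤ Real.log (a * k) := hlogk.trans hlog2
    rw [div_le_iff₀ hδ] at this
    linarith
  calc (Real.log 4 + 1) * (a * k) ≤ 3 * (a * k) := by
        apply mul_le_mul_of_nonneg_right (by linarith) (by positivity)
    _ = (3 * a) * k := by ring
    _ ≤ (δ * Real.log (a * k)) * k := by gcongr
    _ = δ * k * Real.log (a * k) := by ring

end ESU
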