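import Pool.Agent.Helper48.ESU.Tk

/-!
Joint equidistribution of `(n₁/p, n₂/p)` modulo one for primes `p` in `(2k, 8k]`.
-/

open Finset ArithmeticFunction

namespace ESU

/-- Fejér type weights. -/
noncomputable def wt (r j : ℕ) : ℝ := ((2 * r).choose j : ℝ) / 4 ^ r

lemma wt_nonneg (r j : ℕ) : 0 ≤ wt r j := by
  unfold wt
  positivity

lemma wt_sum (r : ℕ) : ∑ j ∈ range (2 * r + 1), wt r j = 1 := by
  unfold wt
  rw [← sum_div]
  have h : ∑ j ∈ range (2 * r + 1), ((2 * r).choose j : ℝ) = 4 ^ r := by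
    have := Nat.sum_range_choose (2 * r)
    have h2 : (2 : ℕ) ^ (2 * r) = 4 ^ r := by
      rw [pow_mul]
      norm_num
    rw [h2] at this
    exact_mod_cast this
  rw [h]
  field_simp

lemma wt_center (r : ℕ) : 1 / (2 * (r : ℝ) + 1) ≤ wt r r := by
  unfold wt
  rw [div_le_div_iff₀ (by positivity) (by positivity)]
  have h := Nat.four_pow_le_two_mul_add_one_mul_central_binom r
  have h2 : (4 : ℝ) ^ r ≤ (2 * r + 1) * (Nat.centralBinom r : ℝ) := by exact_mod_cast h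
  have h3 : (Nat.centralBinom r : ℝ) = ((2 * r).choose r : ℝ) := by
    rw [Nat.centralBinom_eq_two_mul_choose]
  rw [h3] at h2
  linarith

lemma cos_eq_ee (t : ℝ) : ((Real.cos (Real.pi * t) : ℝ) : ℂ) = (ee (t / 2) + ee (-(t / 2))) / 2 := by
  unfold ee
  rw [Complex.ofReal_cos, Complex.cos]
  congr 2
  · congr 1
    push_cast
    ring
  · congr 1
    push_cast
    ring

lemma kernel_expand (r : ℕ) (t : ℝ) :
    (((Real.cos (Real.pi * t) ^ 2) ^ r : ℝ) : ℂ)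
      = ∑ j ∈ range (2 * r + 1), ((wt r j : ℝ) : ℂ) * ee (((j : ℝ) - r) * t) := by
  have h1 : (((Real.cos (Real.pi * t) ^ 2) ^ r : ℝ) : ℂ)
      = (ee (t / 2) + ee (-(t / 2))) ^ (2 * r) / 4 ^ r := by
    have h2 := cos_eq_ee t
    push_cast at h2 ⊢
    rw [h2, ← pow_mul, div_pow, pow_mul (2 : ℂ) 2 r]
    norm_num
  rw [h1, add_pow, sum_div]
  refine sum_congr rfl fun j hj => ?_
  rw [mem_range] at hj
  unfold wt
  push_cast
  have h2 : ee (t / 2) ^ j * ee (-(t / 2)) ^ (2 * r - j) = ee (((j : ℝ) - r) * t) := by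
    rw [← ee_nat_mul, ← ee_nat_mul, ← ee_add]
    congr 1
    rw [Nat.cast_sub (by omega)]
    push_cast
    ring
  rw [← h2]
  ring

/-- The two dimensional kernel. -/
noncomputable def ker (r : ℕ) (c₁ c₂ t₁ t₂ : ℝ) : ℝ :=
  (Real.cos (Real.pi * (t₁ - c₁)) ^ 2) ^ r * (Real.cos (Real.pi * (t₂ - c₂)) ^ 2) ^ r

lemma ker_expand (r : ℕ) (c₁ c₂ : ℝ) (n₁ n₂ n : ℝ) :
    ((ker r c₁ c₂ (n₁ / n) (n₂ / n) : ℝ) : ℂ)
      = ∑ j₁ ∈ range (2 * r + 1), ∑ j₂ ∈ range (2 * r + 1),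
        (((wt r j₁ * wt r j₂ : ℝ) : ℂ) * ee (-(((j₁ : ℝ) - r) * c₁ + ((j₂ : ℝ) - r) * c₂)))
          * ee ((((j₁ : ℝ) - r) * n₁ + ((j₂ : ℝ) - r) * n₂) / n) := by
  unfold ker
  rw [Complex.ofReal_mul, kernel_expand, kernel_expand, sum_mul_sum]
  refine sum_congr rfl fun j₁ _ => sum_congr rfl fun j₂ _ => ?_
  have e : ee ((((j₁ : ℝ) - r) * n₁ + ((j₂ : ℝ) - r) * n₂) / n)
      = ee (((j₁ : ℝ) - r) * (n₁ / n)) * ee (((j₂ : ℝ) - r) * (n₂ / n)) := by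
    rw [← ee_add]
    congr 1
    ring
  have e1 : ee (((j₁ : ℝ) - r) * (n₁ / n - c₁))
      = ee (((j₁ : ℝ) - r) * (n₁ / n)) * ee (-(((j₁ : ℝ) - r) * c₁)) := by
    rw [← ee_add]
    congr 1
    ring
  have e2 : ee (((j₂ : ℝ) - r) * (n₂ / n - c₂))
      = ee (((j₂ : ℝ) - r) * (n₂ / n)) * ee (-(((j₂ : ℝ) - r) * c₂)) := by
    rw [← ee_add]
    congr 1
    ring
  have e3 : ee (-(((j₁ : ℝ) - r) * c₁ + ((j₂ : ℝ) - r) * c₂))
      = ee (-(((j₁ : ℝ) - r) * c₁)) * ee (-(((j₂ : ℝ) - r) * c₂)) := by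
    rw [← ee_add]
    congr 1
    ring
  rw [e, e1, e2, e3]
  push_cast
  ring

lemma cos_sq_le_one (t : ℝ) : Real.cos t ^ 2 ≤ 1 := by
  have := Real.abs_cos_le_one t
  rw [← sq_abs]
  have h0 : 0 ≤ |Real.cos t| := abs_nonneg _
  nlinarith

lemma ker_nonneg (r : ℕ) (c₁ c₂ t₁ t₂ : ℝ) : 0 ≤ ker r c₁ c₂ t₁ t₂ := by
  unfold ker
  positivity

lemma ker_le_one (r : ℕ) (c₁ c₂ t₁ t₂ : ℝ) : ker r c₁ c₂ t₁ t₂ ≤ 1 := by
  unfold ker
  have h1 := cos_sq_le_one (Real.pi * (t₁ - c₁))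
  have h2 := cos_sq_le_one (Real.pi * (t₂ - c₂))
  have h3 : (Real.cos (Real.pi * (t₁ - c₁)) ^ 2) ^ r ≤ 1 := pow_le_one₀ (by positivity) h1
  have h4 : (Real.cos (Real.pi * (t₂ - c₂)) ^ 2) ^ r ≤ 1 := pow_le_one₀ (by positivity) h2
  have h5 : 0 ≤ (Real.cos (Real.pi * (t₂ - c₂)) ^ 2) ^ r := by positivity
  nlinarith

/-- The value at distance `1/16`. -/
noncomputable def rho : ℝ := Real.cos (Real.pi / 16) ^ 2

lemma rho_lt_one : rho < 1 := by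
  unfold rho
  have h1 : Real.cos (Real.pi / 16) < 1 := by
    have := Real.cos_lt_cos_of_nonneg_of_le_pi (x := 0) (y := Real.pi / 16) le_rfl
      (by linarith [Real.pi_pos]) (by positivity)
    rwa [Real.cos_zero] at this
  have h2 : 0 ≤ Real.cos (Real.pi / 16) :=
    Real.cos_nonneg_of_mem_Icc ⟨by linarith [Real.pi_pos], by linarith [Real.pi_pos]⟩
  nlinarith

lemma rho_nonneg : 0 ≤ rho := by
  unfold rho
  positivity

lemma near_of_cos (t : ℝ) (h : rho < Real.cos (Real.pi * t) ^ 2) : ∃ z : ℤ, |t - z| < 1 / 16 := by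
  refine ⟨round t, ?_⟩
  by_contra hcon
  push Not at hcon
  have h1 : |t - round t| ≤ 1 / 2 := abs_sub_round t
  have h2 : Real.cos (Real.pi * t) ^ 2 = Real.cos (Real.pi * |t - round t|) ^ 2 := by
    have e : Real.pi * t = Real.pi * (t - round t) + (round t : ℤ) * Real.pi := by ring
    have e2 : Real.cos (Real.pi * (t - round t) + (round t : ℤ) * Real.pi) ^ 2
        = Real.cos (Real.pi * (t - round t)) ^ 2 := by
      rw [Real.cos_add_int_mul_pi, mul_pow]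
      have : ((-1 : ℝ) ^ (round t)) ^ 2 = 1 := by
        rw [← zpow_natCast, ← zpow_mul, mul_comm, zpow_mul]
        norm_num
      rw [this, one_mul]
    rw [e, e2]
    rcases abs_cases (t - round t) with ⟨h3, _⟩ | ⟨h3, _⟩
    · rw [h3]
    · rw [h3, mul_neg, Real.cos_neg]
  rw [h2] at h
  have h3 : Real.cos (Real.pi * |t - round t|) ≤ Real.cos (Real.pi / 16) := by
    apply Real.cos_le_cos_of_nonneg_of_le_pi
    · positivity
    · nlinarith [Real.pi_pos]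
    · nlinarith [Real.pi_pos]
  have h4 : 0 ≤ Real.cos (Real.pi * |t - round t|) :=
    Real.cos_nonneg_of_mem_Icc ⟨by nlinarith [Real.pi_pos, abs_nonneg (t - round t)],
      by nlinarith [Real.pi_pos]⟩
  unfold rho at h
  nlinarith

lemma near_of_ker (r : ℕ) (c₁ c₂ t₁ t₂ : ℝ) (h : rho ^ r < ker r c₁ c₂ t₁ t₂) :
    (∃ z : ℤ, |t₁ - c₁ - z| < 1 / 16) ∧ (∃ z : ℤ, |t₂ - c₂ - z| < 1 / 16) := by
  unfold ker at h
  have h1 := cos_sq_le_one (Real.pi * (t₁ - c₁))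
  have h2 := cos_sq_le_one (Real.pi * (t₂ - c₂))
  have h3 : (Real.cos (Real.pi * (t₁ - c₁)) ^ 2) ^ r ≤ 1 := pow_le_one₀ (by positivity) h1
  have h4 : (Real.cos (Real.pi * (t₂ - c₂)) ^ 2) ^ r ≤ 1 := pow_le_one₀ (by positivity) h2
  have h5 : 0 ≤ (Real.cos (Real.pi * (t₂ - c₂)) ^ 2) ^ r := by positivity
  have h6 : 0 ≤ (Real.cos (Real.pi * (t₁ - c₁)) ^ 2) ^ r := by positivity
  constructor
  · apply near_of_cos
    by_contra hcon
    push Not at hcon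
    have : (Real.cos (Real.pi * (t₁ - c₁)) ^ 2) ^ r ≤ rho ^ r :=
      pow_le_pow_left₀ (by positivity) hcon r
    nlinarith
  · apply near_of_cos
    by_contra hcon
    push Not at hcon
    have : (Real.cos (Real.pi * (t₂ - c₂)) ^ 2) ^ r ≤ rho ^ r :=
      pow_le_pow_left₀ (by positivity) hcon r
    nlinarith

lemma exists_r : ∃ r : ℕ, 1 ≤ r ∧ 2 * (2 * (r : ℝ) + 1) ^ 2 * rho ^ r ≤ 1 := by
  have h1 : Filter.Tendsto (fun n : ℕ => (n : ℝ) ^ 2 * rho ^ n) Filter.atTop (nhds 0) :=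
    tendsto_pow_const_mul_const_pow_of_lt_one 2 rho_nonneg rho_lt_one
  have h2 := h1.eventually (gt_mem_nhds (show (0 : ℝ) < 1 / 18 by norm_num))
  obtain ⟨r, hr, hr1⟩ := (h2.and (Filter.eventually_ge_atTop 1)).exists
  refine ⟨r, hr1, ?_⟩
  have hr' : (1 : ℝ) ≤ r := by exact_mod_cast hr1
  have h3 : (2 * (r : ℝ) + 1) ^ 2 ≤ 9 * (r : ℝ) ^ 2 := by nlinarith
  have h4 : 0 ≤ rho ^ r := pow_nonneg rho_nonneg r
  calc 2 * (2 * (r : ℝ) + 1) ^ 2 * rho ^ r ≤ 2 * (9 * (r : ℝ) ^ 2) * rho ^ r := by gcongr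
    _ = 18 * ((r : ℝ) ^ 2 * rho ^ r) := by ring
    _ ≤ 1 := by linarith

lemma mod_eq_of_between (n p : ℕ) (hp : 0 < p) (z : ℤ) (h1 : (z : ℝ) * p ≤ n)
    (h2 : (n : ℝ) < (z + 1) * p) : ((n % p : ℕ) : ℝ) = n - z * p := by
  have h1' : z * (p : ℤ) ≤ (n : ℤ) := by exact_mod_cast h1
  have h2' : (n : ℤ) < (z + 1) * (p : ℤ) := by exact_mod_cast h2
  have hq : (n : ℤ) = (p : ℤ) * ((n / p : ℕ) : ℤ) + ((n % p : ℕ) : ℤ) := by
    exact_mod_cast (Nat.div_add_mod n p).symm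
  have hm : ((n % p : ℕ) : ℤ) < (p : ℤ) := by exact_mod_cast Nat.mod_lt n hp
  have hm0 : (0 : ℤ) ≤ ((n % p : ℕ) : ℤ) := by positivity
  have hp' : (0 : ℤ) < (p : ℤ) := by exact_mod_cast hp
  have hz : z = ((n / p : ℕ) : ℤ) := by
    rcases lt_trichotomy z ((n / p : ℕ) : ℤ) with h | h | h
    · exfalso
      have : (z + 1) * (p : ℤ) ≤ ((n / p : ℕ) : ℤ) * p :=
        mul_le_mul_of_nonneg_right (by omega) hp'.le
      nlinarith
    · exact h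
    · exfalso
      have : (((n / p : ℕ) : ℤ) + 1) * (p : ℤ) ≤ z * p :=
        mul_le_mul_of_nonneg_right (by omega) hp'.le
      nlinarith
  have hfin : ((n % p : ℕ) : ℤ) = (n : ℤ) - z * p := by
    rw [hz]
    linarith
  have h3 : (((n % p : ℕ) : ℤ) : ℝ) = (((n : ℤ) - z * (p : ℤ) : ℤ) : ℝ) := by rw [hfin]
  rw [Int.cast_natCast] at h3
  rw [h3, Int.cast_sub, Int.cast_mul, Int.cast_natCast, Int.cast_natCast]

/-- From closeness to residues: first coordinate. -/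
lemma mod_of_near_one (n p : ℕ) (hp : 0 < p) (z : ℤ)
    (h : |(n : ℝ) / p - 15 / 16 - z| < 1 / 16) : 7 * p < 8 * (n % p) := by
  have hp0 : (0 : ℝ) < p := by exact_mod_cast hp
  rw [abs_lt] at h
  obtain ⟨h1, h2⟩ := h
  have h3 : (z : ℝ) * p + 7 / 8 * p < n := by
    have : (z : ℝ) + 7 / 8 < (n : ℝ) / p := by linarith
    rw [lt_div_iff₀ hp0] at this
    linarith
  have h4 : (n : ℝ) < (z + 1) * p := by
    have : (n : ℝ) / p < z + 1 := by linarith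
    rwa [div_lt_iff₀ hp0] at this
  have h5 := mod_eq_of_between n p hp z (by linarith) h4
  have h6 : (7 : ℝ) * p < 8 * ((n % p : ℕ) : ℝ) := by
    rw [h5]
    linarith
  exact_mod_cast h6

/-- From closeness to residues: second coordinate. -/
lemma mod_of_near_quarter (n p : ℕ) (hp : 0 < p) (z : ℤ)
    (h : |(n : ℝ) / p - 1 / 4 - z| < 1 / 16) : 2 * (n % p) < p := by
  have hp0 : (0 : ℝ) < p := by exact_mod_cast hp
  rw [abs_lt] at h
  obtain ⟨h1, h2⟩ := h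
  have h3 : (z : ℝ) * p ≤ n := by
    have : (z : ℝ) ≤ (n : ℝ) / p := by linarith
    rwa [le_div_iff₀ hp0] at this
  have h4 : (n : ℝ) < (z + 5 / 16) * p := by
    have : (n : ℝ) / p < z + 5 / 16 := by linarith
    rwa [div_lt_iff₀ hp0] at this
  have h5 := mod_eq_of_between n p hp z h3 (by nlinarith)
  have h6 : (2 : ℝ) * ((n % p : ℕ) : ℝ) < p := by
    rw [h5]
    nlinarith
  exact_mod_cast h6

lemma psi_diff (a b : ℕ) (hab : a ≤ b) :
    ∑ n ∈ Ioc a b, ArithmeticFunction.vonMangoldt n = Chebyshev.psi b - Chebyshev.psi a := by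
  unfold Chebyshev.psi
  rw [Nat.floor_natCast, Nat.floor_natCast, ← Finset.sum_Ioc_consecutive _ (Nat.zero_le a) hab]
  ring

/-- `A k^(1-τ) ≤ k` for large `k`. -/
lemma ev_small (A τ : ℝ) (hτ : 0 < τ) : ∃ X : ℕ, ∀ k : ℕ, X ≤ k → A * (k : ℝ) ^ (1 - τ) ≤ k := by
  refine ⟨max 1 ⌈(max A 1) ^ (1 / τ)⌉₊, fun k hk => ?_⟩
  have hk1 : 1 ≤ k := (le_max_left _ _).trans hk
  have hkr : (1 : ℝ) ≤ k := by exact_mod_cast hk1
  have hk0 : (0 : ℝ) < k := by linarith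
  have h1 : (max A 1) ^ (1 / τ) ≤ k :=
    (Nat.le_ceil _).trans (by exact_mod_cast (le_max_right _ _).trans hk)
  have h2 : ((max A 1) ^ (1 / τ)) ^ τ ≤ (k : ℝ) ^ τ := Real.rpow_le_rpow (by positivity) h1 hτ.le
  rw [← Real.rpow_mul (by positivity), one_div, inv_mul_cancel₀ hτ.ne', Real.rpow_one] at h2
  have h3 : A ≤ (k : ℝ) ^ τ := (le_max_left _ _).trans h2
  calc A * (k : ℝ) ^ (1 - τ) ≤ (k : ℝ) ^ τ * (k : ℝ) ^ (1 - τ) := by gcongr
    _ = k := by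
      rw [← Real.rpow_add hk0]
      have : τ + (1 - τ) = 1 := by ring
      rw [this, Real.rpow_one]

lemma sqrt_log_le (k : ℕ) (hk : 1 ≤ k) :
    2 * Real.sqrt (8 * (k : ℝ)) * Real.log (8 * (k : ℝ)) ≤ 64 * (k : ℝ) ^ (1 - (1 : ℝ) / 4) := by
  have hkr : (1 : ℝ) ≤ k := by exact_mod_cast hk
  have hk0 : (0 : ℝ) < k := by linarith
  have h1 : Real.log (8 * (k : ℝ)) ≤ (8 * (k : ℝ)) ^ ((1 : ℝ) / 4) / (1 / 4) :=
    Real.log_le_rpow_div (by positivity) (by norm_num)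
  have h2 : Real.sqrt (8 * (k : ℝ)) = (8 * (k : ℝ)) ^ ((1 : ℝ) / 2) := Real.sqrt_eq_rpow _
  have h3 : (8 * (k : ℝ)) ^ ((1 : ℝ) / 2) * (8 * (k : ℝ)) ^ ((1 : ℝ) / 4)
      = (8 * (k : ℝ)) ^ ((3 : ℝ) / 4) := by
    rw [← Real.rpow_add (by positivity)]
    norm_num
  have h4 : (8 * (k : ℝ)) ^ ((3 : ℝ) / 4) = (8 : ℝ) ^ ((3 : ℝ) / 4) * (k : ℝ) ^ ((3 : ℝ) / 4) :=
    Real.mul_rpow (by norm_num) hk0.le
  have h5 : (8 : ℝ) ^ ((3 : ℝ) / 4) ≤ 8 := by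
    calc (8 : ℝ) ^ ((3 : ℝ) / 4) ≤ (8 : ℝ) ^ (1 : ℝ) :=
          Real.rpow_le_rpow_of_exponent_le (by norm_num) (by norm_num)
      _ = 8 := Real.rpow_one _
  have h6 : (1 : ℝ) - 1 / 4 = 3 / 4 := by norm_num
  rw [h2, h6]
  have h7 : 0 ≤ (8 * (k : ℝ)) ^ ((1 : ℝ) / 2) := by positivity
  calc 2 * (8 * (k : ℝ)) ^ ((1 : ℝ) / 2) * Real.log (8 * (k : ℝ))
      ≤ 2 * (8 * (k : ℝ)) ^ ((1 : ℝ) / 2) * ((8 * (k : ℝ)) ^ ((1 : ℝ) / 4) / (1 / 4)) := by gcongr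
    _ = 8 * ((8 * (k : ℝ)) ^ ((1 : ℝ) / 2) * (8 * (k : ℝ)) ^ ((1 : ℝ) / 4)) := by ring
    _ = 8 * ((8 : ℝ) ^ ((3 : ℝ) / 4) * (k : ℝ) ^ ((3 : ℝ) / 4)) := by rw [h3, h4]
    _ ≤ 8 * (8 * (k : ℝ) ^ ((3 : ℝ) / 4)) := by gcongr
    _ = 64 * (k : ℝ) ^ ((3 : ℝ) / 4) := by ring

lemma psi_lower (k : ℕ) (hk : 1 ≤ k) :
    4 * Real.log 2 * k - 192 * (k : ℝ) ^ (1 - (1 : ℝ) / 4)
      ≤ Chebyshev.psi ((8 * k : ℕ) : ℝ) - Chebyshev.psi ((2 * k : ℕ) : ℝ) := by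
  have hkr : (1 : ℝ) ≤ k := by exact_mod_cast hk
  have hk0 : (0 : ℝ) < k := by linarith
  have h1 := Chebyshev.psi_ge (8 * k)
  have h2 := Chebyshev.psi_le (x := ((2 * k : ℕ) : ℝ)) (by push_cast; linarith)
  have h3 := sqrt_log_le k hk
  have h4 : Real.log 4 = 2 * Real.log 2 := by
    rw [show (4 : ℝ) = 2 ^ 2 by norm_num, Real.log_pow]
    norm_num
  have h5 : Real.log (((8 * k : ℕ) : ℝ) + 1) ≤ 128 * (k : ℝ) ^ (1 - (1 : ℝ) / 4) := by
    push_cast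
    have e1 : (1 : ℝ) ≤ (k : ℝ) ^ (1 - (1 : ℝ) / 4) := Real.one_le_rpow hkr (by norm_num)
    have e2 : Real.log (8 * (k : ℝ) + 1) ≤ Real.log (8 * (k : ℝ)) + 1 := by
      have e3 : 8 * (k : ℝ) + 1 ≤ 8 * k * Real.exp 1 := by
        have := Real.add_one_le_exp (1 : ℝ)
        nlinarith
      calc Real.log (8 * (k : ℝ) + 1) ≤ Real.log (8 * k * Real.exp 1) :=
            Real.log_le_log (by positivity) e3
        _ = Real.log (8 * (k : ℝ)) + 1 := by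
            rw [Real.log_mul (by positivity) (Real.exp_pos 1).ne', Real.log_exp]
    have e4 : Real.log (8 * (k : ℝ)) ≤ 2 * Real.sqrt (8 * (k : ℝ)) * Real.log (8 * (k : ℝ)) := by
      have e5 : 1 ≤ Real.sqrt (8 * (k : ℝ)) := by
        rw [Real.one_le_sqrt]
        linarith
      have e6 : 0 ≤ Real.log (8 * (k : ℝ)) := Real.log_nonneg (by linarith)
      nlinarith
    linarith
  have h6 : 2 * Real.sqrt (2 * (k : ℝ)) * Real.log (2 * (k : ℝ))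
      ≤ 2 * Real.sqrt (8 * (k : ℝ)) * Real.log (8 * (k : ℝ)) := by
    have e1 : Real.sqrt (2 * (k : ℝ)) ≤ Real.sqrt (8 * (k : ℝ)) := Real.sqrt_le_sqrt (by linarith)
    have e2 : Real.log (2 * (k : ℝ)) ≤ Real.log (8 * (k : ℝ)) :=
      Real.log_le_log (by positivity) (by linarith)
    have e3 : 0 ≤ Real.log (2 * (k : ℝ)) := Real.log_nonneg (by linarith)
    gcongr
  push_cast at h1 h2 h5 ⊢
  rw [h4] at h2
  nlinarith

/-- The exponential sum over `(2k, 8k]`. -/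
lemma sum_28 {c C : ℝ} (hc : 0 < c) {σ K : ℝ} (hσ : 0 < σ) (hK : 1 ≤ K)
    (hL : ∀ (F : ℝ) (x y : ℕ), 1 ≤ x → y ≤ 2 * x →
      (x : ℝ) ^ (1 + c / 2) ≤ |F| → |F| ≤ (x : ℝ) ^ C →
      ‖∑ n ∈ Ioc x y, ((ArithmeticFunction.vonMangoldt n : ℝ) : ℂ) * ee (F / n)‖
        ≤ K * (x : ℝ) ^ (1 - σ)) {k : ℕ} (hk : 1 ≤ k)
    (hkc : (4 : ℝ) ^ (1 + c / 2) ≤ (k : ℝ) ^ (c / 2)) (hC : 0 ≤ C) {F : ℝ}
    (hF1 : (k : ℝ) ^ (1 + c) ≤ |F|) (hF2 : |F| ≤ (k : ℝ) ^ C) :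
    ‖∑ n ∈ Ioc (2 * k) (8 * k), ((ArithmeticFunction.vonMangoldt n : ℝ) : ℂ) * ee (F / n)‖
      ≤ 8 * K * (k : ℝ) ^ (1 - σ) := by
  have hkr : (1 : ℝ) ≤ k := by exact_mod_cast hk
  have hk0 : (0 : ℝ) < k := by linarith
  have hbig : ∀ b : ℝ, 1 ≤ b → b ≤ 4 → (b * (k : ℝ)) ^ (1 + c / 2) ≤ |F| := by
    intro b hb1 hb4
    refine le_trans ?_ hF1
    rw [Real.mul_rpow (by linarith) hk0.le]
    calc b ^ (1 + c / 2) * (k : ℝ) ^ (1 + c / 2)
        ≤ (4 : ℝ) ^ (1 + c / 2) * (k : ℝ) ^ (1 + c / 2) := by gcongr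
      _ ≤ (k : ℝ) ^ (c / 2) * (k : ℝ) ^ (1 + c / 2) := by gcongr
      _ = (k : ℝ) ^ (1 + c) := by
        rw [← Real.rpow_add hk0]
        congr 1
        ring
  have hsm : ∀ b : ℝ, 1 ≤ b → |F| ≤ (b * (k : ℝ)) ^ C := by
    intro b hb1
    refine hF2.trans (Real.rpow_le_rpow hk0.le (by nlinarith) hC)
  have h1 := hL F (2 * k) (4 * k) (by omega) (by omega)
    (by push_cast; exact hbig 2 (by norm_num) (by norm_num))
    (by push_cast; exact hsm 2 (by norm_num))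
  have h2 := hL F (4 * k) (8 * k) (by omega) (by omega)
    (by push_cast; exact hbig 4 (by norm_num) (by norm_num))
    (by push_cast; exact hsm 4 (by norm_num))
  have h3 : ∀ b : ℝ, 1 ≤ b → b ≤ 4 → (b * (k : ℝ)) ^ (1 - σ) ≤ 4 * (k : ℝ) ^ (1 - σ) := by
    intro b hb1 hb4
    rw [Real.mul_rpow (by linarith) hk0.le]
    have : b ^ (1 - σ) ≤ 4 := by
      calc b ^ (1 - σ) ≤ b ^ (1 : ℝ) := Real.rpow_le_rpow_of_exponent_le hb1 (by linarith)
        _ = b := Real.rpow_one b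
        _ ≤ 4 := hb4
    gcongr
  have h4 := h3 2 (by norm_num) (by norm_num)
  have h5 := h3 4 (by norm_num) (by norm_num)
  push_cast at h1 h2
  rw [← Finset.sum_Ioc_consecutive _ (by omega : 2 * k ≤ 4 * k) (by omega : 4 * k ≤ 8 * k)]
  refine (norm_add_le _ _).trans ?_
  have h6 : K * (2 * (k : ℝ)) ^ (1 - σ) ≤ K * (4 * (k : ℝ) ^ (1 - σ)) :=
    mul_le_mul_of_nonneg_left h4 (by linarith)
  have h7 : K * (4 * (k : ℝ)) ^ (1 - σ) ≤ K * (4 * (k : ℝ) ^ (1 - σ)) :=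
    mul_le_mul_of_nonneg_left h5 (by linarith)
  linarith

/-- Lower bound for the kernel sum. -/
lemma ker_sum_lower (r k : ℕ) (c₁ c₂ : ℝ) (n₁ n₂ E : ℝ) (hE : 0 ≤ E)
    (hexp : ∀ j₁ ∈ range (2 * r + 1), ∀ j₂ ∈ range (2 * r + 1), (j₁ ≠ r ∨ j₂ ≠ r) →
      ‖∑ n ∈ Ioc (2 * k) (8 * k), ((ArithmeticFunction.vonMangoldt n : ℝ) : ℂ)
        * ee ((((j₁ : ℝ) - r) * n₁ + ((j₂ : ℝ) - r) * n₂) / n)‖ ≤ E) :
    wt r r ^ 2 * ∑ n ∈ Ioc (2 * k) (8 * k), ArithmeticFunction.vonMangoldt n - E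
      ≤ ∑ n ∈ Ioc (2 * k) (8 * k), ArithmeticFunction.vonMangoldt n
        * ker r c₁ c₂ (n₁ / n) (n₂ / n) := by
  have h1 : ((∑ n ∈ Ioc (2 * k) (8 * k), ArithmeticFunction.vonMangoldt n
        * ker r c₁ c₂ (n₁ / n) (n₂ / n) : ℝ) : ℂ)
      = ∑ p ∈ range (2 * r + 1) ×ˢ range (2 * r + 1),
        (((wt r p.1 * wt r p.2 : ℝ) : ℂ)
          * ee (-(((p.1 : ℝ) - r) * c₁ + ((p.2 : ℝ) - r) * c₂)))
          * ∑ n ∈ Ioc (2 * k) (8 * k), ((ArithmeticFunction.vonMangoldt n : ℝ) : ℂ)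
            * ee ((((p.1 : ℝ) - r) * n₁ + ((p.2 : ℝ) - r) * n₂) / n) := by
    rw [sum_product]
    push_cast
    have e1 : ∀ n ∈ Ioc (2 * k) (8 * k), ((ArithmeticFunction.vonMangoldt n : ℝ) : ℂ)
        * ((ker r c₁ c₂ (n₁ / n) (n₂ / n) : ℝ) : ℂ)
        = ∑ j₁ ∈ range (2 * r + 1), ∑ j₂ ∈ range (2 * r + 1),
          (((wt r j₁ : ℝ) : ℂ) * ((wt r j₂ : ℝ) : ℂ)
            * ee (-(((j₁ : ℝ) - r) * c₁ + ((j₂ : ℝ) - r) * c₂)))
            * (((ArithmeticFunction.vonMangoldt n : ℝ) : ℂ)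
              * ee ((((j₁ : ℝ) - r) * n₁ + ((j₂ : ℝ) - r) * n₂) / n)) := by
      intro n _
      rw [ker_expand, mul_sum]
      refine sum_congr rfl fun j₁ _ => ?_
      rw [mul_sum]
      refine sum_congr rfl fun j₂ _ => ?_
      push_cast
      ring
    rw [sum_congr rfl e1, sum_comm]
    refine sum_congr rfl fun j₁ _ => ?_
    rw [sum_comm]
    refine sum_congr rfl fun j₂ _ => ?_
    rw [mul_sum]
  have hmem : (r, r) ∈ range (2 * r + 1) ×ˢ range (2 * r + 1) := by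
    rw [mem_product, mem_range]
    constructor <;> simp only <;> omega
  rw [← Finset.add_sum_erase _ _ hmem] at h1
  simp only [sub_self, zero_mul, add_zero, neg_zero, ee_zero, mul_one, zero_div] at h1
  set R : ℂ := ∑ p ∈ (range (2 * r + 1) ×ˢ range (2 * r + 1)).erase (r, r),
        (((wt r p.1 * wt r p.2 : ℝ) : ℂ)
          * ee (-(((p.1 : ℝ) - r) * c₁ + ((p.2 : ℝ) - r) * c₂)))
          * ∑ n ∈ Ioc (2 * k) (8 * k), ((ArithmeticFunction.vonMangoldt n : ℝ) : ℂ)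
            * ee ((((p.1 : ℝ) - r) * n₁ + ((p.2 : ℝ) - r) * n₂) / n) with hR
  have hRn : ‖R‖ ≤ E := by
    rw [hR]
    refine (norm_sum_le _ _).trans ?_
    calc ∑ p ∈ (range (2 * r + 1) ×ˢ range (2 * r + 1)).erase (r, r),
        ‖(((wt r p.1 * wt r p.2 : ℝ) : ℂ)
          * ee (-(((p.1 : ℝ) - r) * c₁ + ((p.2 : ℝ) - r) * c₂)))
          * ∑ n ∈ Ioc (2 * k) (8 * k), ((ArithmeticFunction.vonMangoldt n : ℝ) : ℂ)
            * ee ((((p.1 : ℝ) - r) * n₁ + ((p.2 : ℝ) - r) * n₂) / n)‖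
        ≤ ∑ p ∈ (range (2 * r + 1) ×ˢ range (2 * r + 1)).erase (r, r),
          wt r p.1 * wt r p.2 * E := by
          refine sum_le_sum fun p hp => ?_
          rw [mem_erase, mem_product] at hp
          rw [norm_mul, norm_mul, norm_ee, mul_one, Complex.norm_real, Real.norm_eq_abs,
            abs_of_nonneg (mul_nonneg (wt_nonneg _ _) (wt_nonneg _ _))]
          apply mul_le_mul_of_nonneg_left _ (mul_nonneg (wt_nonneg _ _) (wt_nonneg _ _))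
          apply hexp p.1 hp.2.1 p.2 hp.2.2
          by_contra hcon
          push Not at hcon
          exact hp.1 (Prod.ext hcon.1 hcon.2)
      _ ≤ ∑ p ∈ range (2 * r + 1) ×ˢ range (2 * r + 1), wt r p.1 * wt r p.2 * E := by
          refine sum_le_sum_of_subset_of_nonneg (erase_subset _ _) fun p _ _ => ?_
          exact mul_nonneg (mul_nonneg (wt_nonneg _ _) (wt_nonneg _ _)) hE
      _ = E := by
          rw [← sum_mul, sum_product, ← sum_mul_sum, wt_sum]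
          ring
  have h2 := congrArg Complex.re h1
  rw [Complex.ofReal_re, Complex.add_re] at h2
  have h3 : (((wt r r * wt r r : ℝ) : ℂ) * ∑ n ∈ Ioc (2 * k) (8 * k),
      ((ArithmeticFunction.vonMangoldt n : ℝ) : ℂ)).re
      = wt r r ^ 2 * ∑ n ∈ Ioc (2 * k) (8 * k), ArithmeticFunction.vonMangoldt n := by
    rw [← Complex.ofReal_sum, ← Complex.ofReal_mul, Complex.ofReal_re]
    ring
  rw [h3] at h2
  have h4 : -E ≤ R.re := by
    have := Complex.abs_re_le_norm R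
    have h5 := neg_abs_le R.re
    linarith
  linarith

/-- The kernel exponent. -/
noncomputable def rr : ℕ := Classical.choose exists_r

lemma rr_pos : 1 ≤ rr := (Classical.choose_spec exists_r).1

lemma rr_spec : 2 * (2 * (rr : ℝ) + 1) ^ 2 * rho ^ rr ≤ 1 := (Classical.choose_spec exists_r).2

/-- Joint equidistribution, in the form needed. -/
theorem equi (c B : ℝ) (hc : 0 < c) (hB : 0 ≤ B) : ∃ X : ℕ, ∀ k : ℕ, X ≤ k → ∀ n₁ n₂ : ℕ,
    (n₁ : ℝ) ≤ (k : ℝ) ^ B → (n₂ : ℝ) ≤ (k : ℝ) ^ B →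
    (∀ h₁ h₂ : ℤ, |h₁| ≤ rr → |h₂| ≤ rr → (h₁ ≠ 0 ∨ h₂ ≠ 0) →
      (k : ℝ) ^ (1 + c) ≤ |(h₁ : ℝ) * n₁ + h₂ * n₂|) →
    ∃ p : ℕ, p.Prime ∧ 2 * k < p ∧ p ≤ 8 * k ∧ 7 * p < 8 * (n₁ % p) ∧ 2 * (n₂ % p) < p := by
  obtain ⟨σ, hσ, hσ1, K, hK, hL⟩ := lambda_sum (c / 2) (B + 1) (by positivity)
  set r : ℕ := rr with hr
  have hr1 : 1 ≤ r := rr_pos
  have hrr : (1 : ℝ) ≤ r := by exact_mod_cast hr1
  set η : ℝ := 1 / (2 * (2 * (r : ℝ) + 1) ^ 2) with hη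
  have hη0 : 0 < η := by positivity
  have hη1 : η ≤ 1 := by
    rw [hη, div_le_one (by positivity)]
    nlinarith
  obtain ⟨X₁, hX₁⟩ := ev_small (8 * K / η * 2) σ hσ
  obtain ⟨X₂, hX₂⟩ := ev_small (640 / η) (1 / 4) (by norm_num)
  obtain ⟨X₃, hX₃⟩ := ev_small ((4 : ℝ) ^ (1 + c / 2)) (c / 2) (by positivity)
  refine ⟨max (max X₁ X₂) (max (max X₃ 1) (2 * r)), ?_⟩
  intro k hk n₁ n₂ hn₁ hn₂ hh
  have hkX₁ : X₁ ≤ k := (le_max_left _ _).trans ((le_max_left _ _).trans hk)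
  have hkX₂ : X₂ ≤ k := (le_max_right _ _).trans ((le_max_left _ _).trans hk)
  have hk3 : max (max X₃ 1) (2 * r) ≤ k := (le_max_right _ _).trans hk
  have hkX₃ : X₃ ≤ k := (le_max_left _ _).trans ((le_max_left _ _).trans hk3)
  have hk1 : 1 ≤ k := (le_max_right _ _).trans ((le_max_left _ _).trans hk3)
  have hk2r : 2 * r ≤ k := (le_max_right _ _).trans hk3
  have hkr : (1 : ℝ) ≤ k := by exact_mod_cast hk1
  have hk0 : (0 : ℝ) < k := by linarith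
  have hkc : (4 : ℝ) ^ (1 + c / 2) ≤ (k : ℝ) ^ (c / 2) := by
    have h1 := hX₃ k hkX₃
    have h2 : (k : ℝ) = (k : ℝ) ^ (c / 2) * (k : ℝ) ^ (1 - c / 2) := by
      rw [← Real.rpow_add hk0]
      have : c / 2 + (1 - c / 2) = 1 := by ring
      rw [this, Real.rpow_one]
    have h3 : 0 < (k : ℝ) ^ (1 - c / 2) := by positivity
    have h4 : (4 : ℝ) ^ (1 + c / 2) * (k : ℝ) ^ (1 - c / 2)
        ≤ (k : ℝ) ^ (c / 2) * (k : ℝ) ^ (1 - c / 2) := by
      rw [← h2]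
      exact h1
    exact le_of_mul_le_mul_right h4 h3
  set E : ℝ := 8 * K * (k : ℝ) ^ (1 - σ) with hE
  have hE0 : 0 ≤ E := by positivity
  have hexp : ∀ j₁ ∈ range (2 * r + 1), ∀ j₂ ∈ range (2 * r + 1), (j₁ ≠ r ∨ j₂ ≠ r) →
      ‖∑ n ∈ Ioc (2 * k) (8 * k), ((ArithmeticFunction.vonMangoldt n : ℝ) : ℂ)
        * ee ((((j₁ : ℝ) - r) * n₁ + ((j₂ : ℝ) - r) * n₂) / n)‖ ≤ E := by
    intro j₁ hj₁ j₂ hj₂ hne
    rw [mem_range] at hj₁ hj₂
    have hcast : ((j₁ : ℝ) - r) * n₁ + ((j₂ : ℝ) - r) * n₂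
        = (((j₁ : ℤ) - r : ℤ) : ℝ) * n₁ + (((j₂ : ℤ) - r : ℤ) : ℝ) * n₂ := by
      push_cast
      ring
    have hlow := hh ((j₁ : ℤ) - r) ((j₂ : ℤ) - r) (by rw [abs_le]; constructor <;> omega)
      (by rw [abs_le]; constructor <;> omega) (by omega)
    rw [← hcast] at hlow
    have hup : |((j₁ : ℝ) - r) * n₁ + ((j₂ : ℝ) - r) * n₂| ≤ (k : ℝ) ^ (B + 1) := by
      have e1 : |(j₁ : ℝ) - r| ≤ r := by
        have : (j₁ : ℝ) ≤ 2 * r := by exact_mod_cast (by omega : j₁ ≤ 2 * r)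
        rw [abs_le]
        constructor
        · have : (0 : ℝ) ≤ j₁ := by positivity
          linarith
        · linarith
      have e2 : |(j₂ : ℝ) - r| ≤ r := by
        have : (j₂ : ℝ) ≤ 2 * r := by exact_mod_cast (by omega : j₂ ≤ 2 * r)
        rw [abs_le]
        constructor
        · have : (0 : ℝ) ≤ j₂ := by positivity
          linarith
        · linarith
      have e3 : (2 * (r : ℝ)) ≤ k := by exact_mod_cast hk2r
      calc |((j₁ : ℝ) - r) * n₁ + ((j₂ : ℝ) - r) * n₂|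
          ≤ |((j₁ : ℝ) - r) * n₁| + |((j₂ : ℝ) - r) * n₂| := abs_add_le _ _
        _ = |(j₁ : ℝ) - r| * n₁ + |(j₂ : ℝ) - r| * n₂ := by
            rw [abs_mul, abs_mul, Nat.abs_cast, Nat.abs_cast]
        _ ≤ r * (k : ℝ) ^ B + r * (k : ℝ) ^ B := by gcongr
        _ = 2 * r * (k : ℝ) ^ B := by ring
        _ ≤ k * (k : ℝ) ^ B := by gcongr
        _ = (k : ℝ) ^ (B + 1) := by
            rw [Real.rpow_add hk0, Real.rpow_one]
            ring
    exact sum_28 hc hσ hK hL hk1 hkc (by linarith) hlow hup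
  have hlower := ker_sum_lower r k (15 / 16) (1 / 4) n₁ n₂ E hE0 hexp
  have hψ := psi_lower k hk1
  rw [← psi_diff (2 * k) (8 * k) (by omega)] at hψ
  set S : ℝ := ∑ n ∈ Ioc (2 * k) (8 * k), ArithmeticFunction.vonMangoldt n with hS
  have hsmall1 := hX₁ k hkX₁
  have hsmall2 := hX₂ k hkX₂
  have hP : 0 ≤ (k : ℝ) ^ (1 - (1 : ℝ) / 4) := by positivity
  have hsm2 : 640 * (k : ℝ) ^ (1 - (1 : ℝ) / 4) ≤ η * k := by
    have : 640 / η * (k : ℝ) ^ (1 - (1 : ℝ) / 4) = 640 * (k : ℝ) ^ (1 - (1 : ℝ) / 4) / η := by ring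
    rw [this, div_le_iff₀ hη0] at hsmall2
    linarith
  have hsm1 : 2 * E ≤ η * k := by
    have : 8 * K / η * 2 * (k : ℝ) ^ (1 - σ) = 2 * E / η := by
      rw [hE]
      ring
    rw [this, div_le_iff₀ hη0] at hsmall1
    linarith
  have hηk : η * k ≤ k := by nlinarith
  have hS2 : 2 * (k : ℝ) ≤ S := by
    have := Real.log_two_gt_d9
    nlinarith
  -- contradiction argument
  by_contra hno
  push Not at hno
  have hupper : ∑ n ∈ Ioc (2 * k) (8 * k), ArithmeticFunction.vonMangoldt n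
        * ker r (15 / 16) (1 / 4) ((n₁ : ℝ) / n) ((n₂ : ℝ) / n)
      ≤ rho ^ r * S + 64 * (k : ℝ) ^ (1 - (1 : ℝ) / 4) := by
    have h1 : ∀ n ∈ Ioc (2 * k) (8 * k), ArithmeticFunction.vonMangoldt n
        * ker r (15 / 16) (1 / 4) ((n₁ : ℝ) / n) ((n₂ : ℝ) / n)
        ≤ rho ^ r * ArithmeticFunction.vonMangoldt n
          + (if n.Prime then 0 else ArithmeticFunction.vonMangoldt n) := by
      intro n hn
      rw [mem_Ioc] at hn
      have hv := ArithmeticFunction.vonMangoldt_nonneg (n := n)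
      have hρ : 0 ≤ rho ^ r := pow_nonneg rho_nonneg r
      split_ifs with hp
      · rw [add_zero, mul_comm]
        apply mul_le_mul_of_nonneg_right _ hv
        by_contra hcon
        push Not at hcon
        obtain ⟨⟨z₁, hz₁⟩, ⟨z₂, hz₂⟩⟩ := near_of_ker r _ _ _ _ hcon
        have h2 := mod_of_near_one n₁ n hp.pos z₁ hz₁
        have h3 := mod_of_near_quarter n₂ n hp.pos z₂ hz₂
        have h4 := hno n hp hn.1 hn.2 h2
        omega
      · have h2 := ker_le_one r (15 / 16) (1 / 4) ((n₁ : ℝ) / n) ((n₂ : ℝ) / n)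
        nlinarith
    refine (sum_le_sum h1).trans ?_
    rw [sum_add_distrib, ← mul_sum]
    have h2 : ∑ n ∈ Ioc (2 * k) (8 * k), (if n.Prime then 0 else ArithmeticFunction.vonMangoldt n)
        ≤ 64 * (k : ℝ) ^ (1 - (1 : ℝ) / 4) := by
      have h3 := Chebyshev.psi_sub_theta_eq_sum_not_prime ((8 * k : ℕ) : ℝ)
      have h4 := Chebyshev.psi_sub_theta_le (x := ((8 * k : ℕ) : ℝ)) (by push_cast; linarith)
      rw [Nat.floor_natCast] at h3
      have h5 : ∑ n ∈ Ioc (2 * k) (8 * k),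
          (if n.Prime then 0 else ArithmeticFunction.vonMangoldt n)
          ≤ ∑ n ∈ Ioc 0 (8 * k) with ¬n.Prime, ArithmeticFunction.vonMangoldt n := by
        rw [sum_filter]
        have h6 : ∑ n ∈ Ioc (2 * k) (8 * k),
            (if n.Prime then 0 else ArithmeticFunction.vonMangoldt n)
            ≤ ∑ n ∈ Ioc 0 (8 * k), (if n.Prime then 0 else ArithmeticFunction.vonMangoldt n) := by
          refine sum_le_sum_of_subset_of_nonneg ?_ fun n _ _ => ?_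
          · intro n hn
            rw [mem_Ioc] at hn ⊢
            omega
          · split_ifs
            · exact le_rfl
            · exact ArithmeticFunction.vonMangoldt_nonneg
        refine h6.trans (le_of_eq (sum_congr rfl fun n _ => ?_))
        by_cases hp : n.Prime
        · simp [hp]
        · simp [hp]
      have h7 := sqrt_log_le k hk1
      push_cast at h3 h4
      linarith
    linarith
  have hfinal : wt r r ^ 2 * S - E ≤ rho ^ r * S + 64 * (k : ℝ) ^ (1 - (1 : ℝ) / 4) :=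
    hlower.trans hupper
  have hw : 2 * η ≤ wt r r ^ 2 := by
    have h1 := wt_center r
    have h2 : (0 : ℝ) < 1 / (2 * (r : ℝ) + 1) := by positivity
    have h3 : 2 * η = (1 / (2 * (r : ℝ) + 1)) ^ 2 := by
      rw [hη]
      field_simp
    rw [h3]
    gcongr
  have hρη : rho ^ r ≤ η := by
    have h1 := rr_spec
    rw [hη, le_div_iff₀ (by positivity)]
    rw [← hr] at h1
    linarith
  have hS0 : 0 ≤ S := by linarith
  have h1 : 2 * η * S ≤ wt r r ^ 2 * S := mul_le_mul_of_nonneg_right hw hS0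
  have h2 : rho ^ r * S ≤ η * S := mul_le_mul_of_nonneg_right hρη hS0
  have h3 : η * (2 * k) ≤ η * S := mul_le_mul_of_nonneg_left hS2 hη0.le
  have h4 : 0 < η * k := by positivity
  nlinarith

end ESU
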