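import Pool.Agent.Helper48.ESU.Eq
import Pool.Agent.Helper48.ESU.El

/-!
Two blocks of consecutive integers with equal prime support: assembly.
-/

open Finset

namespace ESU

lemma prod_Icc_range (n k : ℕ) : ∏ i ∈ Icc 1 k, (n + i) = ∏ l ∈ range k, (n + 1 + 1 * l) := by
  induction k with
  | zero => simp
  | succ k ih =>
    rw [prod_range_succ, ← ih, Finset.prod_Icc_succ_top (by omega)]
    ring

lemma prod_Icc_ne_zero (n k : ℕ) : ∏ i ∈ Icc 1 k, (n + i) ≠ 0 := by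
  refine prod_ne_zero_iff.mpr fun i hi => ?_
  rw [mem_Icc] at hi
  omega

lemma mem_support_iff (n k p : ℕ) : p ∈ (∏ i ∈ Icc 1 k, (n + i)).primeFactors
    ↔ p.Prime ∧ ∃ i, 1 ≤ i ∧ i ≤ k ∧ p ∣ n + i := by
  rw [Nat.mem_primeFactors]
  constructor
  · rintro ⟨hp, hd, _⟩
    obtain ⟨i, hi, hdi⟩ := (Prime.dvd_finsetProd_iff hp.prime _).mp hd
    rw [mem_Icc] at hi
    exact ⟨hp, i, hi.1, hi.2, hdi⟩
  · rintro ⟨hp, i, hi1, hi2, hd⟩
    refine ⟨hp, hd.trans (dvd_prod_of_mem (fun i => n + i) (mem_Icc.mpr ⟨hi1, hi2⟩)), ?_⟩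
    exact prod_Icc_ne_zero n k

/-- The prime found by equidistribution separates the supports. -/
lemma sep_prime (n₁ n₂ k₁ k₂ p : ℕ) (hk : k₂ ≤ k₁) (hp : p.Prime) (h1 : 2 * k₁ < p)
    (h2 : p ≤ 8 * k₁) (h3 : 7 * p < 8 * (n₁ % p)) (h4 : 2 * (n₂ % p) < p) :
    (∏ i ∈ Icc 1 k₁, (n₁ + i)).primeFactors ≠ (∏ j ∈ Icc 1 k₂, (n₂ + j)).primeFactors := by
  intro heq
  have hmod := Nat.mod_lt n₁ hp.pos
  have hA : p ∈ (∏ i ∈ Icc 1 k₁, (n₁ + i)).primeFactors := by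
    rw [mem_support_iff]
    refine ⟨hp, p - n₁ % p, by omega, by omega, ?_⟩
    have h5 := Nat.div_add_mod n₁ p
    have h6 : n₁ + (p - n₁ % p) = p * (n₁ / p) + p := by omega
    rw [h6]
    exact Dvd.dvd.add (dvd_mul_right _ _) dvd_rfl
  rw [heq, mem_support_iff] at hA
  obtain ⟨_, j, hj1, hj2, hd⟩ := hA
  have h5 := Nat.div_add_mod n₂ p
  have h6 : p ∣ n₂ % p + j := by
    have h7 : n₂ + j = p * (n₂ / p) + (n₂ % p + j) := by omega
    rw [h7] at hd
    exact (Nat.dvd_add_right (dvd_mul_right _ _)).mp hd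
  have h8 := Nat.le_of_dvd (by omega) h6
  omega

/-- Extraction of the resonance. -/
lemma resonance (r : ℕ) (n₁ n₂ : ℕ) (T : ℝ) (hT : T ≤ n₁) (hn : n₁ ≤ n₂)
    (h₁ h₂ : ℤ) (hb1 : |h₁| ≤ r) (hb2 : |h₂| ≤ r) (hne : h₁ ≠ 0 ∨ h₂ ≠ 0)
    (hlt : |(h₁ : ℝ) * n₁ + h₂ * n₂| < T) :
    ∃ u v : ℕ, 1 ≤ u ∧ u ≤ v ∧ v ≤ r ∧ Nat.Coprime u v ∧
      ((|(u : ℤ) * n₂ - v * n₁| : ℤ) : ℝ) < T := by
  have hn1 : (0 : ℝ) ≤ n₁ := by positivity
  have hnr : (n₁ : ℝ) ≤ n₂ := by exact_mod_cast hn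
  have hna1 : h₁.natAbs ≤ r := by
    have h0 := hb1
    rw [Int.abs_eq_natAbs] at h0
    exact_mod_cast h0
  have hna2 : h₂.natAbs ≤ r := by
    have h0 := hb2
    rw [Int.abs_eq_natAbs] at h0
    exact_mod_cast h0
  have key : ∃ u v : ℕ, 1 ≤ u ∧ 1 ≤ v ∧ u ≤ r ∧ v ≤ r ∧ |(u : ℝ) * n₂ - v * n₁| < T := by
    rcases lt_trichotomy h₂ 0 with h | h | h
    · have h1 : (h₂ : ℝ) ≤ -1 := by exact_mod_cast (by omega : h₂ ≤ -1)
      have h1pos : 0 < h₁ := by
        by_contra hcon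
        push Not at hcon
        have h2 : (h₁ : ℝ) ≤ 0 := by exact_mod_cast hcon
        rw [abs_lt] at hlt
        nlinarith
      refine ⟨h₂.natAbs, h₁.natAbs, by omega, by omega, hna2, hna1, ?_⟩
      have e1 : ((h₂.natAbs : ℕ) : ℝ) = -(h₂ : ℝ) := by
        rw [Nat.cast_natAbs, abs_of_neg h]
        push_cast
        ring
      have e2 : ((h₁.natAbs : ℕ) : ℝ) = (h₁ : ℝ) := by
        rw [Nat.cast_natAbs, abs_of_pos h1pos]
      rw [e1, e2, ← abs_neg]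
      have e3 : -(-(h₂ : ℝ) * n₂ - h₁ * n₁) = (h₁ : ℝ) * n₁ + h₂ * n₂ := by ring
      rw [e3]
      exact hlt
    · exfalso
      have h1 : h₁ ≠ 0 := by
        rcases hne with h2 | h2
        · exact h2
        · exact absurd h h2
      rw [h] at hlt
      simp only [Int.cast_zero, zero_mul, add_zero] at hlt
      rw [abs_mul, Nat.abs_cast] at hlt
      have h2 : (1 : ℝ) ≤ |(h₁ : ℝ)| := by
        rw [← Int.cast_abs]
        exact_mod_cast Int.one_le_abs h1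
      nlinarith
    · have h1 : (1 : ℝ) ≤ h₂ := by exact_mod_cast (by omega : 1 ≤ h₂)
      have h1neg : h₁ < 0 := by
        by_contra hcon
        push Not at hcon
        have h2 : (0 : ℝ) ≤ h₁ := by exact_mod_cast hcon
        rw [abs_lt] at hlt
        nlinarith
      refine ⟨h₂.natAbs, h₁.natAbs, by omega, by omega, hna2, hna1, ?_⟩
      have e1 : ((h₂.natAbs : ℕ) : ℝ) = (h₂ : ℝ) := by
        rw [Nat.cast_natAbs, abs_of_pos h]
      have e2 : ((h₁.natAbs : ℕ) : ℝ) = -(h₁ : ℝ) := by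
        rw [Nat.cast_natAbs, abs_of_neg h1neg]
        push_cast
        ring
      rw [e1, e2]
      have e3 : (h₂ : ℝ) * n₂ - -(h₁ : ℝ) * n₁ = (h₁ : ℝ) * n₁ + h₂ * n₂ := by ring
      rw [e3]
      exact hlt
  obtain ⟨u, v, hu1, hv1, hur, hvr, huv⟩ := key
  obtain ⟨g, u', v', hg, hcop, hu', hv'⟩ := Nat.exists_coprime' (m := u) (n := v)
    (Nat.gcd_pos_of_pos_left v hu1)
  have hu'1 : 1 ≤ u' := by
    rcases Nat.eq_zero_or_pos u' with h | h
    · rw [h, zero_mul] at hu'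
      omega
    · exact h
  have hv'1 : 1 ≤ v' := by
    rcases Nat.eq_zero_or_pos v' with h | h
    · rw [h, zero_mul] at hv'
      omega
    · exact h
  have hgr : (1 : ℝ) ≤ g := by exact_mod_cast hg
  have h1 : |(u' : ℝ) * n₂ - v' * n₁| < T := by
    have e1 : (u : ℝ) * n₂ - v * n₁ = g * ((u' : ℝ) * n₂ - v' * n₁) := by
      rw [hu', hv']
      push_cast
      ring
    rw [e1, abs_mul, Nat.abs_cast] at huv
    have h2 : 0 ≤ |(u' : ℝ) * n₂ - v' * n₁| := abs_nonneg _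
    nlinarith
  have huv' : u' ≤ v' := by
    by_contra hcon
    push Not at hcon
    have h2 : (v' : ℝ) + 1 ≤ u' := by exact_mod_cast hcon
    have hv0 : (0 : ℝ) ≤ v' := by positivity
    rw [abs_lt] at h1
    nlinarith
  refine ⟨u', v', hu'1, huv', ?_, hcop, ?_⟩
  · calc v' ≤ v' * g := Nat.le_mul_of_pos_right _ hg
      _ = v := hv'.symm
      _ ≤ r := hvr
  · push_cast
    exact h1

/-- The class used for the resonance. -/
lemma exists_class (n v : ℕ) (hv : 1 ≤ v) : ∃ j₀, 1 ≤ j₀ ∧ j₀ ≤ v ∧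
    ∀ l, Nat.Coprime (n + j₀ + v * l) v := by
  have hmod := Nat.mod_lt n (by omega : 0 < v)
  have hdm := Nat.div_add_mod n v
  have key : ∃ j₀ w, 1 ≤ j₀ ∧ j₀ ≤ v ∧ n + j₀ = v * w + 1 := by
    rcases Nat.eq_zero_or_pos (n % v) with h | h
    · exact ⟨1, n / v, le_rfl, hv, by omega⟩
    · refine ⟨v + 1 - n % v, n / v + 1, by omega, by omega, ?_⟩
      have : v * (n / v + 1) = v * (n / v) + v := by ring
      omega
  obtain ⟨j₀, w, h1, h2, h3⟩ := key
  refine ⟨j₀, h1, h2, fun l => ?_⟩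
  rw [h3]
  have : v * w + 1 + v * l = 1 + v * (w + l) := by ring
  rw [this]
  simp

/-- No two blocks with equal support in the power range. -/
theorem no_equal_support (ε B : ℝ) (hε : 0 < ε) (hB : 0 ≤ B) :
    ∃ N₀ : ℕ, ∀ n₁ : ℕ, N₀ ≤ n₁ → ∀ k₁ k₂ n₂ : ℕ, k₂ ≤ k₁ → (n₁ : ℝ) ^ ε ≤ k₁ →
      (k₁ : ℝ) ≤ (n₁ : ℝ) ^ (1 - ε) → n₁ + k₁ ≤ n₂ → (n₂ : ℝ) ≤ (n₁ : ℝ) ^ B →
      (∏ i ∈ Icc 1 k₁, (n₁ + i)).primeFactors ≠ (∏ j ∈ Icc 1 k₂, (n₂ + j)).primeFactors := by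
  classical
  set r : ℕ := rr with hr
  have hr1 : 1 ≤ r := rr_pos
  have hrr : (1 : ℝ) ≤ r := by exact_mod_cast hr1
  set τ : ℝ := (B + 1) / ε + 1 with hτ
  have hBε : 0 < (B + 1) / ε := by positivity
  have hτ1 : 1 ≤ τ := by linarith
  set c : ℝ := min ε (ε ^ 2 / (24 * r ^ 2 * τ)) with hc
  have hc0 : 0 < c := by positivity
  have hcε : c ≤ ε := min_le_left _ _
  have hc2 : c ≤ ε ^ 2 / (24 * r ^ 2 * τ) := min_le_right _ _
  obtain ⟨X, hX⟩ := equi c ((B + 1) / ε) hc0 hBε.le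
  set δ : ℝ := ε / (4 * (1 + 2 * τ * r / ε)) with hδ
  have hδ0 : 0 < δ := by positivity
  obtain ⟨X', hX'⟩ := pi_small (3 * r) δ hδ0 (by omega)
  set M : ℕ := max (max X X') (max (max 4 ⌈8 * τ * r / ε⌉₊) ⌈Real.exp (1 / c)⌉₊) with hM
  refine ⟨max 2 ⌈(M : ℝ) ^ (1 / ε)⌉₊, ?_⟩
  intro n₁ hn₁ k₁ k₂ n₂ hk hkl hku hn hnB heq
  have hn2 : 2 ≤ n₁ := (le_max_left _ _).trans hn₁
  have hn1r : (2 : ℝ) ≤ n₁ := by exact_mod_cast hn2
  have hn10 : (0 : ℝ) < n₁ := by linarith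
  have hn11 : (1 : ℝ) ≤ n₁ := by linarith
  have hMn : (M : ℝ) ≤ (n₁ : ℝ) ^ ε := by
    have h1 : (M : ℝ) ^ (1 / ε) ≤ n₁ :=
      (Nat.le_ceil _).trans (by exact_mod_cast (le_max_right _ _).trans hn₁)
    have h2 : ((M : ℝ) ^ (1 / ε)) ^ ε ≤ (n₁ : ℝ) ^ ε := Real.rpow_le_rpow (by positivity) h1 hε.le
    rwa [← Real.rpow_mul (by positivity), one_div, inv_mul_cancel₀ hε.ne', Real.rpow_one] at h2
  have hMk : M ≤ k₁ := by exact_mod_cast hMn.trans hkl
  have hXk : X ≤ k₁ := (le_max_left _ _).trans ((le_max_left _ _).trans hMk)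
  have hXk' : X' ≤ k₁ := (le_max_right _ _).trans ((le_max_left _ _).trans hMk)
  have hM2 : max (max 4 ⌈8 * τ * r / ε⌉₊) ⌈Real.exp (1 / c)⌉₊ ≤ k₁ :=
    (le_max_right _ _).trans hMk
  have hk4 : 4 ≤ k₁ := (le_max_left _ _).trans ((le_max_left _ _).trans hM2)
  have hkτ : 8 * τ * r / ε ≤ k₁ := (Nat.le_ceil _).trans
    (by exact_mod_cast (le_max_right _ _).trans ((le_max_left _ _).trans hM2))
  have hkexp : Real.exp (1 / c) ≤ k₁ := (Nat.le_ceil _).trans
    (by exact_mod_cast (le_max_right _ _).trans hM2)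
  have hkr : (4 : ℝ) ≤ k₁ := by exact_mod_cast hk4
  have hk0 : (0 : ℝ) < k₁ := by linarith
  have hk1 : (1 : ℝ) ≤ k₁ := by linarith
  -- n₁ in terms of k₁
  have hnk : (n₁ : ℝ) ≤ (k₁ : ℝ) ^ (1 / ε) := by
    have h1 : ((n₁ : ℝ) ^ ε) ^ (1 / ε) ≤ (k₁ : ℝ) ^ (1 / ε) :=
      Real.rpow_le_rpow (by positivity) hkl (by positivity)
    rwa [← Real.rpow_mul hn10.le, mul_one_div_cancel hε.ne', Real.rpow_one] at h1
  have hnkB : (n₁ : ℝ) ≤ (k₁ : ℝ) ^ ((B + 1) / ε) := by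
    refine hnk.trans (Real.rpow_le_rpow_of_exponent_le hk1 ?_)
    gcongr
    linarith
  have hn2kB : (n₂ : ℝ) ≤ (k₁ : ℝ) ^ ((B + 1) / ε) := by
    calc (n₂ : ℝ) ≤ (n₁ : ℝ) ^ B := hnB
      _ ≤ ((k₁ : ℝ) ^ (1 / ε)) ^ B := Real.rpow_le_rpow hn10.le hnk hB
      _ = (k₁ : ℝ) ^ (1 / ε * B) := by rw [← Real.rpow_mul hk0.le]
      _ ≤ (k₁ : ℝ) ^ ((B + 1) / ε) := by
        apply Real.rpow_le_rpow_of_exponent_le hk1
        rw [one_div_mul_eq_div]
        gcongr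
        linarith
  have hkc : (k₁ : ℝ) ^ (1 + c) ≤ n₁ := by
    have hexp : (1 - ε) * (1 + c) ≤ 1 := by
      rcases le_or_gt 1 ε with h | h
      · nlinarith
      · nlinarith [mul_nonneg (sub_nonneg.mpr h.le) (sub_nonneg.mpr hcε)]
    calc (k₁ : ℝ) ^ (1 + c) ≤ ((n₁ : ℝ) ^ (1 - ε)) ^ (1 + c) :=
          Real.rpow_le_rpow hk0.le hku (by linarith)
      _ = (n₁ : ℝ) ^ ((1 - ε) * (1 + c)) := by rw [← Real.rpow_mul hn10.le]
      _ ≤ (n₁ : ℝ) ^ (1 : ℝ) := Real.rpow_le_rpow_of_exponent_le hn11 hexp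
      _ = n₁ := Real.rpow_one _
  -- the resonance
  have hres : ∃ h₁ h₂ : ℤ, |h₁| ≤ (r : ℤ) ∧ |h₂| ≤ (r : ℤ) ∧ (h₁ ≠ 0 ∨ h₂ ≠ 0) ∧
      |(h₁ : ℝ) * n₁ + h₂ * n₂| < (k₁ : ℝ) ^ (1 + c) := by
    by_contra hcon
    push Not at hcon
    obtain ⟨p, hp, hp1, hp2, hp3, hp4⟩ := hX k₁ hXk n₁ n₂ hnkB hn2kB
      (fun h₁ h₂ hb1 hb2 hne => hcon h₁ h₂ hb1 hb2 hne)
    exact sep_prime n₁ n₂ k₁ k₂ p hk hp hp1 hp2 hp3 hp4 heq
  obtain ⟨h₁, h₂, hb1, hb2, hne, hlt⟩ := hres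
  obtain ⟨u, v, hu1, huv, hvr, hcop, hE⟩ := resonance r n₁ n₂ _ hkc (by omega) h₁ h₂ hb1 hb2 hne hlt
  set E : ℤ := (u : ℤ) * n₂ - v * n₁ with hEdef
  obtain ⟨j₀, hj1, hj2, hjcop⟩ := exists_class n₂ v (by omega)
  set m : ℕ := k₂ / v with hm
  set a₀ : ℕ := n₂ + j₀ with ha₀
  set PS : Finset ℕ := (∏ l ∈ range m, (a₀ + v * l)).primeFactors with hPS
  set h : ℕ := r * k₁ with hh
  -- primes of the class
  have hmem : ∀ p ∈ PS, ∃ l, l < m ∧ p ∣ a₀ + v * l := by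
    intro p hp
    rw [hPS, Nat.mem_primeFactors] at hp
    obtain ⟨l, hl, hd⟩ := (Prime.dvd_finsetProd_iff hp.1.prime _).mp hp.2.1
    exact ⟨l, mem_range.mp hl, hd⟩
  have hblock := block_primes E h k₁ c hc0 (by omega)
    (by rw [hh]; nlinarith [Nat.le_mul_of_pos_left k₁ (by omega : 0 < r)]) (by
      push_cast
      push_cast at hE
      have e1 : (h : ℝ) = r * k₁ := by
        rw [hh]
        push_cast
        ring
      have e2 : (k₁ : ℝ) ^ (1 + c) = k₁ * (k₁ : ℝ) ^ c := by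
        rw [Real.rpow_add hk0, Real.rpow_one]
      have e3 : 1 ≤ (k₁ : ℝ) ^ c := Real.one_le_rpow hk1 hc0.le
      rw [e1]
      rw [e2] at hE
      have e4 : (k₁ : ℝ) * (k₁ : ℝ) ^ c ≤ r * k₁ * (k₁ : ℝ) ^ c := by
        have : (k₁ : ℝ) ≤ r * k₁ := by nlinarith
        gcongr
      have e5 : (r : ℝ) * k₁ ≤ r * k₁ * (k₁ : ℝ) ^ c :=
        le_mul_of_one_le_right (by positivity) e3
      nlinarith) (PS.filter (fun p => k₁ < p)) (by
      intro p hp
      rw [mem_filter] at hp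
      obtain ⟨hpPS, hpk⟩ := hp
      have hpp : p.Prime := by
        rw [hPS] at hpPS
        exact Nat.prime_of_mem_primeFactors hpPS
      refine ⟨hpp, ?_⟩
      obtain ⟨l, hl, hd⟩ := hmem p hpPS
      have hvl : v * l + v ≤ v * m := by
        calc v * l + v = v * (l + 1) := by ring
          _ ≤ v * m := Nat.mul_le_mul_left v (by omega)
      have hvm : v * m ≤ k₂ := by
        rw [hm]
        exact Nat.mul_div_le k₂ v
      set j : ℕ := j₀ + v * l with hj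
      have hjk : j ≤ k₂ := by omega
      have hjj : a₀ + v * l = n₂ + j := by omega
      have hpB : p ∈ (∏ j ∈ Icc 1 k₂, (n₂ + j)).primeFactors := by
        rw [mem_support_iff]
        exact ⟨hpp, j, by omega, hjk, by rw [← hjj]; exact hd⟩
      rw [← heq, mem_support_iff] at hpB
      obtain ⟨_, i, hi1, hi2, hdi⟩ := hpB
      refine ⟨(u : ℤ) * (n₂ + j) - v * (n₁ + i), ?_, ?_, ?_⟩
      · intro h0
        have h1 : u * (n₂ + j) = v * (n₁ + i) := by
          have : (u : ℤ) * (n₂ + j) = v * (n₁ + i) := by linarith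
          exact_mod_cast this
        have hcv : Nat.Coprime (n₂ + j) v := by
          rw [← hjj]
          exact hjcop l
        have hvd : v ∣ u * (n₂ + j) := ⟨n₁ + i, h1⟩
        have hvd2 : v ∣ u := by
          rw [mul_comm] at hvd
          exact (hcv.symm).dvd_of_dvd_mul_left hvd
        have hv1 : v = 1 := Nat.Coprime.eq_one_of_dvd hcop.symm hvd2
        have hu1' : u = 1 := by omega
        rw [hv1, hu1'] at h1
        omega
      · have e1 : (u : ℤ) * (n₂ + j) - v * (n₁ + i) - E = u * j - v * i := by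
          rw [hEdef]
          ring
        rw [e1, abs_le]
        have hujr : (u : ℤ) * j ≤ r * k₁ := by
          have : u * j ≤ r * k₁ := Nat.mul_le_mul (by omega) (by omega)
          exact_mod_cast this
        have hvir : (v : ℤ) * i ≤ r * k₁ := by
          have : v * i ≤ r * k₁ := Nat.mul_le_mul (by omega) (by omega)
          exact_mod_cast this
        have hu0 : (0 : ℤ) ≤ (u : ℤ) * j := by positivity
        have hv0 : (0 : ℤ) ≤ (v : ℤ) * i := by positivity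
        have hhz : (h : ℤ) = r * k₁ := by
          rw [hh]
          push_cast
          ring
        rw [hhz]
        constructor <;> linarith
      · have hd1 : (p : ℤ) ∣ ((n₂ + j : ℕ) : ℤ) := by
          rw [← hjj]
          exact_mod_cast hd
        have hd2 : (p : ℤ) ∣ ((n₁ + i : ℕ) : ℤ) := by exact_mod_cast hdi
        push_cast at hd1 hd2
        exact dvd_sub (Dvd.dvd.mul_left hd1 _) (Dvd.dvd.mul_left hd2 _))
    (by
      have : 1 / c ≤ Real.log k₁ := by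
        rw [Real.le_log_iff_exp_le hk0]
        exact hkexp
      rw [div_le_iff₀ hc0] at this
      linarith)
  -- abbreviations
  set Pc : ℝ := (Nat.primeCounting (3 * r * k₁) : ℝ) with hPc
  have hPcδ : Pc ≤ δ * k₁ := hX' k₁ hXk'
  have hPc0 : 0 ≤ Pc := by positivity
  have hπ1 : (Nat.primeCounting k₁ : ℝ) ≤ Pc := by
    rw [hPc]
    exact_mod_cast Nat.monotone_primeCounting (by nlinarith)
  have hπ2 : (Nat.primeCounting (2 * h + 1) : ℝ) ≤ Pc := by
    rw [hPc]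
    exact_mod_cast Nat.monotone_primeCounting (by rw [hh]; nlinarith)
  have hsmallcard : ∀ S : Finset ℕ, (∀ p ∈ S, p.Prime) →
      ((S.filter (fun p => ¬ k₁ < p)).card : ℝ) ≤ Pc := by
    intro S hS
    refine le_trans ?_ hπ1
    have hsub : S.filter (fun p => ¬ k₁ < p) ⊆ (range (k₁ + 1)).filter Nat.Prime := by
      intro p hp
      rw [mem_filter] at hp
      rw [mem_filter, mem_range]
      exact ⟨by omega, hS p hp.1⟩
    have h1 := card_le_card hsub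
    rw [Nat.primeCounting, Nat.primeCounting', Nat.count_eq_card_filter_range]
    exact_mod_cast h1
  -- count for the class in the second block
  have hmk : (m : ℝ) ≤ k₁ := by
    have : m ≤ k₁ := (Nat.div_le_self _ _).trans hk
    exact_mod_cast this
  have hcount2 : ε * m ≤ (PS.card : ℝ) := by
    apply erdos_count ε a₀ v m (by omega) (fun l _ => hjcop l)
    calc (m : ℝ) ≤ k₁ := hmk
      _ ≤ (n₁ : ℝ) ^ (1 - ε) := hku
      _ ≤ (a₀ : ℝ) ^ (1 - ε) := by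
        rcases le_or_gt 1 ε with h | h
        · exfalso
          have h5 : (n₁ : ℝ) ^ (1 - ε) ≤ 1 := Real.rpow_le_one_of_one_le_of_nonpos hn11 (by linarith)
          linarith
        · apply Real.rpow_le_rpow hn10.le _ (by linarith)
          exact_mod_cast (by omega : n₁ ≤ a₀)
  have hPScard : (PS.card : ℝ) ≤ 2 * Pc + 2 * c * (2 * h + 1) := by
    have h1 : PS.card = (PS.filter (fun p => k₁ < p)).card
        + (PS.filter (fun p => ¬ k₁ < p)).card := (card_filter_add_card_filter_not _).symm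
    have h2 := hsmallcard PS (fun p hp => by
      rw [hPS] at hp
      exact Nat.prime_of_mem_primeFactors hp)
    rw [h1]
    push_cast
    linarith
  -- count for the first block
  set PA : Finset ℕ := (∏ i ∈ Icc 1 k₁, (n₁ + i)).primeFactors with hPA
  have hcount1 : ε * k₁ ≤ (PA.card : ℝ) := by
    rw [hPA, prod_Icc_range]
    apply erdos_count ε (n₁ + 1) 1 k₁ (by omega) (fun l _ => Nat.coprime_one_right _)
    calc (k₁ : ℝ) ≤ (n₁ : ℝ) ^ (1 - ε) := hku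
      _ ≤ ((n₁ + 1 : ℕ) : ℝ) ^ (1 - ε) := by
        rcases le_or_gt 1 ε with h | h
        · exfalso
          have h5 : (n₁ : ℝ) ^ (1 - ε) ≤ 1 := Real.rpow_le_one_of_one_le_of_nonpos hn11 (by linarith)
          linarith
        · apply Real.rpow_le_rpow hn10.le _ (by linarith)
          push_cast
          linarith
  have hPAcard : (PA.card : ℝ) ≤ Pc + k₂ * τ := by
    have h1 : PA.card = (PA.filter (fun p => k₁ < p)).card
        + (PA.filter (fun p => ¬ k₁ < p)).card := (card_filter_add_card_filter_not _).symm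
    have h2 := hsmallcard PA (fun p hp => by
      rw [hPA] at hp
      exact Nat.prime_of_mem_primeFactors hp)
    have h3 : PA.filter (fun p => k₁ < p)
        ⊆ (Icc 1 k₂).biUnion (fun j => (n₂ + j).primeFactors.filter (fun p => k₁ < p)) := by
      intro p hp
      rw [mem_filter, heq, mem_support_iff] at hp
      obtain ⟨⟨hpp, j, hj1', hj2', hd⟩, hpk⟩ := hp
      rw [mem_biUnion]
      refine ⟨j, mem_Icc.mpr ⟨hj1', hj2'⟩, ?_⟩
      rw [mem_filter, Nat.mem_primeFactors]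
      exact ⟨⟨hpp, hd, by omega⟩, hpk⟩
    have h4 : ((PA.filter (fun p => k₁ < p)).card : ℝ) ≤ k₂ * τ := by
      calc ((PA.filter (fun p => k₁ < p)).card : ℝ)
          ≤ (((Icc 1 k₂).biUnion
            (fun j => (n₂ + j).primeFactors.filter (fun p => k₁ < p))).card : ℝ) := by
            exact_mod_cast card_le_card h3
        _ ≤ ∑ j ∈ Icc 1 k₂, (((n₂ + j).primeFactors.filter (fun p => k₁ < p)).card : ℝ) := by
            exact_mod_cast card_biUnion_le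
        _ ≤ ∑ j ∈ Icc 1 k₂, τ := by
            refine sum_le_sum fun j hj => ?_
            rw [mem_Icc] at hj
            apply large_primes_card (n₂ + j) k₁ (by omega) (by omega) τ
            have e1 : ((n₂ + j : ℕ) : ℝ) ≤ 2 * n₂ := by
              exact_mod_cast (by omega : n₂ + j ≤ 2 * n₂)
            calc ((n₂ + j : ℕ) : ℝ) ≤ 2 * n₂ := e1
              _ ≤ k₁ * (k₁ : ℝ) ^ ((B + 1) / ε) := by gcongr; linarith
              _ = (k₁ : ℝ) ^ τ := by
                rw [hτ, Real.rpow_add hk0, Real.rpow_one]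
                ring
        _ = k₂ * τ := by
            rw [sum_const, Nat.card_Icc, nsmul_eq_mul, Nat.add_sub_cancel]
    rw [h1]
    push_cast
    linarith
  -- the contradiction
  have hk2m : (k₂ : ℝ) ≤ r * (m + 1) := by
    have h1 : k₂ < v * (m + 1) := by
      rw [hm]
      have := Nat.lt_div_mul_add (a := k₂) (b := v) (by omega : 0 < v)
      calc k₂ < k₂ / v * v + v := this
        _ = v * (k₂ / v + 1) := by ring
    have h2 : v * (m + 1) ≤ r * (m + 1) := Nat.mul_le_mul_right _ hvr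
    exact_mod_cast (h1.trans_le h2).le
  have hLr : (2 * (h : ℝ) + 1) ≤ 3 * r * k₁ := by
    have e1 : (h : ℝ) = r * k₁ := by
      rw [hh]
      push_cast
      ring
    rw [e1]
    nlinarith
  have hmain1 : ε * m ≤ 2 * Pc + 2 * c * (3 * r * k₁) := by
    have : 2 * c * (2 * (h : ℝ) + 1) ≤ 2 * c * (3 * r * k₁) := by gcongr
    linarith
  have hmain2 : ε * k₁ ≤ Pc + r * (m + 1) * τ := by
    have : (k₂ : ℝ) * τ ≤ r * (m + 1) * τ := by gcongr
    linarith
  have hm3 : (m : ℝ) ≤ (2 * Pc + 2 * c * (3 * r * k₁)) / ε := by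
    rw [le_div_iff₀ hε]
    linarith
  have hA : (r : ℝ) * m * τ ≤ (2 * τ * r / ε) * Pc + ε * k₁ / 4 := by
    calc (r : ℝ) * m * τ ≤ r * ((2 * Pc + 2 * c * (3 * r * k₁)) / ε) * τ := by gcongr
      _ = (2 * τ * r / ε) * Pc + c * (24 * r ^ 2 * τ) * k₁ / (4 * ε) := by
          field_simp
          ring
      _ ≤ (2 * τ * r / ε) * Pc + ε ^ 2 * k₁ / (4 * ε) := by
          have h5 : c * (24 * r ^ 2 * τ) ≤ ε ^ 2 := by
            rw [le_div_iff₀ (by positivity)] at hc2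
            exact hc2
          gcongr
      _ = (2 * τ * r / ε) * Pc + ε * k₁ / 4 := by
          field_simp
  have hBd : (1 + 2 * τ * r / ε) * Pc ≤ ε * k₁ / 4 := by
    calc (1 + 2 * τ * r / ε) * Pc ≤ (1 + 2 * τ * r / ε) * (δ * k₁) := by gcongr
      _ = ε * k₁ / 4 := by
          rw [hδ]
          field_simp
  have hC : (r : ℝ) * τ ≤ ε * k₁ / 8 := by
    rw [div_le_iff₀ hε] at hkτ
    linarith
  have hfin : ε * k₁ ≤ ε * k₁ / 4 + ε * k₁ / 4 + ε * k₁ / 8 := by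
    calc ε * k₁ ≤ Pc + r * (m + 1) * τ := hmain2
      _ = Pc + r * m * τ + r * τ := by ring
      _ ≤ Pc + ((2 * τ * r / ε) * Pc + ε * k₁ / 4) + ε * k₁ / 8 := by gcongr
      _ = (1 + 2 * τ * r / ε) * Pc + ε * k₁ / 4 + ε * k₁ / 8 := by ring
      _ ≤ ε * k₁ / 4 + ε * k₁ / 4 + ε * k₁ / 8 := by linarith
  have hεk : 0 < ε * k₁ := by positivity
  linarith

end ESU
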