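import Mathlib

/-!
Vaughan's identity, summation over hyperbolic regions, divisor moments.
-/

open Finset ArithmeticFunction

namespace ESU

lemma conv_sum {M : Type*} [AddCommMonoid M] (Φ : ℕ → ℕ → M) (x y : ℕ) :
    ∑ n ∈ Ioc x y, ∑ p ∈ n.divisorsAntidiagonal, Φ p.1 p.2
      = ∑ d ∈ Icc 1 y, ∑ h ∈ Ioc (x / d) (y / d), Φ d h := by
  rw [Finset.sum_sigma', Finset.sum_sigma']
  refine Finset.sum_bij' (fun z _ => ⟨z.2.1, z.2.2⟩) (fun z _ => ⟨z.1 * z.2, (z.1, z.2)⟩)
    ?_ ?_ ?_ ?_ ?_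
  · rintro ⟨n, d, h⟩ hz
    simp only [mem_sigma, mem_Ioc, Nat.mem_divisorsAntidiagonal, mem_Icc] at hz ⊢
    obtain ⟨⟨h1, h2⟩, h3, h4⟩ := hz
    have hd : d ≠ 0 := by
      rintro rfl
      simp at h3
      omega
    have hh : h ≠ 0 := by
      rintro rfl
      simp at h3
      omega
    have hd' : 0 < d := Nat.pos_of_ne_zero hd
    refine ⟨⟨hd', ?_⟩, ?_, ?_⟩
    · calc d ≤ d * h := Nat.le_mul_of_pos_right _ (Nat.pos_of_ne_zero hh)
        _ ≤ y := by omega
    · rw [Nat.div_lt_iff_lt_mul hd', mul_comm]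
      omega
    · rw [Nat.le_div_iff_mul_le hd', mul_comm]
      omega
  · rintro ⟨d, h⟩ hz
    simp only [mem_sigma, mem_Ioc, Nat.mem_divisorsAntidiagonal, mem_Icc] at hz ⊢
    obtain ⟨⟨h1, h2⟩, h3, h4⟩ := hz
    have hd' : 0 < d := h1
    rw [Nat.div_lt_iff_lt_mul hd', mul_comm] at h3
    rw [Nat.le_div_iff_mul_le hd', mul_comm] at h4
    refine ⟨⟨h3, h4⟩, trivial, ?_⟩
    omega
  · rintro ⟨n, d, h⟩ hz
    simp only [mem_sigma, mem_Ioc, Nat.mem_divisorsAntidiagonal] at hz
    obtain ⟨_, h3, _⟩ := hz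
    subst h3
    rfl
  · rintro ⟨d, h⟩ hz
    rfl
  · rintro ⟨n, d, h⟩ hz
    rfl

/-- Sum of a Dirichlet convolution against a weight. -/
lemma conv_weight (f g : ArithmeticFunction ℝ) (w : ℕ → ℂ) (x y : ℕ) :
    ∑ n ∈ Ioc x y, (((f * g) n : ℝ) : ℂ) * w n
      = ∑ d ∈ Icc 1 y, ((f d : ℝ) : ℂ) * ∑ h ∈ Ioc (x / d) (y / d), ((g h : ℝ) : ℂ) * w (d * h) := by
  have h1 := conv_sum (fun d h => ((f d : ℝ) : ℂ) * (((g h : ℝ) : ℂ) * w (d * h))) x y
  have h2 : ∑ d ∈ Icc 1 y, ((f d : ℝ) : ℂ) * ∑ h ∈ Ioc (x / d) (y / d), ((g h : ℝ) : ℂ) * w (d * h)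
      = ∑ d ∈ Icc 1 y, ∑ h ∈ Ioc (x / d) (y / d),
        ((f d : ℝ) : ℂ) * (((g h : ℝ) : ℂ) * w (d * h)) := by
    refine sum_congr rfl fun d _ => ?_
    rw [mul_sum]
  rw [h2, ← h1]
  refine sum_congr rfl fun n hn => ?_
  rw [ArithmeticFunction.mul_apply]
  push_cast
  rw [sum_mul]
  refine sum_congr rfl fun p hp => ?_
  rw [Nat.mem_divisorsAntidiagonal] at hp
  rw [← hp.1]
  ring

/-- Truncation of an arithmetic function to `n ≤ U`. -/
noncomputable def trunc (f : ArithmeticFunction ℝ) (U : ℕ) : ArithmeticFunction ℝ :=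
  ⟨fun n => if n ≤ U then f n else 0, by simp⟩

lemma trunc_apply (f : ArithmeticFunction ℝ) (U n : ℕ) :
    trunc f U n = if n ≤ U then f n else 0 := rfl

/-- `μ` as a real arithmetic function. -/
noncomputable def muR : ArithmeticFunction ℝ := (ArithmeticFunction.moebius : ArithmeticFunction ℝ)

lemma muR_apply (n : ℕ) : muR n = ((ArithmeticFunction.moebius n : ℤ) : ℝ) := rfl

lemma abs_muR_le (n : ℕ) : |muR n| ≤ 1 := by
  rw [muR_apply, ← Int.cast_abs]
  exact_mod_cast ArithmeticFunction.abs_moebius_le_one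

/-- `ζ` as a real arithmetic function. -/
noncomputable def zeR : ArithmeticFunction ℝ := ((ArithmeticFunction.zeta : ArithmeticFunction ℕ) :
  ArithmeticFunction ℝ)

lemma zeR_mul_muR : zeR * muR = 1 := ArithmeticFunction.coe_zeta_mul_coe_moebius

/-- The bilinear coefficient. -/
noncomputable def bb (V : ℕ) : ArithmeticFunction ℝ := 1 - zeR * trunc muR V

/-- Vaughan's identity. -/
theorem vaughan (U V : ℕ) : ArithmeticFunction.vonMangoldt
    = trunc ArithmeticFunction.vonMangoldt U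
      + trunc muR V * ArithmeticFunction.log
      - (trunc ArithmeticFunction.vonMangoldt U * trunc muR V) * zeR
      + bb V * (ArithmeticFunction.vonMangoldt - trunc ArithmeticFunction.vonMangoldt U) := by
  have h : ArithmeticFunction.vonMangoldt * zeR = ArithmeticFunction.log :=
    ArithmeticFunction.vonMangoldt_mul_zeta
  unfold bb
  rw [← h]
  ring

lemma zeR_mul_apply (f : ArithmeticFunction ℝ) (n : ℕ) :
    (zeR * f) n = ∑ i ∈ n.divisors, f i := ArithmeticFunction.coe_zeta_mul_apply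

lemma sub_apply' (f g : ArithmeticFunction ℝ) (n : ℕ) : (f - g) n = f n - g n := by
  rw [sub_eq_add_neg, ArithmeticFunction.add_apply, ArithmeticFunction.neg_apply]
  ring

lemma bb_small (V k : ℕ) (hk : k ≤ V) : bb V k = 0 := by
  unfold bb
  rw [sub_apply', zeR_mul_apply]
  have h1 : ∑ i ∈ k.divisors, trunc muR V i = ∑ i ∈ k.divisors, muR i := by
    refine sum_congr rfl fun i hi => ?_
    rw [trunc_apply, if_pos]
    exact (Nat.divisor_le hi).trans hk
  rw [h1, ← zeR_mul_apply, zeR_mul_muR]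
  ring

lemma abs_bb_le (V k : ℕ) (hV : 1 ≤ V) : |bb V k| ≤ (k.divisors.card : ℝ) := by
  rcases Nat.eq_zero_or_pos k with rfl | hk
  · simp
  rcases Nat.lt_or_ge 1 k with h1 | h1
  · unfold bb
    rw [sub_apply', zeR_mul_apply, ArithmeticFunction.one_apply_ne (by omega), zero_sub, abs_neg]
    refine (abs_sum_le_sum_abs _ _).trans ?_
    calc ∑ i ∈ k.divisors, |trunc muR V i| ≤ ∑ i ∈ k.divisors, (1 : ℝ) := by
          refine sum_le_sum fun i _ => ?_
          rw [trunc_apply]
          split_ifs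
          · exact abs_muR_le i
          · simp
      _ = (k.divisors.card : ℝ) := by simp
  · have : k = 1 := by omega
    subst this
    rw [bb_small V 1 hV]
    simp

/-- The Type I coefficient. -/
lemma abs_typeI_coeff (U V q : ℕ) :
    |(trunc ArithmeticFunction.vonMangoldt U * trunc muR V) q| ≤ Real.log q := by
  rw [ArithmeticFunction.mul_apply]
  refine (abs_sum_le_sum_abs _ _).trans ?_
  calc ∑ p ∈ q.divisorsAntidiagonal, |trunc ArithmeticFunction.vonMangoldt U p.1 * trunc muR V p.2|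
      ≤ ∑ p ∈ q.divisorsAntidiagonal, ArithmeticFunction.vonMangoldt p.1 := by
        refine sum_le_sum fun p _ => ?_
        rw [abs_mul]
        have h1 : |trunc ArithmeticFunction.vonMangoldt U p.1| ≤ ArithmeticFunction.vonMangoldt p.1 := by
          rw [trunc_apply]
          split_ifs
          · rw [abs_of_nonneg ArithmeticFunction.vonMangoldt_nonneg]
          · rw [abs_zero]
            exact ArithmeticFunction.vonMangoldt_nonneg
        have h2 : |trunc muR V p.2| ≤ 1 := by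
          rw [trunc_apply]
          split_ifs
          · exact abs_muR_le _
          · simp
        calc |trunc ArithmeticFunction.vonMangoldt U p.1| * |trunc muR V p.2|
            ≤ ArithmeticFunction.vonMangoldt p.1 * 1 := by gcongr
          _ = _ := mul_one _
    _ = ∑ d ∈ q.divisors, ArithmeticFunction.vonMangoldt d := by
        exact Nat.sum_divisorsAntidiagonal (fun d _ => ArithmeticFunction.vonMangoldt d)
    _ = Real.log q := ArithmeticFunction.vonMangoldt_sum

lemma typeI_coeff_zero (U V q : ℕ) (hq : U * V < q) :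
    (trunc ArithmeticFunction.vonMangoldt U * trunc muR V) q = 0 := by
  rw [ArithmeticFunction.mul_apply]
  refine sum_eq_zero fun p hp => ?_
  rw [Nat.mem_divisorsAntidiagonal] at hp
  rw [trunc_apply, trunc_apply]
  split_ifs with h1 h2
  · exfalso
    have : p.1 * p.2 ≤ U * V := Nat.mul_le_mul h1 h2
    omega
  · simp
  · simp
  · simp

lemma inv_sum_le (n : ℕ) : ∑ i ∈ Icc 1 n, (1 : ℝ) / i ≤ 1 + Real.log n := by
  have h := harmonic_le_one_add_log n
  rw [harmonic_eq_sum_Icc] at h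
  push_cast at h
  simpa [one_div] using h

lemma sum_tau_le (n : ℕ) : ∑ j ∈ Ioc 0 n, (j.divisors.card : ℝ) ≤ n * (1 + Real.log n) := by
  have h1 : ∑ j ∈ Ioc 0 n, (j.divisors.card : ℝ)
      = ∑ j ∈ Ioc 0 n, ∑ p ∈ j.divisorsAntidiagonal, (fun _ _ => (1 : ℝ)) p.1 p.2 := by
    refine sum_congr rfl fun j _ => ?_
    simp [← Nat.map_div_right_divisors]
  rw [h1, conv_sum (fun _ _ => (1 : ℝ)) 0 n]
  calc ∑ d ∈ Icc 1 n, ∑ h ∈ Ioc (0 / d) (n / d), (1 : ℝ)
      ≤ ∑ d ∈ Icc 1 n, (n : ℝ) * (1 / d) := by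
        refine sum_le_sum fun d _ => ?_
        simp only [sum_const, Nat.card_Ioc, nsmul_eq_mul, mul_one, Nat.zero_div, Nat.sub_zero]
        rw [mul_one_div]
        exact Nat.cast_div_le
    _ = n * ∑ d ∈ Icc 1 n, (1 : ℝ) / d := by rw [mul_sum]
    _ ≤ n * (1 + Real.log n) := by
        gcongr
        exact inv_sum_le n

lemma tau_mul_le (a b : ℕ) : (a * b).divisors.card ≤ a.divisors.card * b.divisors.card := by
  rw [Nat.divisors_mul]
  exact Finset.card_mul_le

lemma sum_tau_div_le (n : ℕ) :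
    ∑ d ∈ Icc 1 n, (d.divisors.card : ℝ) / d ≤ (1 + Real.log n) ^ 2 := by
  have h1 : ∑ d ∈ Icc 1 n, (d.divisors.card : ℝ) / d
      = ∑ j ∈ Ioc 0 n, ∑ p ∈ j.divisorsAntidiagonal, (fun a b : ℕ => (1 : ℝ) / a * (1 / b)) p.1 p.2 := by
    have e0 : Icc 1 n = Ioc 0 n := by
      ext i
      simp only [mem_Icc, mem_Ioc]
      omega
    rw [e0]
    refine sum_congr rfl fun j hj => ?_
    have e1 : ∀ p ∈ j.divisorsAntidiagonal,
        (fun a b : ℕ => (1 : ℝ) / a * (1 / b)) p.1 p.2 = 1 / j := by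
      intro p hp
      rw [Nat.mem_divisorsAntidiagonal] at hp
      rw [← hp.1]
      push_cast
      simp only [one_div, mul_inv]
    rw [sum_congr rfl e1, sum_const, nsmul_eq_mul]
    have e2 : j.divisorsAntidiagonal.card = j.divisors.card := by
      simp [← Nat.map_div_right_divisors]
    rw [e2]
    ring
  rw [h1, conv_sum (fun a b : ℕ => (1 : ℝ) / a * (1 / b)) 0 n]
  have hn : 0 ≤ 1 + Real.log n := by
    have := inv_sum_le n
    have h0 : 0 ≤ ∑ i ∈ Icc 1 n, (1 : ℝ) / i := sum_nonneg fun i _ => by positivity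
    linarith
  calc ∑ d ∈ Icc 1 n, ∑ h ∈ Ioc (0 / d) (n / d), (1 : ℝ) / d * (1 / h)
      ≤ ∑ d ∈ Icc 1 n, (1 : ℝ) / d * (1 + Real.log n) := by
        refine sum_le_sum fun d hd => ?_
        rw [← mul_sum, Nat.zero_div]
        gcongr
        calc ∑ i ∈ Ioc 0 (n / d), (1 : ℝ) / i ≤ ∑ i ∈ Icc 1 n, (1 : ℝ) / i := by
              refine sum_le_sum_of_subset_of_nonneg ?_ fun i _ _ => by positivity
              intro i hi
              rw [mem_Ioc] at hi
              rw [mem_Icc]
              exact ⟨hi.1, hi.2.trans (Nat.div_le_self _ _)⟩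
          _ ≤ 1 + Real.log n := inv_sum_le n
    _ = (∑ d ∈ Icc 1 n, (1 : ℝ) / d) * (1 + Real.log n) := by rw [sum_mul]
    _ ≤ (1 + Real.log n) * (1 + Real.log n) := by
        gcongr
        exact inv_sum_le n
    _ = (1 + Real.log n) ^ 2 := by ring

lemma sum_tau_sq_le (n : ℕ) :
    ∑ k ∈ Ioc 0 n, (k.divisors.card : ℝ) ^ 2 ≤ n * (1 + Real.log n) ^ 3 := by
  have hn : 0 ≤ 1 + Real.log n := by
    have := inv_sum_le n
    have h0 : 0 ≤ ∑ i ∈ Icc 1 n, (1 : ℝ) / i := sum_nonneg fun i _ => by positivity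
    linarith
  have h1 : ∑ k ∈ Ioc 0 n, (k.divisors.card : ℝ) ^ 2
      = ∑ j ∈ Ioc 0 n, ∑ p ∈ j.divisorsAntidiagonal,
        (fun a b : ℕ => ((a * b).divisors.card : ℝ)) p.1 p.2 := by
    refine sum_congr rfl fun j hj => ?_
    have e1 : ∀ p ∈ j.divisorsAntidiagonal,
        (fun a b : ℕ => ((a * b).divisors.card : ℝ)) p.1 p.2 = (j.divisors.card : ℝ) := by
      intro p hp
      rw [Nat.mem_divisorsAntidiagonal] at hp
      simp only [hp.1]
    rw [sum_congr rfl e1, sum_const, nsmul_eq_mul]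
    have e2 : j.divisorsAntidiagonal.card = j.divisors.card := by
      simp [← Nat.map_div_right_divisors]
    rw [e2]
    ring
  rw [h1, conv_sum (fun a b : ℕ => ((a * b).divisors.card : ℝ)) 0 n]
  calc ∑ d ∈ Icc 1 n, ∑ h ∈ Ioc (0 / d) (n / d), ((d * h).divisors.card : ℝ)
      ≤ ∑ d ∈ Icc 1 n, (d.divisors.card : ℝ) * ((n : ℝ) / d * (1 + Real.log n)) := by
        refine sum_le_sum fun d hd => ?_
        rw [mem_Icc] at hd
        rw [Nat.zero_div]
        calc ∑ h ∈ Ioc 0 (n / d), ((d * h).divisors.card : ℝ)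
            ≤ ∑ h ∈ Ioc 0 (n / d), (d.divisors.card : ℝ) * (h.divisors.card : ℝ) := by
              refine sum_le_sum fun h _ => ?_
              exact_mod_cast tau_mul_le d h
          _ = (d.divisors.card : ℝ) * ∑ h ∈ Ioc 0 (n / d), (h.divisors.card : ℝ) := by
              rw [mul_sum]
          _ ≤ (d.divisors.card : ℝ) * (((n / d : ℕ) : ℝ) * (1 + Real.log ((n / d : ℕ) : ℝ))) := by
              gcongr
              exact sum_tau_le _
          _ ≤ (d.divisors.card : ℝ) * ((n : ℝ) / d * (1 + Real.log n)) := by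
              rcases Nat.eq_zero_or_pos (n / d) with h0 | h0
              · rw [h0]
                simp only [Nat.cast_zero, zero_mul, mul_zero]
                positivity
              · have h3 : Real.log ((n / d : ℕ) : ℝ) ≤ Real.log n := by
                  apply Real.log_le_log (by exact_mod_cast h0)
                  exact_mod_cast Nat.div_le_self n d
                have h4 : ((n / d : ℕ) : ℝ) ≤ (n : ℝ) / d := Nat.cast_div_le
                gcongr
    _ = n * (1 + Real.log n) * ∑ d ∈ Icc 1 n, (d.divisors.card : ℝ) / d := by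
        rw [mul_sum]
        refine sum_congr rfl fun d _ => ?_
        ring
    _ ≤ n * (1 + Real.log n) * (1 + Real.log n) ^ 2 := by
        gcongr
        exact sum_tau_div_le n
    _ = n * (1 + Real.log n) ^ 3 := by ring

end ESU
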