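import Pool.Agent.Helper48.ESU.Wi
import Pool.Agent.Helper48.ESU.Vi

/-!
Type I sums.
-/

open Finset ArithmeticFunction

namespace ESU

/-- The hypothesis supplied by `weyl_inv`. -/
def WeylHyp (σ K c C : ℝ) : Prop :=
  ∀ (G : ℝ) (Y a b : ℕ), 1 ≤ Y → Y ≤ a → b ≤ 8 * Y → (Y : ℝ) ^ (1 + c) ≤ |G| →
    |G| ≤ (Y : ℝ) ^ C → ‖∑ d ∈ Ico a b, ee (G / (d : ℝ))‖ ≤ K * (Y : ℝ) ^ (1 - σ)

lemma exists_cuberoot (x : ℕ) (hx : 1 ≤ x) : ∃ U : ℕ, 1 ≤ U ∧ U ^ 3 ≤ x ∧ x < (U + 1) ^ 3 := by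
  classical
  have hex : ∃ m : ℕ, x < (m + 1) ^ 3 := ⟨x, by nlinarith [Nat.one_le_pow 2 (x + 1) (by omega)]⟩
  refine ⟨Nat.find hex, ?_, ?_, Nat.find_spec hex⟩
  · by_contra hcon
    have h0 : Nat.find hex = 0 := by omega
    have := Nat.find_spec hex
    rw [h0] at this
    norm_num at this
    omega
  · by_contra hcon
    push Not at hcon
    have hpos : 1 ≤ Nat.find hex := by
      by_contra hcon2
      have h0 : Nat.find hex = 0 := by omega
      have := Nat.find_spec hex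
      rw [h0] at this
      norm_num at this
      omega
    have := Nat.find_min hex (m := Nat.find hex - 1) (by omega)
    apply this
    have h1 : Nat.find hex - 1 + 1 = Nat.find hex := by omega
    rw [h1]
    exact hcon

/-- Summation with a monotone weight. -/
lemma mono_weight (φ : ℕ → ℝ) (hφ : Monotone φ) (hφ0 : 0 ≤ φ 0) (w : ℕ → ℂ) (B : ℕ) (S : ℝ)
    (hS : 0 ≤ S) (A : ℕ) (hA : ∀ a, A ≤ a → ‖∑ h ∈ Ioc a B, w h‖ ≤ S) :
    ‖∑ h ∈ Ioc A B, ((φ h : ℝ) : ℂ) * w h‖ ≤ φ B * S := by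
  have hφn : ∀ n, 0 ≤ φ n := fun n => hφ0.trans (hφ (Nat.zero_le n))
  rcases Nat.lt_or_ge B A with hlt | hge
  · rw [Finset.Ioc_eq_empty (by omega), sum_empty, norm_zero]
    exact mul_nonneg (hφn B) hS
  have key : ∀ n a, a + n = B → A ≤ a →
      ‖∑ h ∈ Ioc a B, ((φ h : ℝ) : ℂ) * w h - (φ a : ℂ) * ∑ h ∈ Ioc a B, w h‖
        ≤ (φ B - φ a) * S := by
    intro n
    induction n with
    | zero =>
      intro a ha _
      have : a = B := by omega
      subst this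
      simp
    | succ n ih =>
      intro a ha haA
      have h1 := ih (a + 1) (by omega) (by omega)
      have hdec : ∀ g : ℕ → ℂ, ∑ h ∈ Ioc a B, g h = g (a + 1) + ∑ h ∈ Ioc (a + 1) B, g h := by
        intro g
        rw [← Finset.sum_Ioc_consecutive g (Nat.le_succ a) (by omega : a + 1 ≤ B)]
        simp
      have e1 : ∑ h ∈ Ioc a B, ((φ h : ℝ) : ℂ) * w h - (φ a : ℂ) * ∑ h ∈ Ioc a B, w h
          = (∑ h ∈ Ioc (a + 1) B, ((φ h : ℝ) : ℂ) * w h
              - (φ (a + 1) : ℂ) * ∑ h ∈ Ioc (a + 1) B, w h)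
            + ((φ (a + 1) - φ a : ℝ) : ℂ) * ∑ h ∈ Ioc a B, w h := by
        rw [hdec (fun h => ((φ h : ℝ) : ℂ) * w h), hdec w]
        push_cast
        ring
      rw [e1]
      have h2 : ‖((φ (a + 1) - φ a : ℝ) : ℂ) * ∑ h ∈ Ioc a B, w h‖ ≤ (φ (a + 1) - φ a) * S := by
        have hm : 0 ≤ φ (a + 1) - φ a := sub_nonneg.mpr (hφ (Nat.le_succ a))
        rw [norm_mul, Complex.norm_real, Real.norm_eq_abs, abs_of_nonneg hm]
        exact mul_le_mul_of_nonneg_left (hA a haA) hm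
      refine (norm_add_le _ _).trans ?_
      linarith
  have h1 := key (B - A) A (by omega) le_rfl
  have h2 : ‖(φ A : ℂ) * ∑ h ∈ Ioc A B, w h‖ ≤ φ A * S := by
    rw [norm_mul, Complex.norm_real, Real.norm_eq_abs, abs_of_nonneg (hφn A)]
    exact mul_le_mul_of_nonneg_left (hA A le_rfl) (hφn A)
  have h3 : ∑ h ∈ Ioc A B, ((φ h : ℝ) : ℂ) * w h
      = (∑ h ∈ Ioc A B, ((φ h : ℝ) : ℂ) * w h - (φ A : ℂ) * ∑ h ∈ Ioc A B, w h)
        + (φ A : ℂ) * ∑ h ∈ Ioc A B, w h := by ring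
  rw [h3]
  refine (norm_add_le _ _).trans ?_
  linarith

lemma log_mono_nat : Monotone (fun n : ℕ => Real.log n) := by
  intro a b hab
  simp only
  rcases Nat.eq_zero_or_pos a with rfl | ha
  · simp only [Nat.cast_zero, Real.log_zero]
    exact Real.log_natCast_nonneg b
  · exact Real.log_le_log (by exact_mod_cast ha) (by exact_mod_cast hab)

/-- Inner Type I sum: bound with the factor `1/q`. -/
lemma typeI_inner {σ K c C : ℝ} (hσ : 0 < σ) (hσ1 : σ ≤ 1) (hK : 1 ≤ K) (hc : 0 < c)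
    (hW : WeylHyp σ K c (6 * max C 1)) {F : ℝ} {x y U q a b : ℕ} (hxy : y ≤ 2 * x)
    (hU2 : 2 ≤ U) (hU : U ^ 3 ≤ x) (hU' : x < (U + 1) ^ 3) (hF1 : (x : ℝ) ^ (1 + c) ≤ |F|)
    (hF2 : |F| ≤ (x : ℝ) ^ C) (hq1 : 1 ≤ q) (hq : q ≤ U ^ 2) (ha : x / q < a)
    (hb : b ≤ y / q + 1) :
    ‖∑ h ∈ Ico a b, ee (F / ((q * h : ℕ) : ℝ))‖ ≤ K * (x : ℝ) ^ (1 - σ / 3) / q := by
  have hx1 : 1 ≤ x := by
    have : 1 ≤ U ^ 3 := Nat.one_le_pow _ _ (by omega)
    omega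
  have hxr : (1 : ℝ) ≤ x := by exact_mod_cast hx1
  have hx0 : (0 : ℝ) < x := by linarith
  have hq0 : (0 : ℝ) < q := by exact_mod_cast hq1
  have hqr : (1 : ℝ) ≤ q := by exact_mod_cast hq1
  set Y : ℕ := x / q with hY
  have hUY : U ≤ Y := by
    rw [hY, Nat.le_div_iff_mul_le (by omega)]
    calc U * q ≤ U * U ^ 2 := Nat.mul_le_mul_left _ hq
      _ = U ^ 3 := by ring
      _ ≤ x := hU
  have hY2 : 2 ≤ Y := hU2.trans hUY
  have hYr : (2 : ℝ) ≤ Y := by exact_mod_cast hY2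
  have hY0 : (0 : ℝ) < Y := by linarith
  have hYx : (Y : ℝ) ≤ x / q := Nat.cast_div_le
  have hyq : y / q + 1 ≤ 8 * Y := by
    have h1 : x < (Y + 1) * q := by
      have := Nat.lt_div_mul_add (a := x) (b := q) (by omega : 0 < q)
      rw [← hY] at this
      calc x < Y * q + q := this
        _ = (Y + 1) * q := by ring
    have h2 : y / q < 2 * (Y + 1) := by
      rw [Nat.div_lt_iff_lt_mul (by omega)]
      calc y ≤ 2 * x := hxy
        _ < 2 * ((Y + 1) * q) := by omega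
        _ = 2 * (Y + 1) * q := by ring
    omega
  have hxY : (x : ℝ) ≤ (Y : ℝ) ^ (6 : ℝ) := by
    have h1 : x ≤ Y ^ 6 := by
      calc x ≤ (U + 1) ^ 3 := hU'.le
        _ ≤ (Y + 1) ^ 3 := Nat.pow_le_pow_left (by omega) 3
        _ ≤ (Y ^ 2) ^ 3 := Nat.pow_le_pow_left (by nlinarith) 3
        _ = Y ^ 6 := by ring
    have h2 : (x : ℝ) ≤ (Y : ℝ) ^ (6 : ℕ) := by exact_mod_cast h1
    rw [show (6 : ℝ) = ((6 : ℕ) : ℝ) by norm_num, Real.rpow_natCast]
    exact h2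
  have hG1 : (Y : ℝ) ^ (1 + c) ≤ |F / q| := by
    rw [abs_div, abs_of_pos hq0, le_div_iff₀ hq0]
    refine le_trans ?_ hF1
    calc (Y : ℝ) ^ (1 + c) * q ≤ ((x : ℝ) / q) ^ (1 + c) * q := by
          gcongr
      _ = (x : ℝ) ^ (1 + c) * (q / (q : ℝ) ^ (1 + c)) := by
          rw [Real.div_rpow hx0.le hq0.le]
          ring
      _ ≤ (x : ℝ) ^ (1 + c) * 1 := by
          gcongr
          rw [div_le_one (by positivity)]
          nth_rw 1 [← Real.rpow_one (q : ℝ)]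
          exact Real.rpow_le_rpow_of_exponent_le hqr (by linarith)
      _ = (x : ℝ) ^ (1 + c) := mul_one _
  have hG2 : |F / q| ≤ (Y : ℝ) ^ (6 * max C 1) := by
    have hC1 : (1 : ℝ) ≤ max C 1 := le_max_right _ _
    rw [abs_div, abs_of_pos hq0, div_le_iff₀ hq0]
    calc |F| ≤ (x : ℝ) ^ C := hF2
      _ ≤ (x : ℝ) ^ (max C 1) := Real.rpow_le_rpow_of_exponent_le hxr (le_max_left _ _)
      _ ≤ ((Y : ℝ) ^ (6 : ℝ)) ^ (max C 1) := Real.rpow_le_rpow hx0.le hxY (by linarith)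
      _ = (Y : ℝ) ^ (6 * max C 1) := by rw [← Real.rpow_mul hY0.le]
      _ ≤ (Y : ℝ) ^ (6 * max C 1) * q := by
          apply le_mul_of_one_le_right (by positivity) hqr
  have hmain := hW (F / q) Y a b (by omega) (by omega) (hb.trans hyq) hG1 hG2
  have e1 : ∑ h ∈ Ico a b, ee (F / ((q * h : ℕ) : ℝ)) = ∑ d ∈ Ico a b, ee (F / q / (d : ℝ)) := by
    refine sum_congr rfl fun h _ => ?_
    push_cast
    rw [div_div]
  rw [e1]
  refine hmain.trans ?_
  rw [mul_div_assoc]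
  refine mul_le_mul_of_nonneg_left ?_ (by linarith)
  have hqx : (q : ℝ) ≤ (x : ℝ) ^ ((2 : ℝ) / 3) := by
    have h1 : q ^ 3 ≤ x ^ 2 := by
      calc q ^ 3 ≤ (U ^ 2) ^ 3 := Nat.pow_le_pow_left hq 3
        _ = (U ^ 3) ^ 2 := by ring
        _ ≤ x ^ 2 := Nat.pow_le_pow_left hU 2
    have h2 : (q : ℝ) ^ (3 : ℕ) ≤ (x : ℝ) ^ (2 : ℕ) := by exact_mod_cast h1
    have h3 : ((q : ℝ) ^ (3 : ℕ)) ^ ((1 : ℝ) / 3) ≤ ((x : ℝ) ^ (2 : ℕ)) ^ ((1 : ℝ) / 3) :=
      Real.rpow_le_rpow (by positivity) h2 (by norm_num)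
    rw [← Real.rpow_natCast, ← Real.rpow_natCast, ← Real.rpow_mul hq0.le,
      ← Real.rpow_mul hx0.le] at h3
    norm_num at h3
    exact h3
  calc (Y : ℝ) ^ (1 - σ) ≤ ((x : ℝ) / q) ^ (1 - σ) :=
        Real.rpow_le_rpow hY0.le hYx (by linarith)
    _ = (x : ℝ) ^ (1 - σ) * (q : ℝ) ^ σ / q := by
        rw [Real.div_rpow hx0.le hq0.le, Real.rpow_sub hq0, Real.rpow_one]
        field_simp
    _ ≤ (x : ℝ) ^ (1 - σ) * ((x : ℝ) ^ ((2 : ℝ) / 3)) ^ σ / q := by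
        gcongr
    _ = (x : ℝ) ^ (1 - σ / 3) / q := by
        rw [← Real.rpow_mul hx0.le, ← Real.rpow_add hx0]
        congr 2
        ring

/-- Abstract Type I summation. -/
lemma typeI_outer (f g : ArithmeticFunction ℝ) (w : ℕ → ℂ) (x y Q : ℕ) (ℓ B : ℝ) (hℓ : 0 ≤ ℓ)
    (hB : 0 ≤ B) (hf : ∀ q, 1 ≤ q → q ≤ Q → |f q| ≤ ℓ) (hf0 : ∀ q, Q < q → f q = 0)
    (hin : ∀ q, 1 ≤ q → q ≤ Q → ‖∑ h ∈ Ioc (x / q) (y / q), ((g h : ℝ) : ℂ) * w (q * h)‖ ≤ B / q)
    (hlog : 1 + Real.log y ≤ ℓ) :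
    ‖∑ n ∈ Ioc x y, (((f * g) n : ℝ) : ℂ) * w n‖ ≤ ℓ ^ 2 * B := by
  rw [conv_weight]
  refine (norm_sum_le _ _).trans ?_
  calc ∑ q ∈ Icc 1 y, ‖((f q : ℝ) : ℂ) * ∑ h ∈ Ioc (x / q) (y / q), ((g h : ℝ) : ℂ) * w (q * h)‖
      ≤ ∑ q ∈ Icc 1 y, ℓ * B * (1 / q) := by
        refine sum_le_sum fun q hq => ?_
        rw [mem_Icc] at hq
        rcases Nat.lt_or_ge Q q with h | h
        · rw [hf0 q h]
          simp only [Complex.ofReal_zero, zero_mul, norm_zero]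
          positivity
        · rw [norm_mul, Complex.norm_real, Real.norm_eq_abs]
          calc |f q| * ‖∑ h ∈ Ioc (x / q) (y / q), ((g h : ℝ) : ℂ) * w (q * h)‖
              ≤ ℓ * (B / q) := mul_le_mul (hf q hq.1 h) (hin q hq.1 h) (norm_nonneg _) hℓ
            _ = ℓ * B * (1 / q) := by ring
    _ = ℓ * B * ∑ q ∈ Icc 1 y, (1 : ℝ) / q := by rw [mul_sum]
    _ ≤ ℓ * B * ℓ := by
        gcongr
        exact (inv_sum_le y).trans hlog
    _ = ℓ ^ 2 * B := by ring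

/-- Both Type I sums of Vaughan's identity. -/
theorem typeI_bound {σ K c C : ℝ} (hσ : 0 < σ) (hσ1 : σ ≤ 1) (hK : 1 ≤ K) (hc : 0 < c)
    (hW : WeylHyp σ K c (6 * max C 1)) {F : ℝ} {x y U : ℕ} (hxy : y ≤ 2 * x)
    (hU2 : 2 ≤ U) (hU : U ^ 3 ≤ x) (hU' : x < (U + 1) ^ 3) (hF1 : (x : ℝ) ^ (1 + c) ≤ |F|)
    (hF2 : |F| ≤ (x : ℝ) ^ C) :
    ‖∑ n ∈ Ioc x y, (((trunc muR U * ArithmeticFunction.log) n : ℝ) : ℂ) * ee (F / n)‖
      ≤ (1 + Real.log (2 * x)) ^ 3 * (K * (x : ℝ) ^ (1 - σ / 3)) ∧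
    ‖∑ n ∈ Ioc x y, ((((trunc ArithmeticFunction.vonMangoldt U * trunc muR U) * zeR) n : ℝ) : ℂ)
        * ee (F / n)‖
      ≤ (1 + Real.log (2 * x)) ^ 3 * (K * (x : ℝ) ^ (1 - σ / 3)) := by
  have hx1 : 1 ≤ x := by
    have : 1 ≤ U ^ 3 := Nat.one_le_pow _ _ (by omega)
    omega
  have hxr : (1 : ℝ) ≤ x := by exact_mod_cast hx1
  have hx0 : (0 : ℝ) < x := by linarith
  set ℓ : ℝ := 1 + Real.log (2 * x) with hℓdef
  have hlog2x : 0 ≤ Real.log (2 * x) := Real.log_nonneg (by linarith)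
  have hℓ : 1 ≤ ℓ := by linarith
  have hlogle : ∀ n : ℕ, n ≤ 2 * x → Real.log n ≤ ℓ - 1 := by
    intro n hn
    have h1 := log_mono_nat hn
    simp only at h1
    have e : Real.log ((2 * x : ℕ) : ℝ) = Real.log (2 * x) := by push_cast; rfl
    rw [e] at h1
    linarith
  set B : ℝ := K * (x : ℝ) ^ (1 - σ / 3) with hBdef
  have hB : 0 ≤ B := by positivity
  have hlogy : 1 + Real.log y ≤ ℓ := by linarith [hlogle y hxy]
  have htail : ∀ q, 1 ≤ q → q ≤ U ^ 2 → ∀ a, x / q ≤ a →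
      ‖∑ h ∈ Ioc a (y / q), ee (F / ((q * h : ℕ) : ℝ))‖ ≤ B / q := by
    intro q hq1 hq a ha
    have e : Ioc a (y / q) = Ico (a + 1) (y / q + 1) := by
      ext i
      simp only [mem_Ioc, mem_Ico]
      omega
    rw [e]
    exact typeI_inner hσ hσ1 hK hc hW hxy hU2 hU hU' hF1 hF2 hq1 hq (by omega) le_rfl
  have hUU : U ≤ U ^ 2 := by nlinarith
  constructor
  · have := typeI_outer (trunc muR U) ArithmeticFunction.log (fun n => ee (F / n)) x y (U ^ 2) ℓ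
      (ℓ * B) (by linarith) (by positivity) ?_ ?_ ?_ hlogy
    · refine this.trans (le_of_eq ?_)
      ring
    · intro q _ _
      rw [trunc_apply]
      split_ifs
      · exact (abs_muR_le q).trans hℓ
      · simp only [abs_zero]
        linarith
    · intro q hq
      rw [trunc_apply, if_neg (by omega)]
    · intro q hq1 hq
      have h1 := mono_weight (fun n : ℕ => Real.log n) log_mono_nat (by simp)
        (fun h => ee (F / ((q * h : ℕ) : ℝ))) (y / q) (B / q) (by positivity) (x / q)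
        (htail q hq1 hq)
      have e1 : ∑ h ∈ Ioc (x / q) (y / q), ((ArithmeticFunction.log h : ℝ) : ℂ)
          * ee (F / ((q * h : ℕ) : ℝ))
          = ∑ h ∈ Ioc (x / q) (y / q), ((Real.log h : ℝ) : ℂ) * ee (F / ((q * h : ℕ) : ℝ)) := by
        refine sum_congr rfl fun h _ => ?_
        rw [ArithmeticFunction.log_apply]
      beta_reduce at h1
      rw [e1]
      refine h1.trans ?_
      have h2 : Real.log ((y / q : ℕ) : ℝ) ≤ ℓ := by
        have := hlogle (y / q) ((Nat.div_le_self _ _).trans hxy)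
        linarith
      calc Real.log ((y / q : ℕ) : ℝ) * (B / q) ≤ ℓ * (B / q) :=
            mul_le_mul_of_nonneg_right h2 (by positivity)
        _ = ℓ * B / q := by ring
  · have := typeI_outer (trunc ArithmeticFunction.vonMangoldt U * trunc muR U) zeR
      (fun n => ee (F / n)) x y (U ^ 2) ℓ
      (ℓ * B) (by linarith) (by positivity) ?_ ?_ ?_ hlogy
    · refine this.trans (le_of_eq ?_)
      ring
    · intro q hq1 hq
      refine (abs_typeI_coeff U U q).trans ?_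
      have hqx : q ≤ 2 * x := by
        calc q ≤ U ^ 2 := hq
          _ ≤ U ^ 3 := Nat.pow_le_pow_right (by omega) (by norm_num)
          _ ≤ 2 * x := by omega
      linarith [hlogle q hqx]
    · intro q hq
      exact typeI_coeff_zero U U q (by nlinarith)
    · intro q hq1 hq
      have h1 := htail q hq1 hq (x / q) le_rfl
      have e1 : ∑ h ∈ Ioc (x / q) (y / q), ((zeR h : ℝ) : ℂ) * ee (F / ((q * h : ℕ) : ℝ))
          = ∑ h ∈ Ioc (x / q) (y / q), ee (F / ((q * h : ℕ) : ℝ)) := by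
        refine sum_congr rfl fun h hh => ?_
        rw [mem_Ioc] at hh
        have : zeR h = 1 := by
          unfold zeR
          rw [ArithmeticFunction.natCoe_apply,
            ArithmeticFunction.zeta_apply_ne ((Nat.zero_le _).trans_lt hh.1).ne']
          simp
        rw [this]
        simp
      rw [e1]
      refine h1.trans ?_
      calc B / q ≤ ℓ * (B / q) := le_mul_of_one_le_left (by positivity) hℓ
        _ = ℓ * B / q := by ring

end ESU
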