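import Pool.Agent.Helper48.ESU.Ti

/-!
Type II sums: one dyadic block.
-/

open Finset ArithmeticFunction

namespace ESU

lemma pair_sum_bound {σ K₁ c C : ℝ} (hc : 0 < c)
    (hW : WeylHyp σ K₁ (c / 4) (6 * max C 1)) {F : ℝ} {x y K : ℕ} (hxy : y ≤ 2 * x)
    (hK2 : 2 ≤ K) (hKx : K ≤ x) (hxK : x ≤ K ^ 6) (hx4 : (4 : ℝ) ≤ (x : ℝ) ^ (c / 4))
    (hF1 : (x : ℝ) ^ (1 + c) ≤ |F|) (hF2 : |F| ≤ (x : ℝ) ^ C) {m m' : ℕ} (hm : 1 ≤ m)
    (hm' : 1 ≤ m') (hmM : m ≤ y / K) (hmM' : m' ≤ y / K)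
    (hfar : (x : ℝ) / K * (x : ℝ) ^ (-(c / 2)) < |(m : ℝ) - m'|) :
    ‖∑ k ∈ (Ioc K (2 * K)).filter (fun k => (x < k * m ∧ k * m ≤ y) ∧ (x < k * m' ∧ k * m' ≤ y)),
      ee (F / ((k * m : ℕ) : ℝ)) * (starRingEnd ℂ) (ee (F / ((k * m' : ℕ) : ℝ)))‖
      ≤ K₁ * (K : ℝ) ^ (1 - σ) := by
  have hxr : (1 : ℝ) ≤ x := by exact_mod_cast (by omega : 1 ≤ x)
  have hx0 : (0 : ℝ) < x := by linarith
  have hKr : (2 : ℝ) ≤ K := by exact_mod_cast hK2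
  have hK0 : (0 : ℝ) < K := by linarith
  have hmr : (1 : ℝ) ≤ m := by exact_mod_cast hm
  have hmr' : (1 : ℝ) ≤ m' := by exact_mod_cast hm'
  have hm0 : (0 : ℝ) < m := by linarith
  have hm0' : (0 : ℝ) < m' := by linarith
  set G : ℝ := F / m - F / m' with hG
  have hfilter : (Ioc K (2 * K)).filter
      (fun k => (x < k * m ∧ k * m ≤ y) ∧ (x < k * m' ∧ k * m' ≤ y))
      = Ico (max K (max (x / m) (x / m')) + 1) (min (2 * K) (min (y / m) (y / m')) + 1) := by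
    ext k
    simp only [mem_filter, mem_Ioc, mem_Ico]
    have e1 : x < k * m ↔ x / m < k := (Nat.div_lt_iff_lt_mul (by omega)).symm
    have e2 : k * m ≤ y ↔ k ≤ y / m := (Nat.le_div_iff_mul_le (by omega)).symm
    have e3 : x < k * m' ↔ x / m' < k := (Nat.div_lt_iff_lt_mul (by omega)).symm
    have e4 : k * m' ≤ y ↔ k ≤ y / m' := (Nat.le_div_iff_mul_le (by omega)).symm
    rw [e1, e2, e3, e4, Nat.succ_le_iff, Nat.lt_succ_iff, max_lt_iff, max_lt_iff, le_min_iff,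
      le_min_iff]
    tauto
  rw [hfilter]
  have hsum : ∑ k ∈ Ico (max K (max (x / m) (x / m')) + 1) (min (2 * K) (min (y / m) (y / m')) + 1),
      ee (F / ((k * m : ℕ) : ℝ)) * (starRingEnd ℂ) (ee (F / ((k * m' : ℕ) : ℝ)))
      = ∑ k ∈ Ico (max K (max (x / m) (x / m')) + 1) (min (2 * K) (min (y / m) (y / m')) + 1),
        ee (G / k) := by
    refine sum_congr rfl fun k hk => ?_
    rw [mem_Ico] at hk
    have hk1 : K < k := lt_of_le_of_lt (le_max_left _ _) (Nat.lt_of_succ_le hk.1)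
    have hk0 : (k : ℝ) ≠ 0 := by
      have : 0 < k := by omega
      exact_mod_cast this.ne'
    rw [← ee_sub]
    congr 1
    rw [hG]
    push_cast
    field_simp
  rw [hsum]
  have hMr : ((y / K : ℕ) : ℝ) ≤ 2 * x / K := by
    refine Nat.cast_div_le.trans ?_
    have : (y : ℝ) ≤ 2 * x := by exact_mod_cast hxy
    gcongr
  have hmM1 : (m : ℝ) ≤ 2 * x / K := le_trans (by exact_mod_cast hmM) hMr
  have hmM1' : (m' : ℝ) ≤ 2 * x / K := le_trans (by exact_mod_cast hmM') hMr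
  have hGabs : |G| = |F| * |(m : ℝ) - m'| / (m * m') := by
    have : G = F * ((m' : ℝ) - m) / (m * m') := by
      rw [hG]
      field_simp
    rw [this, abs_div, abs_mul, abs_of_pos (mul_pos hm0 hm0'), abs_sub_comm]
  have hG1 : (K : ℝ) ^ (1 + c / 4) ≤ |G| := by
    rw [hGabs, le_div_iff₀ (mul_pos hm0 hm0')]
    have hKc : (K : ℝ) ^ (c / 4) ≤ (x : ℝ) ^ (c / 4) :=
      Real.rpow_le_rpow hK0.le (by exact_mod_cast hKx) (by positivity)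
    have hmm : (m : ℝ) * m' ≤ (2 * x / K) * (2 * x / K) := by gcongr
    have e1 : (K : ℝ) ^ (1 + c / 4) = K * (K : ℝ) ^ (c / 4) := by
      rw [Real.rpow_add hK0, Real.rpow_one]
    have e2 : (x : ℝ) ^ (1 + c) * ((x : ℝ) / K * (x : ℝ) ^ (-(c / 2)))
        = x * x / K * ((x : ℝ) ^ (c / 4) * (x : ℝ) ^ (c / 4)) := by
      have e3 : (x : ℝ) ^ (1 + c) = x * (x : ℝ) ^ c := by
        rw [Real.rpow_add hx0, Real.rpow_one]
      have e4 : (x : ℝ) ^ c * (x : ℝ) ^ (-(c / 2)) = (x : ℝ) ^ (c / 4) * (x : ℝ) ^ (c / 4) := by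
        rw [← Real.rpow_add hx0, ← Real.rpow_add hx0]
        congr 1
        ring
      rw [e3]
      calc (x : ℝ) * (x : ℝ) ^ c * ((x : ℝ) / K * (x : ℝ) ^ (-(c / 2)))
          = x * x / K * ((x : ℝ) ^ c * (x : ℝ) ^ (-(c / 2))) := by ring
        _ = _ := by rw [e4]
    calc (K : ℝ) ^ (1 + c / 4) * (m * m')
        ≤ K * (x : ℝ) ^ (c / 4) * ((2 * x / K) * (2 * x / K)) := by
          rw [e1]
          gcongr
      _ = x * x / K * ((x : ℝ) ^ (c / 4) * 4) := by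
          field_simp
          ring
      _ ≤ x * x / K * ((x : ℝ) ^ (c / 4) * (x : ℝ) ^ (c / 4)) := by
          gcongr
      _ = (x : ℝ) ^ (1 + c) * ((x : ℝ) / K * (x : ℝ) ^ (-(c / 2))) := e2.symm
      _ ≤ |F| * |(m : ℝ) - m'| := by
          gcongr
  have hG2 : |G| ≤ (K : ℝ) ^ (6 * max C 1) := by
    have hC1 : (1 : ℝ) ≤ max C 1 := le_max_right _ _
    have h1 : |(m : ℝ) - m'| ≤ m * m' := by
      rw [abs_le]
      constructor <;> nlinarith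
    have h2 : |G| ≤ |F| := by
      rw [hGabs, div_le_iff₀ (mul_pos hm0 hm0')]
      gcongr
    have hxK' : (x : ℝ) ≤ (K : ℝ) ^ (6 : ℝ) := by
      rw [show (6 : ℝ) = ((6 : ℕ) : ℝ) by norm_num, Real.rpow_natCast]
      exact_mod_cast hxK
    calc |G| ≤ |F| := h2
      _ ≤ (x : ℝ) ^ C := hF2
      _ ≤ (x : ℝ) ^ (max C 1) := Real.rpow_le_rpow_of_exponent_le hxr (le_max_left _ _)
      _ ≤ ((K : ℝ) ^ (6 : ℝ)) ^ (max C 1) := Real.rpow_le_rpow hx0.le hxK' (by linarith)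
      _ = (K : ℝ) ^ (6 * max C 1) := by rw [← Real.rpow_mul hK0.le]
  refine hW G K _ _ (by omega) ?_ ?_ hG1 hG2
  · exact (le_max_left _ _).trans (Nat.le_succ _)
  · have : min (2 * K) (min (y / m) (y / m')) ≤ 2 * K := min_le_left _ _
    omega

lemma pair_sum_triv (F : ℝ) (x y K m m' : ℕ) :
    ‖∑ k ∈ (Ioc K (2 * K)).filter (fun k => (x < k * m ∧ k * m ≤ y) ∧ (x < k * m' ∧ k * m' ≤ y)),
      ee (F / ((k * m : ℕ) : ℝ)) * (starRingEnd ℂ) (ee (F / ((k * m' : ℕ) : ℝ)))‖ ≤ K := by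
  refine (norm_sum_le _ _).trans ?_
  calc ∑ k ∈ (Ioc K (2 * K)).filter (fun k => (x < k * m ∧ k * m ≤ y) ∧ (x < k * m' ∧ k * m' ≤ y)),
      ‖ee (F / ((k * m : ℕ) : ℝ)) * (starRingEnd ℂ) (ee (F / ((k * m' : ℕ) : ℝ)))‖
      ≤ ∑ k ∈ Ioc K (2 * K), (1 : ℝ) := by
        refine (sum_le_sum_of_subset_of_nonneg (filter_subset _ _)
          (fun _ _ _ => norm_nonneg _)).trans ?_
        refine sum_le_sum fun k _ => ?_
        rw [norm_mul, RCLike.norm_conj, norm_ee, norm_ee, one_mul]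
    _ = K := by
        simp only [sum_const, Nat.card_Ioc, nsmul_eq_mul, mul_one]
        have : 2 * K - K = K := by omega
        rw [this]

lemma near_count (m N : ℕ) (D : ℝ) (hD : 0 ≤ D) :
    (((Icc 1 N).filter (fun m' : ℕ => |(m : ℝ) - m'| ≤ D)).card : ℝ) ≤ 2 * D + 1 := by
  have hsub : (Icc 1 N).filter (fun m' : ℕ => |(m : ℝ) - m'| ≤ D) ⊆ Icc (m - ⌊D⌋₊) (m + ⌊D⌋₊) := by
    intro m' hm'
    rw [mem_filter, abs_le] at hm'
    obtain ⟨_, h1, h2⟩ := hm'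
    rw [mem_Icc]
    constructor
    · rcases Nat.lt_or_ge m' m with h | h
      · have h3 : ((m - m' : ℕ) : ℝ) ≤ D := by
          rw [Nat.cast_sub h.le]
          linarith
        have := Nat.le_floor h3
        omega
      · omega
    · rcases Nat.lt_or_ge m m' with h | h
      · have h3 : ((m' - m : ℕ) : ℝ) ≤ D := by
          rw [Nat.cast_sub h.le]
          linarith
        have := Nat.le_floor h3
        omega
      · omega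
  have h1 := card_le_card hsub
  rw [Nat.card_Icc] at h1
  have h2 : ((Icc 1 N).filter (fun m' : ℕ => |(m : ℝ) - m'| ≤ D)).card ≤ 2 * ⌊D⌋₊ + 1 := by omega
  calc (((Icc 1 N).filter (fun m' : ℕ => |(m : ℝ) - m'| ≤ D)).card : ℝ)
      ≤ ((2 * ⌊D⌋₊ + 1 : ℕ) : ℝ) := by exact_mod_cast h2
    _ = 2 * (⌊D⌋₊ : ℝ) + 1 := by push_cast; ring
    _ ≤ 2 * D + 1 := by
        have := Nat.floor_le hD
        linarith

/-- Expansion of the square of a linear form. -/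
lemma normSq_expand {ι κ : Type*} (S : Finset ι) (T : Finset κ) (v : ι → κ → ℂ) (R : κ → κ → ℝ)
    (hR : ∀ m ∈ T, ∀ m' ∈ T, ‖∑ k ∈ S, v k m * (starRingEnd ℂ) (v k m')‖ ≤ R m m') :
    ∑ k ∈ S, ‖∑ m ∈ T, v k m‖ ^ 2 ≤ ∑ m ∈ T, ∑ m' ∈ T, R m m' := by
  have h1 : ((∑ k ∈ S, ‖∑ m ∈ T, v k m‖ ^ 2 : ℝ) : ℂ)
      = ∑ m ∈ T, ∑ m' ∈ T, ∑ k ∈ S, v k m * (starRingEnd ℂ) (v k m') := by
    push_cast
    have h2 : ∀ k ∈ S, ((‖∑ m ∈ T, v k m‖ : ℝ) : ℂ) ^ 2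
        = ∑ m ∈ T, ∑ m' ∈ T, v k m * (starRingEnd ℂ) (v k m') := by
      intro k _
      rw [← Complex.mul_conj', map_sum, sum_mul_sum]
    rw [sum_congr rfl h2, sum_comm]
    refine sum_congr rfl fun m _ => ?_
    rw [sum_comm]
  have h0 : 0 ≤ ∑ k ∈ S, ‖∑ m ∈ T, v k m‖ ^ 2 := sum_nonneg fun _ _ => by positivity
  have h3 : ∑ k ∈ S, ‖∑ m ∈ T, v k m‖ ^ 2
      = ‖∑ m ∈ T, ∑ m' ∈ T, ∑ k ∈ S, v k m * (starRingEnd ℂ) (v k m')‖ := by
    rw [← h1, Complex.norm_real, Real.norm_eq_abs, abs_of_nonneg h0]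
  rw [h3]
  refine (norm_sum_le _ _).trans (sum_le_sum fun m hm => (norm_sum_le _ _).trans
    (sum_le_sum fun m' hm' => hR m hm m' hm'))

/-- The truncated phase. -/
noncomputable def ph (F : ℝ) (x y : ℕ) (a : ℕ → ℝ) (k m : ℕ) : ℂ :=
  if x < k * m ∧ k * m ≤ y then ((a m : ℝ) : ℂ) * ee (F / ((k * m : ℕ) : ℝ)) else 0

lemma inner_rewrite (F : ℝ) (x y : ℕ) (a : ℕ → ℝ) (K k : ℕ) (hK : 0 < K) (hk : K < k) :
    ∑ m ∈ Ioc (x / k) (y / k), ((a m : ℝ) : ℂ) * ee (F / ((k * m : ℕ) : ℝ))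
      = ∑ m ∈ Icc 1 (y / K), ph F x y a k m := by
  have hk0 : 0 < k := by omega
  unfold ph
  rw [← sum_filter]
  refine sum_congr ?_ fun _ _ => rfl
  ext m
  simp only [mem_filter, mem_Icc, mem_Ioc]
  have e1 : x < k * m ↔ x / k < m := by
    rw [mul_comm]
    exact (Nat.div_lt_iff_lt_mul hk0).symm
  have e2 : k * m ≤ y ↔ m ≤ y / k := by
    rw [mul_comm]
    exact (Nat.le_div_iff_mul_le hk0).symm
  rw [e1, e2]
  constructor
  · rintro ⟨h1, h2⟩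
    refine ⟨⟨(Nat.zero_le _).trans_lt h1, ?_⟩, h1, h2⟩
    exact h2.trans (Nat.div_le_div_left hk.le hK)
  · rintro ⟨_, h⟩
    exact h

lemma ph_pair (F : ℝ) (x y : ℕ) (a : ℕ → ℝ) (K m m' : ℕ) :
    ∑ k ∈ Ioc K (2 * K), ph F x y a k m * (starRingEnd ℂ) (ph F x y a k m')
      = ((a m : ℝ) : ℂ) * ((a m' : ℝ) : ℂ) * ∑ k ∈ (Ioc K (2 * K)).filter
        (fun k => (x < k * m ∧ k * m ≤ y) ∧ (x < k * m' ∧ k * m' ≤ y)),
        ee (F / ((k * m : ℕ) : ℝ)) * (starRingEnd ℂ) (ee (F / ((k * m' : ℕ) : ℝ))) := by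
  rw [sum_filter, mul_sum]
  refine sum_congr rfl fun k _ => ?_
  unfold ph
  by_cases h1 : x < k * m ∧ k * m ≤ y
  · by_cases h2 : x < k * m' ∧ k * m' ≤ y
    · rw [if_pos h1, if_pos h2, if_pos ⟨h1, h2⟩, map_mul, Complex.conj_ofReal]
      ring
    · have h3 : ¬ ((x < k * m ∧ k * m ≤ y) ∧ (x < k * m' ∧ k * m' ≤ y)) := fun h => h2 h.2
      rw [if_neg h2, if_neg h3]
      simp
  · have h3 : ¬ ((x < k * m ∧ k * m ≤ y) ∧ (x < k * m' ∧ k * m' ≤ y)) := fun h => h1 h.1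
    rw [if_neg h1, if_neg h3]
    simp

lemma row_bound (N m : ℕ) (ℓ T0 D K : ℝ) (hD0 : 0 ≤ D) (hK0 : 0 ≤ K) :
    ∑ m' ∈ Icc 1 N, ℓ ^ 2 * (T0 + (if |(m : ℝ) - ((m' : ℕ) : ℝ)| ≤ D then K else 0))
      ≤ ℓ ^ 2 * (N * T0 + (2 * D + 1) * K) := by
  rw [← mul_sum, sum_add_distrib, sum_const, Nat.card_Icc, nsmul_eq_mul, ← sum_filter,
    sum_const, nsmul_eq_mul, Nat.add_sub_cancel]
  have h2 := near_count m N D hD0
  have h3 := mul_le_mul_of_nonneg_right h2 hK0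
  exact mul_le_mul_of_nonneg_left (add_le_add le_rfl h3) (by positivity)

/-- The mean square of the inner Type II sums over a dyadic block. -/
theorem typeII_square {σ K₁ c C : ℝ} (hc : 0 < c) (hK₁ : 1 ≤ K₁)
    (hW : WeylHyp σ K₁ (c / 4) (6 * max C 1)) {F : ℝ} {x y K : ℕ} (hxy : y ≤ 2 * x)
    (hK2 : 2 ≤ K) (hKx : K ≤ x) (hxK : x ≤ K ^ 6) (hx4 : (4 : ℝ) ≤ (x : ℝ) ^ (c / 4))
    (hF1 : (x : ℝ) ^ (1 + c) ≤ |F|) (hF2 : |F| ≤ (x : ℝ) ^ C) (a : ℕ → ℝ) (ℓ : ℝ) (hℓ : 0 ≤ ℓ)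
    (ha : ∀ m ≤ 2 * x, |a m| ≤ ℓ) :
    ∑ k ∈ Ioc K (2 * K), ‖∑ m ∈ Ioc (x / k) (y / k), ((a m : ℝ) : ℂ) * ee (F / ((k * m : ℕ) : ℝ))‖ ^ 2
      ≤ ℓ ^ 2 * ((2 * x / K) ^ 2 * (K₁ * (K : ℝ) ^ (1 - σ))
        + (2 * x / K) * (2 * ((x : ℝ) / K * (x : ℝ) ^ (-(c / 2))) + 1) * K) := by
  have hxr : (1 : ℝ) ≤ x := by exact_mod_cast (by omega : 1 ≤ x)
  have hx0 : (0 : ℝ) < x := by linarith
  have hKr : (2 : ℝ) ≤ K := by exact_mod_cast hK2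
  have hK0 : (0 : ℝ) < K := by linarith
  obtain ⟨D, hD⟩ : ∃ D : ℝ, D = (x : ℝ) / K * (x : ℝ) ^ (-(c / 2)) := ⟨_, rfl⟩
  obtain ⟨T0, hT0⟩ : ∃ T0 : ℝ, T0 = K₁ * (K : ℝ) ^ (1 - σ) := ⟨_, rfl⟩
  obtain ⟨N, hN⟩ : ∃ N : ℕ, N = y / K := ⟨_, rfl⟩
  have hD0 : 0 ≤ D := by
    rw [hD]
    positivity
  have hT00 : 0 ≤ T0 := by
    rw [hT0]
    positivity
  have hMr : (N : ℝ) ≤ 2 * x / K := by
    rw [hN]
    refine Nat.cast_div_le.trans ?_
    have : (y : ℝ) ≤ 2 * x := by exact_mod_cast hxy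
    gcongr
  have hNx : N ≤ 2 * x := by
    rw [hN]
    exact (Nat.div_le_self _ _).trans hxy
  have hstep : ∑ k ∈ Ioc K (2 * K), ‖∑ m ∈ Ioc (x / k) (y / k),
      ((a m : ℝ) : ℂ) * ee (F / ((k * m : ℕ) : ℝ))‖ ^ 2
      = ∑ k ∈ Ioc K (2 * K), ‖∑ m ∈ Icc 1 N, ph F x y a k m‖ ^ 2 := by
    refine sum_congr rfl fun k hk => ?_
    rw [mem_Ioc] at hk
    rw [inner_rewrite F x y a K k (by omega) hk.1, hN]
  rw [hstep, ← hD, ← hT0]
  have hexp := normSq_expand (Ioc K (2 * K)) (Icc 1 N) (fun k m => ph F x y a k m)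
    (fun m m' => ℓ ^ 2 * (T0 + (if |(m : ℝ) - ((m' : ℕ) : ℝ)| ≤ D then (K : ℝ) else 0))) (by
      intro m hm m' hm'
      rw [mem_Icc] at hm hm'
      rw [ph_pair, norm_mul, norm_mul, Complex.norm_real, Complex.norm_real, Real.norm_eq_abs,
        Real.norm_eq_abs]
      have ha1 := ha m (hm.2.trans hNx)
      have ha2 := ha m' (hm'.2.trans hNx)
      have haa : |a m| * |a m'| ≤ ℓ ^ 2 := by
        rw [sq]
        exact mul_le_mul ha1 ha2 (abs_nonneg _) hℓ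
      refine mul_le_mul haa ?_ (norm_nonneg _) (by positivity)
      split_ifs with hnear
      · refine (pair_sum_triv F x y K m m').trans ?_
        linarith
      · rw [add_zero, hT0]
        push Not at hnear
        rw [hD] at hnear
        rw [hN] at hm hm'
        exact pair_sum_bound hc hW hxy hK2 hKx hxK hx4 hF1 hF2 hm.1 hm'.1 hm.2 hm'.2 hnear)
  refine hexp.trans ?_
  refine (sum_le_sum fun m _ => row_bound N m ℓ T0 D K hD0 hK0.le).trans ?_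
  rw [sum_const, Nat.card_Icc, nsmul_eq_mul, Nat.add_sub_cancel]
  have e1 : (N : ℝ) * (ℓ ^ 2 * (N * T0 + (2 * D + 1) * K))
      = ℓ ^ 2 * (N ^ 2 * T0 + N * (2 * D + 1) * K) := by ring
  rw [e1]
  have e2 : (N : ℝ) ^ 2 ≤ (2 * x / K) ^ 2 := by gcongr
  have e3 : (N : ℝ) ^ 2 * T0 ≤ (2 * x / K) ^ 2 * T0 := mul_le_mul_of_nonneg_right e2 hT00
  have e4 : (N : ℝ) * (2 * D + 1) * K ≤ (2 * x / K) * (2 * D + 1) * K := by gcongr
  exact mul_le_mul_of_nonneg_left (add_le_add e3 e4) (by positivity)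

end ESU
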