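import Pool.Agent.Helper48.ESU.Tj

/-!
Type II sums: all dyadic blocks.  Assembly of the bound for sums over `Λ`.
-/

open Finset ArithmeticFunction

namespace ESU

lemma bb_sq_sum (U K : ℕ) (hU : 1 ≤ U) (ℓ : ℝ) (hℓ : 1 + Real.log ((2 * K : ℕ) : ℝ) ≤ ℓ)
    (hK : 1 ≤ K) :
    ∑ k ∈ Ioc K (2 * K), |bb U k| ^ 2 ≤ 2 * K * ℓ ^ 3 := by
  have h0 : 0 ≤ 1 + Real.log ((2 * K : ℕ) : ℝ) := by
    have := Real.log_natCast_nonneg (2 * K)
    linarith
  calc ∑ k ∈ Ioc K (2 * K), |bb U k| ^ 2 ≤ ∑ k ∈ Ioc K (2 * K), (k.divisors.card : ℝ) ^ 2 := by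
        refine sum_le_sum fun k _ => ?_
        have := abs_bb_le U k hU
        gcongr
    _ ≤ ∑ k ∈ Ioc 0 (2 * K), (k.divisors.card : ℝ) ^ 2 := by
        refine sum_le_sum_of_subset_of_nonneg ?_ fun _ _ _ => by positivity
        intro k hk
        rw [mem_Ioc] at hk ⊢
        omega
    _ ≤ ((2 * K : ℕ) : ℝ) * (1 + Real.log ((2 * K : ℕ) : ℝ)) ^ 3 := sum_tau_sq_le _
    _ ≤ 2 * K * ℓ ^ 3 := by
        push_cast
        push_cast at h0 hℓ
        gcongr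

/-- The function summed in the Type II part. -/
noncomputable def ff (U x y : ℕ) (F : ℝ) (k : ℕ) : ℂ :=
  ((bb U k : ℝ) : ℂ) * ∑ m ∈ Ioc (x / k) (y / k),
    (((ArithmeticFunction.vonMangoldt - trunc ArithmeticFunction.vonMangoldt U) m : ℝ) : ℂ)
      * ee (F / ((k * m : ℕ) : ℝ))

lemma aa_apply (U m : ℕ) :
    (ArithmeticFunction.vonMangoldt - trunc ArithmeticFunction.vonMangoldt U) m
      = if m ≤ U then 0 else ArithmeticFunction.vonMangoldt m := by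
  rw [sub_apply', trunc_apply]
  split_ifs
  · ring
  · ring

lemma typeII_block {σ K₁ c C : ℝ} (hσ : 0 < σ) (hσ1 : σ ≤ 1) (hc : 0 < c) (hK₁ : 1 ≤ K₁)
    (hW : WeylHyp σ K₁ (c / 4) (6 * max C 1)) {F : ℝ} {x y U K : ℕ} (hxy : y ≤ 2 * x)
    (hU2 : 2 ≤ U) (hU' : x < (U + 1) ^ 3) (hUK : U ≤ K)
    (hx4 : (4 : ℝ) ≤ (x : ℝ) ^ (c / 4))
    (hF1 : (x : ℝ) ^ (1 + c) ≤ |F|) (hF2 : |F| ≤ (x : ℝ) ^ C) :
    ‖∑ k ∈ Ioc K (2 * K), ff U x y F k‖
      ≤ 40 * K₁ * (1 + Real.log (2 * x)) ^ 3 * (x : ℝ) ^ (1 - min (σ / 3) (c / 2) / 2) := by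
  set ℓ : ℝ := 1 + Real.log (2 * x) with hℓdef
  set δ : ℝ := min (σ / 3) (c / 2) with hδ
  have hδ0 : 0 < δ := by positivity
  have hδ1 : δ ≤ σ / 3 := min_le_left _ _
  have hδ2 : δ ≤ c / 2 := min_le_right _ _
  have hx1 : 1 ≤ x := by
    rcases Nat.eq_zero_or_pos x with h | h
    · exfalso
      rw [h] at hx4
      rw [Nat.cast_zero, Real.zero_rpow (by positivity)] at hx4
      linarith
    · exact h
  have hxr : (1 : ℝ) ≤ x := by exact_mod_cast hx1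
  have hx0 : (0 : ℝ) < x := by linarith
  have hlog2x : 0 ≤ Real.log (2 * x) := Real.log_nonneg (by linarith)
  have hℓ : 1 ≤ ℓ := by linarith
  have hlogle : ∀ n : ℕ, n ≤ 2 * x → Real.log n ≤ ℓ - 1 := by
    intro n hn
    have h1 := log_mono_nat hn
    simp only at h1
    have e : Real.log ((2 * x : ℕ) : ℝ) = Real.log (2 * x) := by push_cast; rfl
    rw [e] at h1
    linarith
  rcases Nat.lt_or_ge U (y / K) with hbig | hsmall
  · -- the main case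
    have hKU : K * (U + 1) ≤ 2 * x := by
      have h1 : U + 1 ≤ y / K := hbig
      rw [Nat.le_div_iff_mul_le (by omega)] at h1
      calc K * (U + 1) = (U + 1) * K := by ring
        _ ≤ y := h1
        _ ≤ 2 * x := hxy
    have hKx : K ≤ x := by nlinarith
    have hxK : x ≤ K ^ 6 := by
      calc x ≤ (U + 1) ^ 3 := hU'.le
        _ ≤ (K + 1) ^ 3 := Nat.pow_le_pow_left (by omega) 3
        _ ≤ (K ^ 2) ^ 3 := Nat.pow_le_pow_left (by nlinarith) 3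
        _ = K ^ 6 := by ring
    have hK2 : 2 ≤ K := hU2.trans hUK
    have hKr : (2 : ℝ) ≤ K := by exact_mod_cast hK2
    have hK0 : (0 : ℝ) < K := by linarith
    have hUr : (2 : ℝ) ≤ U := by exact_mod_cast hU2
    have hU0 : (0 : ℝ) < U := by linarith
    have hsq := typeII_square hc hK₁ hW hxy hK2 hKx hxK hx4 hF1 hF2
      (fun m => (ArithmeticFunction.vonMangoldt - trunc ArithmeticFunction.vonMangoldt U) m) ℓ
      (by linarith) (by
        intro m hm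
        rw [aa_apply]
        split_ifs
        · simp only [abs_zero]
          linarith
        · rw [abs_of_nonneg ArithmeticFunction.vonMangoldt_nonneg]
          refine ArithmeticFunction.vonMangoldt_le_log.trans ?_
          linarith [hlogle m hm])
    have hb2 := bb_sq_sum U K (by omega) ℓ (by linarith [hlogle (2 * K) (by omega)]) (by omega)
    have hcs : ‖∑ k ∈ Ioc K (2 * K), ff U x y F k‖ ^ 2
        ≤ (∑ k ∈ Ioc K (2 * K), |bb U k| ^ 2) * (∑ k ∈ Ioc K (2 * K),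
          ‖∑ m ∈ Ioc (x / k) (y / k), (((ArithmeticFunction.vonMangoldt
            - trunc ArithmeticFunction.vonMangoldt U) m : ℝ) : ℂ)
            * ee (F / ((k * m : ℕ) : ℝ))‖ ^ 2) := by
      refine le_trans ?_ (sum_mul_sq_le_sq_mul_sq _ _ _)
      have h1 : ‖∑ k ∈ Ioc K (2 * K), ff U x y F k‖ ≤ ∑ k ∈ Ioc K (2 * K), |bb U k| *
          ‖∑ m ∈ Ioc (x / k) (y / k), (((ArithmeticFunction.vonMangoldt
            - trunc ArithmeticFunction.vonMangoldt U) m : ℝ) : ℂ)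
            * ee (F / ((k * m : ℕ) : ℝ))‖ := by
        refine (norm_sum_le _ _).trans (le_of_eq ?_)
        refine sum_congr rfl fun k _ => ?_
        rw [ff, norm_mul, Complex.norm_real, Real.norm_eq_abs]
      gcongr
    have hP0 : 0 ≤ ∑ k ∈ Ioc K (2 * K),
          ‖∑ m ∈ Ioc (x / k) (y / k), (((ArithmeticFunction.vonMangoldt
            - trunc ArithmeticFunction.vonMangoldt U) m : ℝ) : ℂ)
            * ee (F / ((k * m : ℕ) : ℝ))‖ ^ 2 := sum_nonneg fun _ _ => by positivity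
    have hx3 : (x : ℝ) ^ ((1 : ℝ) / 3) ≤ 2 * U := by
      have h1 : (x : ℝ) ≤ (2 * (U : ℝ)) ^ (3 : ℕ) := by
        have : x ≤ (2 * U) ^ 3 := by
          calc x ≤ (U + 1) ^ 3 := hU'.le
            _ ≤ (2 * U) ^ 3 := Nat.pow_le_pow_left (by omega) 3
        exact_mod_cast this
      have h2 : (x : ℝ) ^ ((1 : ℝ) / 3) ≤ ((2 * (U : ℝ)) ^ (3 : ℕ)) ^ ((1 : ℝ) / 3) :=
        Real.rpow_le_rpow hx0.le h1 (by norm_num)
      rw [← Real.rpow_natCast, ← Real.rpow_mul (by positivity)] at h2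
      norm_num at h2
      exact h2
    have hUσ : (K : ℝ) ^ (-σ) ≤ 2 * (x : ℝ) ^ (-δ) := by
      have h1 : (K : ℝ) ^ (-σ) ≤ (U : ℝ) ^ (-σ) :=
        Real.rpow_le_rpow_of_nonpos hU0 (by exact_mod_cast hUK) (by linarith)
      have h2 : (2 * (U : ℝ)) ^ (-σ) ≤ ((x : ℝ) ^ ((1 : ℝ) / 3)) ^ (-σ) :=
        Real.rpow_le_rpow_of_nonpos (by positivity) hx3 (by linarith)
      rw [← Real.rpow_mul hx0.le, Real.mul_rpow (by norm_num) hU0.le] at h2
      have h3 : (x : ℝ) ^ ((1 : ℝ) / 3 * -σ) ≤ (x : ℝ) ^ (-δ) :=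
        Real.rpow_le_rpow_of_exponent_le hxr (by linarith)
      have h4 : (1 : ℝ) / 2 ≤ (2 : ℝ) ^ (-σ) := by
        have : (2 : ℝ) ^ (-1 : ℝ) ≤ (2 : ℝ) ^ (-σ) :=
          Real.rpow_le_rpow_of_exponent_le (by norm_num) (by linarith)
        rw [Real.rpow_neg_one] at this
        linarith
      have h5 : 0 < (U : ℝ) ^ (-σ) := by positivity
      nlinarith
    have hKx2 : (x : ℝ) * K ≤ 4 * ((x : ℝ) ^ 2 * (x : ℝ) ^ (-δ)) := by
      have h1 : (K : ℝ) * U ≤ 2 * x := by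
        have : K * U ≤ 2 * x := le_trans (by nlinarith) hKU
        exact_mod_cast this
      have h2 : (x : ℝ) ^ ((1 : ℝ) / 3) * (x : ℝ) ^ (-((1 : ℝ) / 3)) = 1 := by
        rw [← Real.rpow_add hx0]
        norm_num
      have h3 : (x : ℝ) ^ (-((1 : ℝ) / 3)) ≤ (x : ℝ) ^ (-δ) :=
        Real.rpow_le_rpow_of_exponent_le hxr (by linarith)
      have h4 : 0 < (x : ℝ) ^ (-((1 : ℝ) / 3)) := by positivity
      calc (x : ℝ) * K = x * K * ((x : ℝ) ^ ((1 : ℝ) / 3) * (x : ℝ) ^ (-((1 : ℝ) / 3))) := by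
            rw [h2, mul_one]
        _ ≤ x * K * ((2 * U) * (x : ℝ) ^ (-((1 : ℝ) / 3))) := by gcongr
        _ = 2 * x * (K * U) * (x : ℝ) ^ (-((1 : ℝ) / 3)) := by ring
        _ ≤ 2 * x * (2 * x) * (x : ℝ) ^ (-δ) := by gcongr
        _ = 4 * ((x : ℝ) ^ 2 * (x : ℝ) ^ (-δ)) := by ring
    have hxc : (x : ℝ) ^ (-(c / 2)) ≤ (x : ℝ) ^ (-δ) :=
      Real.rpow_le_rpow_of_exponent_le hxr (by linarith)
    have hprod : ‖∑ k ∈ Ioc K (2 * K), ff U x y F k‖ ^ 2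
        ≤ 2 * K * ℓ ^ 3 * (ℓ ^ 2 * ((2 * x / K) ^ 2 * (K₁ * (K : ℝ) ^ (1 - σ))
        + (2 * x / K) * (2 * ((x : ℝ) / K * (x : ℝ) ^ (-(c / 2))) + 1) * K)) :=
      hcs.trans (mul_le_mul hb2 hsq hP0 (by positivity))
    have hK1 : (K : ℝ) ^ (1 - σ) = K * (K : ℝ) ^ (-σ) := by
      nth_rw 2 [← Real.rpow_one (K : ℝ)]
      rw [← Real.rpow_add hK0]
      congr 1
    have hrw : 2 * K * ℓ ^ 3 * (ℓ ^ 2 * ((2 * x / K) ^ 2 * (K₁ * (K : ℝ) ^ (1 - σ))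
        + (2 * x / K) * (2 * ((x : ℝ) / K * (x : ℝ) ^ (-(c / 2))) + 1) * K))
        = 2 * ℓ ^ 5 * (4 * K₁ * ((x : ℝ) ^ 2 * (K : ℝ) ^ (-σ))
          + 4 * ((x : ℝ) ^ 2 * (x : ℝ) ^ (-(c / 2))) + 2 * ((x : ℝ) * K)) := by
      rw [hK1]
      field_simp
      ring
    have hX : 0 ≤ (x : ℝ) ^ 2 * (x : ℝ) ^ (-δ) := by positivity
    have hbound : 2 * ℓ ^ 5 * (4 * K₁ * ((x : ℝ) ^ 2 * (K : ℝ) ^ (-σ))
          + 4 * ((x : ℝ) ^ 2 * (x : ℝ) ^ (-(c / 2))) + 2 * ((x : ℝ) * K))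
        ≤ 40 * K₁ * ℓ ^ 5 * ((x : ℝ) ^ 2 * (x : ℝ) ^ (-δ)) := by
      have h1 : 4 * K₁ * ((x : ℝ) ^ 2 * (K : ℝ) ^ (-σ))
          ≤ 8 * K₁ * ((x : ℝ) ^ 2 * (x : ℝ) ^ (-δ)) := by
        calc 4 * K₁ * ((x : ℝ) ^ 2 * (K : ℝ) ^ (-σ))
            ≤ 4 * K₁ * ((x : ℝ) ^ 2 * (2 * (x : ℝ) ^ (-δ))) := by gcongr
          _ = 8 * K₁ * ((x : ℝ) ^ 2 * (x : ℝ) ^ (-δ)) := by ring
      have h2 : 4 * ((x : ℝ) ^ 2 * (x : ℝ) ^ (-(c / 2)))
          ≤ 4 * ((x : ℝ) ^ 2 * (x : ℝ) ^ (-δ)) := by gcongr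
      have h3 : 2 * ((x : ℝ) * K) ≤ 8 * ((x : ℝ) ^ 2 * (x : ℝ) ^ (-δ)) := by linarith
      have h4 : 4 * K₁ * ((x : ℝ) ^ 2 * (K : ℝ) ^ (-σ))
          + 4 * ((x : ℝ) ^ 2 * (x : ℝ) ^ (-(c / 2))) + 2 * ((x : ℝ) * K)
          ≤ 20 * K₁ * ((x : ℝ) ^ 2 * (x : ℝ) ^ (-δ)) := by nlinarith
      calc 2 * ℓ ^ 5 * (4 * K₁ * ((x : ℝ) ^ 2 * (K : ℝ) ^ (-σ))
          + 4 * ((x : ℝ) ^ 2 * (x : ℝ) ^ (-(c / 2))) + 2 * ((x : ℝ) * K))
          ≤ 2 * ℓ ^ 5 * (20 * K₁ * ((x : ℝ) ^ 2 * (x : ℝ) ^ (-δ))) := by gcongr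
        _ = 40 * K₁ * ℓ ^ 5 * ((x : ℝ) ^ 2 * (x : ℝ) ^ (-δ)) := by ring
    have hfin : ‖∑ k ∈ Ioc K (2 * K), ff U x y F k‖ ^ 2
        ≤ (40 * K₁ * ℓ ^ 3 * (x : ℝ) ^ (1 - δ / 2)) ^ 2 := by
      refine hprod.trans (le_of_eq_of_le hrw (hbound.trans ?_))
      have e1 : (x : ℝ) ^ 2 * (x : ℝ) ^ (-δ) = (x : ℝ) ^ (1 - δ / 2) * (x : ℝ) ^ (1 - δ / 2) := by
        rw [← Real.rpow_add hx0, ← Real.rpow_two, ← Real.rpow_add hx0]
        congr 1
        ring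
      rw [e1]
      have h6 : ℓ ^ 5 ≤ ℓ ^ 6 := pow_le_pow_right₀ hℓ (by norm_num)
      have h7 : K₁ ≤ K₁ ^ 2 := by nlinarith
      calc 40 * K₁ * ℓ ^ 5 * ((x : ℝ) ^ (1 - δ / 2) * (x : ℝ) ^ (1 - δ / 2))
          ≤ 1600 * K₁ ^ 2 * ℓ ^ 6 * ((x : ℝ) ^ (1 - δ / 2) * (x : ℝ) ^ (1 - δ / 2)) := by
            gcongr
            linarith
        _ = (40 * K₁ * ℓ ^ 3 * (x : ℝ) ^ (1 - δ / 2)) ^ 2 := by ring
    exact le_of_sq_le_sq hfin (by positivity)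
  · -- the block vanishes
    have hz : ∑ k ∈ Ioc K (2 * K), ff U x y F k = 0 := by
      refine sum_eq_zero fun k hk => ?_
      rw [mem_Ioc] at hk
      rw [ff]
      have : ∑ m ∈ Ioc (x / k) (y / k), (((ArithmeticFunction.vonMangoldt
          - trunc ArithmeticFunction.vonMangoldt U) m : ℝ) : ℂ)
          * ee (F / ((k * m : ℕ) : ℝ)) = 0 := by
        refine sum_eq_zero fun m hm => ?_
        rw [mem_Ioc] at hm
        have hmU : m ≤ U := by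
          refine hm.2.trans ((Nat.div_le_div_left hk.1.le (by omega)).trans hsmall)
        rw [aa_apply, if_pos hmU]
        simp
      rw [this, mul_zero]
    rw [hz, norm_zero]
    positivity

lemma sum_dyadic (f : ℕ → ℂ) (U n : ℕ) :
    ∑ k ∈ Ioc U (U * 2 ^ n), f k = ∑ i ∈ range n, ∑ k ∈ Ioc (U * 2 ^ i) (2 * (U * 2 ^ i)), f k := by
  induction n with
  | zero => simp
  | succ n ih =>
    rw [sum_range_succ, ← ih]
    have e : U * 2 ^ (n + 1) = 2 * (U * 2 ^ n) := by ring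
    rw [e]
    refine (Finset.sum_Ioc_consecutive f ?_ ?_).symm
    · exact Nat.le_mul_of_pos_right _ (by positivity)
    · omega

theorem typeII_bound {σ K₁ c C : ℝ} (hσ : 0 < σ) (hσ1 : σ ≤ 1) (hc : 0 < c) (hK₁ : 1 ≤ K₁)
    (hW : WeylHyp σ K₁ (c / 4) (6 * max C 1)) {F : ℝ} {x y U : ℕ} (hxy : y ≤ 2 * x)
    (hU2 : 2 ≤ U) (hU' : x < (U + 1) ^ 3)
    (hx4 : (4 : ℝ) ≤ (x : ℝ) ^ (c / 4))
    (hF1 : (x : ℝ) ^ (1 + c) ≤ |F|) (hF2 : |F| ≤ (x : ℝ) ^ C) :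
    ‖∑ n ∈ Ioc x y, (((bb U * (ArithmeticFunction.vonMangoldt
        - trunc ArithmeticFunction.vonMangoldt U)) n : ℝ) : ℂ) * ee (F / n)‖
      ≤ 80 * K₁ * (1 + Real.log (2 * x)) ^ 4 * (x : ℝ) ^ (1 - min (σ / 3) (c / 2) / 2) := by
  have hx1 : 1 ≤ x := by
    rcases Nat.eq_zero_or_pos x with h | h
    · exfalso
      rw [h] at hx4
      rw [Nat.cast_zero, Real.zero_rpow (by positivity)] at hx4
      linarith
    · exact h
  have hxr : (1 : ℝ) ≤ x := by exact_mod_cast hx1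
  have hx0 : (0 : ℝ) < x := by linarith
  have hlog2x : 0 ≤ Real.log (2 * x) := Real.log_nonneg (by linarith)
  rw [conv_weight]
  obtain ⟨n, hn⟩ : ∃ n : ℕ, n = Nat.log 2 (2 * x) + 1 := ⟨_, rfl⟩
  have hpow : 2 * x < 2 ^ n := by
    rw [hn]
    exact Nat.lt_pow_succ_log_self (by norm_num) _
  have hUn : y ≤ U * 2 ^ n := by nlinarith [Nat.one_le_two_pow (n := n)]
  have h1 : ∑ d ∈ Icc 1 y, ((bb U d : ℝ) : ℂ) * ∑ h ∈ Ioc (x / d) (y / d),
      (((ArithmeticFunction.vonMangoldt - trunc ArithmeticFunction.vonMangoldt U) h : ℝ) : ℂ)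
        * ee (F / ((d * h : ℕ) : ℝ)) = ∑ k ∈ Ioc U (U * 2 ^ n), ff U x y F k := by
    have e0 : ∀ k, k ≤ U → ff U x y F k = 0 := by
      intro k hk
      rw [ff, bb_small U k hk]
      simp
    have e1 : ∀ k, y < k → ff U x y F k = 0 := by
      intro k hk
      rw [ff, Nat.div_eq_of_lt hk, Finset.Ioc_eq_empty (Nat.not_lt_zero _), sum_empty, mul_zero]
    have e2 : ∑ k ∈ Icc 1 y, ff U x y F k = ∑ k ∈ Icc 1 (U * 2 ^ n), ff U x y F k := by
      refine sum_subset ?_ fun k _ hk => ?_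
      · intro k hk
        rw [mem_Icc] at hk ⊢
        omega
      · rw [mem_Icc] at hk
        rcases Nat.eq_zero_or_pos k with h | h
        · exact e0 k (by omega)
        · exact e1 k (by omega)
    have e3 : ∑ k ∈ Ioc U (U * 2 ^ n), ff U x y F k = ∑ k ∈ Icc 1 (U * 2 ^ n), ff U x y F k := by
      refine sum_subset ?_ fun k hk1 hk => ?_
      · intro k hk
        rw [mem_Ioc] at hk
        rw [mem_Icc]
        omega
      · rw [mem_Icc] at hk1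
        rw [mem_Ioc] at hk
        exact e0 k (by omega)
    rw [e3, ← e2]
    rfl
  rw [h1, sum_dyadic]
  refine (norm_sum_le _ _).trans ?_
  obtain ⟨ℓ, hℓdef⟩ : ∃ ℓ : ℝ, ℓ = 1 + Real.log (2 * x) := ⟨_, rfl⟩
  have hℓ : 1 ≤ ℓ := by linarith
  have hnl : (n : ℝ) ≤ 2 * ℓ := by
    have h2 : ((Nat.log 2 (2 * x) : ℕ) : ℝ) ≤ Real.logb 2 ((2 * x : ℕ) : ℝ) := by
      exact_mod_cast Real.natLog_le_logb (2 * x) 2
    have h3 : Real.logb 2 ((2 * x : ℕ) : ℝ) = Real.log (2 * x) / Real.log 2 := by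
      rw [Real.logb]
      push_cast
      rfl
    rw [h3] at h2
    have h4 : Real.log (2 * x) / Real.log 2 ≤ 2 * Real.log (2 * x) := by
      rw [div_le_iff₀ (by have := Real.log_two_gt_d9; linarith)]
      nlinarith [Real.log_two_gt_d9]
    rw [hn, hℓdef]
    push_cast
    linarith
  calc ∑ i ∈ range n, ‖∑ k ∈ Ioc (U * 2 ^ i) (2 * (U * 2 ^ i)), ff U x y F k‖
      ≤ ∑ i ∈ range n, 40 * K₁ * (1 + Real.log (2 * x)) ^ 3
          * (x : ℝ) ^ (1 - min (σ / 3) (c / 2) / 2) := by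
        refine sum_le_sum fun i _ => ?_
        exact typeII_block hσ hσ1 hc hK₁ hW hxy hU2 hU'
          (Nat.le_mul_of_pos_right _ (by positivity)) hx4 hF1 hF2
    _ = n * (40 * K₁ * ℓ ^ 3 * (x : ℝ) ^ (1 - min (σ / 3) (c / 2) / 2)) := by
        rw [sum_const, card_range, nsmul_eq_mul, hℓdef]
    _ ≤ 2 * ℓ * (40 * K₁ * ℓ ^ 3 * (x : ℝ) ^ (1 - min (σ / 3) (c / 2) / 2)) := by
        gcongr
    _ = 80 * K₁ * (1 + Real.log (2 * x)) ^ 4 * (x : ℝ) ^ (1 - min (σ / 3) (c / 2) / 2) := by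
        rw [hℓdef]
        ring

/-- Power saving for exponential sums over primes with the phase `F/n`. -/
theorem lambda_sum (c C : ℝ) (hc : 0 < c) :
    ∃ σ : ℝ, 0 < σ ∧ σ ≤ 1 ∧ ∃ K : ℝ, 1 ≤ K ∧ ∀ (F : ℝ) (x y : ℕ), 1 ≤ x → y ≤ 2 * x →
      (x : ℝ) ^ (1 + c) ≤ |F| → |F| ≤ (x : ℝ) ^ C →
      ‖∑ n ∈ Ioc x y, ((ArithmeticFunction.vonMangoldt n : ℝ) : ℂ) * ee (F / n)‖
        ≤ K * (x : ℝ) ^ (1 - σ) := by
  obtain ⟨σ, hσ, hσ1, K₁, hK₁, hW⟩ := weyl_inv (c / 4) (6 * max C 1) (by positivity)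
  set δ : ℝ := min (σ / 3) (c / 2) with hδ
  have hδ0 : 0 < δ := by positivity
  have hδ1 : δ ≤ σ / 3 := min_le_left _ _
  set η : ℝ := δ / 16 with hη
  have hη0 : 0 < η := by positivity
  set K₂ : ℝ := (2 + 1 / η) ^ 4 with hK₂
  have hK₂1 : 1 ≤ K₂ := by
    apply one_le_pow₀
    have : 0 < 1 / η := by positivity
    linarith
  set x₀ : ℕ := max 8 ⌈(4 : ℝ) ^ (4 / c)⌉₊ with hx₀
  refine ⟨δ / 4, by positivity, by linarith, 82 * K₁ * K₂ + 4 * (x₀ : ℝ) ^ 2, ?_, ?_⟩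
  · have : (0 : ℝ) ≤ 4 * (x₀ : ℝ) ^ 2 := by positivity
    nlinarith
  intro F x y hx1 hxy hF1 hF2
  have hxr : (1 : ℝ) ≤ x := by exact_mod_cast hx1
  have hx0 : (0 : ℝ) < x := by linarith
  have hxσ : 1 ≤ (x : ℝ) ^ (1 - δ / 4) := Real.one_le_rpow hxr (by linarith)
  rcases Nat.lt_or_ge x x₀ with hsmall | hlarge
  · have h1 : ‖∑ n ∈ Ioc x y, ((ArithmeticFunction.vonMangoldt n : ℝ) : ℂ) * ee (F / n)‖
        ≤ 4 * (x : ℝ) ^ 2 := by
      refine (norm_sum_le _ _).trans ?_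
      calc ∑ n ∈ Ioc x y, ‖((ArithmeticFunction.vonMangoldt n : ℝ) : ℂ) * ee (F / n)‖
          ≤ ∑ n ∈ Ioc x y, (2 * (x : ℝ)) := by
            refine sum_le_sum fun n hn => ?_
            rw [mem_Ioc] at hn
            rw [norm_mul, norm_ee, mul_one, Complex.norm_real, Real.norm_eq_abs,
              abs_of_nonneg ArithmeticFunction.vonMangoldt_nonneg]
            refine ArithmeticFunction.vonMangoldt_le_log.trans ?_
            refine (Real.log_le_self (by positivity)).trans ?_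
            exact_mod_cast (hn.2.trans hxy)
        _ ≤ (2 * (x : ℝ)) * (2 * (x : ℝ)) := by
            rw [sum_const, Nat.card_Ioc, nsmul_eq_mul]
            have : ((y - x : ℕ) : ℝ) ≤ 2 * x := by exact_mod_cast (by omega : y - x ≤ 2 * x)
            gcongr
        _ = 4 * (x : ℝ) ^ 2 := by ring
    have h2 : (x : ℝ) ≤ x₀ := by exact_mod_cast hsmall.le
    have h3 : (x : ℝ) ^ 2 ≤ (x₀ : ℝ) ^ 2 := by gcongr
    calc _ ≤ 4 * (x : ℝ) ^ 2 := h1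
      _ ≤ 82 * K₁ * K₂ + 4 * (x₀ : ℝ) ^ 2 := by
        have : 0 ≤ 82 * K₁ * K₂ := by positivity
        linarith
      _ ≤ (82 * K₁ * K₂ + 4 * (x₀ : ℝ) ^ 2) * (x : ℝ) ^ (1 - δ / 4) := by
        apply le_mul_of_one_le_right _ hxσ
        positivity
  · obtain ⟨U, _, hU, hU'⟩ := exists_cuberoot x hx1
    have hx8 : 8 ≤ x := (le_max_left _ _).trans hlarge
    have hU2 : 2 ≤ U := by
      by_contra hcon
      have hU1 : U ≤ 1 := by omega
      have : (U + 1) ^ 3 ≤ 2 ^ 3 := Nat.pow_le_pow_left (by omega) 3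
      omega
    have hx4 : (4 : ℝ) ≤ (x : ℝ) ^ (c / 4) := by
      have h1 : (4 : ℝ) ^ (4 / c) ≤ x :=
        (Nat.le_ceil _).trans (by exact_mod_cast (le_max_right _ _).trans hlarge)
      have h2 : ((4 : ℝ) ^ (4 / c)) ^ (c / 4) ≤ (x : ℝ) ^ (c / 4) :=
        Real.rpow_le_rpow (by positivity) h1 (by positivity)
      rw [← Real.rpow_mul (by norm_num)] at h2
      have h3 : 4 / c * (c / 4) = 1 := by field_simp
      rwa [h3, Real.rpow_one] at h2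
    have hF1' : (x : ℝ) ^ (1 + c / 4) ≤ |F| :=
      (Real.rpow_le_rpow_of_exponent_le hxr (by linarith)).trans hF1
    obtain ⟨hI1, hI2⟩ := typeI_bound hσ hσ1 hK₁ (by positivity : 0 < c / 4) hW hxy hU2 hU hU'
      hF1' hF2
    have hII := typeII_bound hσ hσ1 hc hK₁ hW hxy hU2 hU' hx4 hF1 hF2
    obtain ⟨ℓ, hℓdef⟩ : ∃ ℓ : ℝ, ℓ = 1 + Real.log (2 * x) := ⟨_, rfl⟩
    rw [← hℓdef] at hI1 hI2 hII
    rw [← hδ] at hII
    have hlog2x : 0 ≤ Real.log (2 * x) := Real.log_nonneg (by linarith)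
    have hℓ : 1 ≤ ℓ := by linarith
    have hdec : ∑ n ∈ Ioc x y, ((ArithmeticFunction.vonMangoldt n : ℝ) : ℂ) * ee (F / n)
        = ∑ n ∈ Ioc x y, (((trunc muR U * ArithmeticFunction.log) n : ℝ) : ℂ) * ee (F / n)
          - ∑ n ∈ Ioc x y, ((((trunc ArithmeticFunction.vonMangoldt U * trunc muR U) * zeR) n
              : ℝ) : ℂ) * ee (F / n)
          + ∑ n ∈ Ioc x y, (((bb U * (ArithmeticFunction.vonMangoldt
              - trunc ArithmeticFunction.vonMangoldt U)) n : ℝ) : ℂ) * ee (F / n) := by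
      rw [← sum_sub_distrib, ← sum_add_distrib]
      refine sum_congr rfl fun n hn => ?_
      rw [mem_Ioc] at hn
      have hnU : ¬ n ≤ U := by
        have : U ≤ U ^ 3 := Nat.le_self_pow (by norm_num) U
        omega
      have hv : ArithmeticFunction.vonMangoldt n
          = (trunc muR U * ArithmeticFunction.log) n
            - ((trunc ArithmeticFunction.vonMangoldt U * trunc muR U) * zeR) n
            + (bb U * (ArithmeticFunction.vonMangoldt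
              - trunc ArithmeticFunction.vonMangoldt U)) n := by
        have h0 := congrArg (fun f : ArithmeticFunction ℝ => f n) (vaughan U U)
        beta_reduce at h0
        rw [ArithmeticFunction.add_apply, sub_apply', ArithmeticFunction.add_apply, trunc_apply,
          if_neg hnU] at h0
        rw [zero_add] at h0
        exact h0
      have hv' := congrArg (fun r : ℝ => (r : ℂ)) hv
      beta_reduce at hv'
      rw [hv']
      push_cast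
      ring
    have hx13 : (x : ℝ) ^ (1 - σ / 3) ≤ (x : ℝ) ^ (1 - δ / 2) :=
      Real.rpow_le_rpow_of_exponent_le hxr (by linarith)
    have hℓ34 : ℓ ^ 3 ≤ ℓ ^ 4 := pow_le_pow_right₀ hℓ (by norm_num)
    have hI : ∀ z : ℝ, z ≤ ℓ ^ 3 * (K₁ * (x : ℝ) ^ (1 - σ / 3)) →
        z ≤ K₁ * ℓ ^ 4 * (x : ℝ) ^ (1 - δ / 2) := by
      intro z hz
      refine hz.trans ?_
      calc ℓ ^ 3 * (K₁ * (x : ℝ) ^ (1 - σ / 3)) ≤ ℓ ^ 4 * (K₁ * (x : ℝ) ^ (1 - δ / 2)) := by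
            gcongr
        _ = _ := by ring
    have htot : ‖∑ n ∈ Ioc x y, ((ArithmeticFunction.vonMangoldt n : ℝ) : ℂ) * ee (F / n)‖
        ≤ 82 * K₁ * ℓ ^ 4 * (x : ℝ) ^ (1 - δ / 2) := by
      rw [hdec]
      refine (norm_add_le _ _).trans ?_
      refine (add_le_add ((norm_sub_le _ _).trans (add_le_add (hI _ hI1) (hI _ hI2))) hII).trans ?_
      linarith
    have hℓx : ℓ ^ 4 ≤ K₂ * (x : ℝ) ^ (δ / 4) := by
      have h1 : ℓ ≤ (2 + 1 / η) * (x : ℝ) ^ η := by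
        have h2 : Real.log (2 * x) = Real.log 2 + Real.log x :=
          Real.log_mul (by norm_num) hx0.ne'
        have h3 : Real.log 2 ≤ 1 := by
          have := Real.log_two_lt_d9
          linarith
        have h4 : Real.log x ≤ (x : ℝ) ^ η / η := Real.log_le_rpow_div hx0.le hη0
        have h5 : 1 ≤ (x : ℝ) ^ η := Real.one_le_rpow hxr hη0.le
        calc ℓ ≤ 2 + (x : ℝ) ^ η / η := by rw [hℓdef, h2]; linarith
          _ ≤ 2 * (x : ℝ) ^ η + (x : ℝ) ^ η / η := by linarith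
          _ = (2 + 1 / η) * (x : ℝ) ^ η := by ring
      have h6 : ((x : ℝ) ^ η) ^ 4 = (x : ℝ) ^ (δ / 4) := by
        rw [← Real.rpow_natCast, ← Real.rpow_mul hx0.le]
        congr 1
        rw [hη]
        push_cast
        ring
      calc ℓ ^ 4 ≤ ((2 + 1 / η) * (x : ℝ) ^ η) ^ 4 := by gcongr
        _ = K₂ * (x : ℝ) ^ (δ / 4) := by rw [mul_pow, h6]
    calc ‖∑ n ∈ Ioc x y, ((ArithmeticFunction.vonMangoldt n : ℝ) : ℂ) * ee (F / n)‖
        ≤ 82 * K₁ * ℓ ^ 4 * (x : ℝ) ^ (1 - δ / 2) := htot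
      _ ≤ 82 * K₁ * (K₂ * (x : ℝ) ^ (δ / 4)) * (x : ℝ) ^ (1 - δ / 2) := by gcongr
      _ = 82 * K₁ * K₂ * (x : ℝ) ^ (1 - δ / 4) := by
          have : (x : ℝ) ^ (1 - δ / 4) = (x : ℝ) ^ (δ / 4) * (x : ℝ) ^ (1 - δ / 2) := by
            rw [← Real.rpow_add hx0]
            congr 1
            ring
          rw [this]
          ring
      _ ≤ (82 * K₁ * K₂ + 4 * (x₀ : ℝ) ^ 2) * (x : ℝ) ^ (1 - δ / 4) := by
          apply mul_le_mul_of_nonneg_right _ (by positivity)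
          have : (0 : ℝ) ≤ 4 * (x₀ : ℝ) ^ 2 := by positivity
          linarith

end ESU
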