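import Pool.Agent.Helper48.ESU.Wz

/-!
Power saving for the sums of `e(G/d)` over `Y ≤ d ≤ 8Y`, `Y^(1+c) ≤ |G| ≤ Y^C`: assembly.
-/

open Finset

namespace ESU

theorem weyl_inv_range (c C : ℝ) (hc : 0 < c) :
    ∃ σ : ℝ, 0 < σ ∧ σ ≤ 1 ∧ ∃ K : ℝ, 1 ≤ K ∧ ∀ (G : ℝ) (Y a n : ℕ), 1 ≤ Y → Y ≤ a →
      a + n ≤ 8 * Y → (Y : ℝ) ^ (1 + c) ≤ |G| → |G| ≤ (Y : ℝ) ^ C →
      ‖∑ i ∈ range n, ee (G / ((a + i : ℕ) : ℝ))‖ ≤ K * (Y : ℝ) ^ (1 - σ) := by
  set c1 : ℝ := min c (1 / 2) with hc1def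
  have hc1pos : 0 < c1 := by positivity
  have hc1half : c1 ≤ 1 / 2 := min_le_right _ _
  have hc1c : c1 ≤ c := min_le_left _ _
  set Jm : ℕ := max 2 ⌈C⌉₊ with hJm
  have hJm2 : 2 ≤ Jm := le_max_left _ _
  have hJmC : C ≤ (Jm : ℝ) := (Nat.le_ceil C).trans (by exact_mod_cast le_max_right _ _)
  set c5 : ℝ := c1 / 4 with hc5
  have hc5pos : 0 < c5 := by positivity
  have hc5le : c5 ≤ 1 / 8 := by rw [hc5]; linarith
  obtain ⟨σW, hσW, hσW1, KW, hKW, hW⟩ := weyl_poly_unif (c5 / 2) (by positivity) (by linarith) Jm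
  set M : ℝ := max (2 * (Jm.factorial : ℝ)) ((2 : ℝ) ^ Jm * (8 : ℝ) ^ (Jm + 1)) with hM
  have hMpos : 1 ≤ M := by
    have h1 : (1 : ℝ) ≤ (2 : ℝ) ^ Jm := one_le_pow₀ (by norm_num)
    have h2 : (1 : ℝ) ≤ (8 : ℝ) ^ (Jm + 1) := one_le_pow₀ (by norm_num)
    exact (one_le_mul_of_one_le_of_one_le h1 h2).trans (le_max_right _ _)
  set H0 : ℕ := ⌈M ^ (2 / c5)⌉₊ with hH0
  have hJm0 : (0 : ℝ) < Jm := by exact_mod_cast (by omega : 0 < Jm)
  refine ⟨min (σW / Jm) (c1 / 8), by positivity, ?_,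
    16 * KW + 16 * Real.pi + 2 + 8 * ((H0 : ℝ) + 1) ^ Jm, ?_, ?_⟩
  · exact (min_le_right _ _).trans (by linarith)
  · have := Real.pi_pos
    have : (0 : ℝ) ≤ 8 * ((H0 : ℝ) + 1) ^ Jm := by positivity
    linarith
  intro G Y a n hY hYa han hG1 hG2
  set σ : ℝ := min (σW / Jm) (c1 / 8) with hσ
  have hσpos : 0 < σ := by positivity
  have hσ1 : σ ≤ σW / Jm := min_le_left _ _
  have hσ2 : σ ≤ c1 / 8 := min_le_right _ _
  have hYr : (1 : ℝ) ≤ Y := by exact_mod_cast hY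
  have hY0 : (0 : ℝ) < Y := by linarith
  have hpi := Real.pi_pos
  have hG0 : 1 ≤ |G| := (Real.one_le_rpow hYr (by linarith)).trans hG1
  have hGpos : 0 < |G| := by linarith
  have hYσ : 1 ≤ (Y : ℝ) ^ (1 - σ) := Real.one_le_rpow hYr (by linarith)
  have hn8 : (n : ℝ) ≤ 8 * Y := by exact_mod_cast (by omega : n ≤ 8 * Y)
  have htriv : ‖∑ i ∈ range n, ee (G / ((a + i : ℕ) : ℝ))‖ ≤ 8 * Y :=
    (sum_norm_le_card (fun i => G / ((a + i : ℕ) : ℝ)) n).trans hn8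
  -- choice of the degree
  have hex : ∃ J : ℕ, 2 ≤ J ∧ |G| ≤ (Y : ℝ) ^ J := by
    refine ⟨Jm, hJm2, hG2.trans ?_⟩
    rw [← Real.rpow_natCast]
    exact Real.rpow_le_rpow_of_exponent_le hYr hJmC
  obtain ⟨J, ⟨hJ2, hJG⟩, hJmin⟩ : ∃ J : ℕ, (2 ≤ J ∧ |G| ≤ (Y : ℝ) ^ J) ∧
      ∀ m < J, ¬ (2 ≤ m ∧ |G| ≤ (Y : ℝ) ^ m) := by
    classical
    exact ⟨Nat.find hex, Nat.find_spec hex, fun m hm => Nat.find_min hex hm⟩
  have hJJm : J ≤ Jm := by
    by_contra hcon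
    push Not at hcon
    apply hJmin Jm hcon
    refine ⟨hJm2, hG2.trans ?_⟩
    rw [← Real.rpow_natCast]
    exact Real.rpow_le_rpow_of_exponent_le hYr hJmC
  have hJr2 : (2 : ℝ) ≤ J := by exact_mod_cast hJ2
  set b : ℝ := (Y : ℝ) ^ (J + 1) / |G| with hb
  have hbpos : 0 < b := by positivity
  have hbY : (Y : ℝ) ≤ b := by
    rw [hb, le_div_iff₀ hGpos, pow_succ, mul_comm]
    gcongr
  have hJc : 0 < (J : ℝ) - c5 := by linarith
  set e : ℝ := ((J : ℝ) - c5) * (1 - c1 / 8) / (1 + c5) with he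
  have hbe : b ≤ (Y : ℝ) ^ e := by
    rcases Nat.lt_or_ge 2 J with h3 | h3
    · have hnot := hJmin (J - 1) (by omega)
      have h4 : (Y : ℝ) ^ (J - 1) < |G| := by
        by_contra hcon
        push Not at hcon
        exact hnot ⟨by omega, hcon⟩
      have h5 : b ≤ (Y : ℝ) ^ (2 : ℝ) := by
        rw [hb, div_le_iff₀ hGpos, Real.rpow_two]
        have : (Y : ℝ) ^ (J + 1) = (Y : ℝ) ^ 2 * (Y : ℝ) ^ (J - 1) := by
          rw [← pow_add]
          congr 1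
          omega
        rw [this]
        gcongr
      refine h5.trans (Real.rpow_le_rpow_of_exponent_le hYr ?_)
      rw [he, le_div_iff₀ (by linarith)]
      have hJ3 : (3 : ℝ) ≤ J := by exact_mod_cast h3
      nlinarith
    · have hJ : J = 2 := by omega
      have h5 : b ≤ (Y : ℝ) ^ (2 - c1) := by
        rw [hb, div_le_iff₀ hGpos, hJ]
        calc (Y : ℝ) ^ (2 + 1) = (Y : ℝ) ^ (2 - c1) * (Y : ℝ) ^ (1 + c1) := by
              rw [← Real.rpow_add hY0, ← Real.rpow_natCast]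
              congr 1
              push_cast
              ring
          _ ≤ (Y : ℝ) ^ (2 - c1) * |G| := by
              gcongr
              exact (Real.rpow_le_rpow_of_exponent_le hYr (by linarith)).trans hG1
      refine h5.trans (Real.rpow_le_rpow_of_exponent_le hYr ?_)
      rw [he, le_div_iff₀ (by linarith), hJ, hc5]
      push_cast
      nlinarith [mul_pos hc1pos hc1pos]
  set u : ℝ := b ^ (1 / ((J : ℝ) - c5)) with hu
  have hb1 : 1 ≤ b := hYr.trans hbY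
  have hu1 : 1 ≤ u := Real.one_le_rpow hb1 (by positivity)
  have hu0 : 0 < u := by linarith
  have hub : u ^ ((J : ℝ) - c5) = b := by
    rw [hu, ← Real.rpow_mul hbpos.le, one_div, inv_mul_cancel₀ hJc.ne', Real.rpow_one]
  have huY : (Y : ℝ) ≤ u ^ (Jm : ℝ) := by
    calc (Y : ℝ) ≤ b := hbY
      _ = u ^ ((J : ℝ) - c5) := hub.symm
      _ ≤ u ^ (Jm : ℝ) := by
        apply Real.rpow_le_rpow_of_exponent_le hu1
        have : (J : ℝ) ≤ Jm := by exact_mod_cast hJJm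
        linarith
  have hu3 : u ^ (1 + c5) ≤ (Y : ℝ) ^ (1 - c1 / 8) := by
    have h1 : u ≤ (Y : ℝ) ^ (e * (1 / ((J : ℝ) - c5))) := by
      rw [Real.rpow_mul hY0.le, hu]
      exact Real.rpow_le_rpow hbpos.le hbe (by positivity)
    have h2 : u ^ (1 + c5) ≤ ((Y : ℝ) ^ (e * (1 / ((J : ℝ) - c5)))) ^ (1 + c5) :=
      Real.rpow_le_rpow hu0.le h1 (by linarith)
    rw [← Real.rpow_mul hY0.le] at h2
    have h3 : e * (1 / ((J : ℝ) - c5)) * (1 + c5) = 1 - c1 / 8 := by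
      rw [he]
      field_simp
    rw [h3] at h2
    exact h2
  set H : ℕ := ⌊u⌋₊ with hH
  have hHu : (H : ℝ) ≤ u := Nat.floor_le hu0.le
  have huH : u < H + 1 := Nat.lt_floor_add_one u
  have hH1 : 1 ≤ H := Nat.le_floor (by exact_mod_cast hu1)
  have hHr : (1 : ℝ) ≤ H := by exact_mod_cast hH1
  have hH0' : (0 : ℝ) < H := by linarith
  have hKbig : (0 : ℝ) ≤ 8 * ((H0 : ℝ) + 1) ^ Jm := by positivity
  rcases Nat.lt_or_ge H H0 with hsmall | hlarge
  · -- trivial bound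
    have h1 : (Y : ℝ) ≤ ((H0 : ℝ) + 1) ^ Jm := by
      refine huY.trans ?_
      rw [Real.rpow_natCast]
      have : (H : ℝ) ≤ H0 := by exact_mod_cast hsmall.le
      gcongr
      linarith
    calc ‖∑ i ∈ range n, ee (G / ((a + i : ℕ) : ℝ))‖ ≤ 8 * Y := htriv
      _ ≤ 8 * ((H0 : ℝ) + 1) ^ Jm := by linarith
      _ ≤ 16 * KW + 16 * Real.pi + 2 + 8 * ((H0 : ℝ) + 1) ^ Jm := by linarith
      _ ≤ (16 * KW + 16 * Real.pi + 2 + 8 * ((H0 : ℝ) + 1) ^ Jm) * (Y : ℝ) ^ (1 - σ) := by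
        apply le_mul_of_one_le_right _ hYσ
        linarith
  · -- main case
    have hMH : M ≤ (H : ℝ) ^ (c5 / 2) := by
      have h1 : M ^ (2 / c5) ≤ H := (Nat.le_ceil _).trans (by exact_mod_cast hlarge)
      have h2 : (M ^ (2 / c5)) ^ (c5 / 2) ≤ (H : ℝ) ^ (c5 / 2) :=
        Real.rpow_le_rpow (by positivity) h1 (by positivity)
      rw [← Real.rpow_mul (by linarith)] at h2
      have h3 : 2 / c5 * (c5 / 2) = 1 := by field_simp
      rwa [h3, Real.rpow_one] at h2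
    obtain ⟨j, rfl⟩ : ∃ j, J = j + 1 := ⟨J - 1, by omega⟩
    have hbH : (H : ℝ) ^ (((j + 1 : ℕ) : ℝ) - c5) ≤ b := by
      rw [← hub]
      exact Real.rpow_le_rpow hH0'.le hHu hJc.le
    have hbH2 : b ≤ (2 : ℝ) ^ (j + 1) * (H : ℝ) ^ (((j + 1 : ℕ) : ℝ) - c5) := by
      rw [← hub]
      calc u ^ (((j + 1 : ℕ) : ℝ) - c5) ≤ (2 * (H : ℝ)) ^ (((j + 1 : ℕ) : ℝ) - c5) :=
            Real.rpow_le_rpow hu0.le (by linarith) hJc.le
        _ = (2 : ℝ) ^ (((j + 1 : ℕ) : ℝ) - c5) * (H : ℝ) ^ (((j + 1 : ℕ) : ℝ) - c5) :=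
            Real.mul_rpow (by norm_num) hH0'.le
        _ ≤ (2 : ℝ) ^ (j + 1) * (H : ℝ) ^ (((j + 1 : ℕ) : ℝ) - c5) := by
            gcongr
            rw [← Real.rpow_natCast]
            exact Real.rpow_le_rpow_of_exponent_le (by norm_num) (by linarith)
    have hrem : |G| * (H : ℝ) ^ (j + 1 + 1) / (Y : ℝ) ^ (j + 1 + 2) ≤ (Y : ℝ) ^ (-(c1 / 8)) := by
      have e1 : |G| * (H : ℝ) ^ (j + 1 + 1) / (Y : ℝ) ^ (j + 1 + 2)
          = (H : ℝ) ^ (j + 1 + 1) / (b * Y) := by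
        rw [hb]
        field_simp
        ring
      rw [e1, div_le_iff₀ (by positivity)]
      have e2 : (H : ℝ) ^ (j + 1 + 1) = (H : ℝ) ^ (1 + c5) * (H : ℝ) ^ (((j + 1 : ℕ) : ℝ) - c5) := by
        rw [← Real.rpow_add hH0', ← Real.rpow_natCast]
        congr 1
        push_cast
        ring
      have e3 : (H : ℝ) ^ (1 + c5) ≤ (Y : ℝ) ^ (1 - c1 / 8) :=
        (Real.rpow_le_rpow hH0'.le hHu (by linarith)).trans hu3
      have e4 : (Y : ℝ) ^ (-(c1 / 8)) * (b * Y) = (Y : ℝ) ^ (1 - c1 / 8) * b := by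
        have : (Y : ℝ) ^ (1 - c1 / 8) = (Y : ℝ) ^ (-(c1 / 8)) * Y := by
          nth_rw 3 [← Real.rpow_one (Y : ℝ)]
          rw [← Real.rpow_add hY0]
          congr 1
          ring
        rw [this]
        ring
      rw [e2, e4]
      gcongr
    -- block sums
    have hblock : ∀ i ∈ range n, ‖∑ h ∈ range H, ee (G / ((a + i + h : ℕ) : ℝ))‖
        ≤ KW * (H : ℝ) ^ (1 - σW) + H * (2 * Real.pi * (Y : ℝ) ^ (-(c1 / 8))) := by
      intro i hi
      rw [mem_range] at hi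
      have hYd : Y ≤ a + i := by omega
      have hd8 : a + i ≤ 8 * Y := by omega
      have hd0 : (0 : ℝ) < ((a + i : ℕ) : ℝ) := by exact_mod_cast (by omega : 0 < a + i)
      have hYd' : (Y : ℝ) ≤ ((a + i : ℕ) : ℝ) := by exact_mod_cast hYd
      have hd8' : ((a + i : ℕ) : ℝ) ≤ 8 * Y := by exact_mod_cast hd8
      set d : ℕ := a + i with hd
      have hpoly := PolyD.sum_pow (fun k => G * (-1) ^ k / (d : ℝ) ^ (k + 1)) (j + 1)
      set β : ℝ := G * (-1) ^ (j + 1) / (d : ℝ) ^ (j + 1 + 1) * ((j + 1).factorial : ℝ) with hβ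
      have hβabs : |β| = |G| * ((j + 1).factorial : ℝ) / (d : ℝ) ^ (j + 1 + 1) := by
        rw [hβ, abs_mul, abs_div, abs_mul, abs_pow, abs_neg, abs_one, one_pow, mul_one,
          abs_of_pos (pow_pos hd0 _), Nat.abs_cast]
        ring
      have hfac : (1 : ℝ) ≤ ((j + 1).factorial : ℝ) := by
        exact_mod_cast Nat.one_le_iff_ne_zero.mpr (Nat.factorial_ne_zero _)
      have hfacM : 2 * ((j + 1).factorial : ℝ) ≤ M := by
        refine le_trans ?_ (le_max_left _ _)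
        have : ((j + 1).factorial : ℝ) ≤ (Jm.factorial : ℝ) := by
          exact_mod_cast Nat.factorial_le hJJm
        linarith
      have hpowM : (2 : ℝ) ^ (j + 1) * (8 : ℝ) ^ (j + 1 + 1) ≤ M := by
        refine le_trans ?_ (le_max_right _ _)
        gcongr
        · norm_num
        · norm_num
      have hW2 : (H : ℝ) ^ (c5 / 2) ≤ |β| * (H : ℝ) ^ (j + 1) := by
        have e1 : 1 / (b * (8 : ℝ) ^ (j + 1 + 1)) ≤ |β| := by
          rw [hβabs, hb]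
          have e2 : 1 / ((Y : ℝ) ^ (j + 1 + 1) / |G| * (8 : ℝ) ^ (j + 1 + 1))
              = |G| * 1 / (8 * (Y : ℝ)) ^ (j + 1 + 1) := by
            rw [mul_pow]
            field_simp
          rw [e2]
          gcongr
        have e3 : (H : ℝ) ^ (j + 1) = (H : ℝ) ^ c5 * (H : ℝ) ^ (((j + 1 : ℕ) : ℝ) - c5) := by
          rw [← Real.rpow_add hH0', ← Real.rpow_natCast]
          congr 1
          push_cast
          ring
        have e4 : (H : ℝ) ^ c5 = (H : ℝ) ^ (c5 / 2) * (H : ℝ) ^ (c5 / 2) := by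
          rw [← Real.rpow_add hH0']
          congr 1
          ring
        have hHp : 0 < (H : ℝ) ^ (c5 / 2) := by positivity
        have hHq : 0 < (H : ℝ) ^ (((j + 1 : ℕ) : ℝ) - c5) := by positivity
        have e5 : b * (8 : ℝ) ^ (j + 1 + 1)
            ≤ (H : ℝ) ^ (c5 / 2) * (H : ℝ) ^ (((j + 1 : ℕ) : ℝ) - c5) := by
          calc b * (8 : ℝ) ^ (j + 1 + 1)
              ≤ (2 : ℝ) ^ (j + 1) * (H : ℝ) ^ (((j + 1 : ℕ) : ℝ) - c5)
                * (8 : ℝ) ^ (j + 1 + 1) := mul_le_mul_of_nonneg_right hbH2 (by positivity)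
            _ = (2 : ℝ) ^ (j + 1) * (8 : ℝ) ^ (j + 1 + 1)
                * (H : ℝ) ^ (((j + 1 : ℕ) : ℝ) - c5) := by ring
            _ ≤ (H : ℝ) ^ (c5 / 2) * (H : ℝ) ^ (((j + 1 : ℕ) : ℝ) - c5) :=
                mul_le_mul_of_nonneg_right (hpowM.trans hMH) hHq.le
        calc (H : ℝ) ^ (c5 / 2)
            = (H : ℝ) ^ (c5 / 2) * (b * (8 : ℝ) ^ (j + 1 + 1)) / (b * (8 : ℝ) ^ (j + 1 + 1)) := by
              rw [mul_div_assoc, div_self (by positivity), mul_one]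
          _ ≤ (H : ℝ) ^ (c5 / 2) * ((H : ℝ) ^ (c5 / 2) * (H : ℝ) ^ (((j + 1 : ℕ) : ℝ) - c5))
              / (b * (8 : ℝ) ^ (j + 1 + 1)) :=
              div_le_div_of_nonneg_right (mul_le_mul_of_nonneg_left e5 hHp.le) (by positivity)
          _ = 1 / (b * (8 : ℝ) ^ (j + 1 + 1)) * (H : ℝ) ^ (j + 1) := by
              rw [e3, e4]
              ring
          _ ≤ |β| * (H : ℝ) ^ (j + 1) := by gcongr
      have hW1 : |β| * (H : ℝ) ^ j ≤ 1 / 2 := by
        have e1 : |β| ≤ ((j + 1).factorial : ℝ) / b := by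
          rw [hβabs, hb]
          have e2 : ((j + 1).factorial : ℝ) / ((Y : ℝ) ^ (j + 1 + 1) / |G|)
              = |G| * ((j + 1).factorial : ℝ) / (Y : ℝ) ^ (j + 1 + 1) := by
            field_simp
          rw [e2]
          gcongr
        have e3 : (H : ℝ) ^ (((j + 1 : ℕ) : ℝ) - c5) = (H : ℝ) ^ (1 - c5) * (H : ℝ) ^ j := by
          rw [← Real.rpow_natCast (H : ℝ) j, ← Real.rpow_add hH0']
          congr 1
          push_cast
          ring
        have e4 : M ≤ (H : ℝ) ^ (1 - c5) :=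
          hMH.trans (Real.rpow_le_rpow_of_exponent_le hHr (by linarith))
        have hHj : 0 < (H : ℝ) ^ j := by positivity
        calc |β| * (H : ℝ) ^ j ≤ ((j + 1).factorial : ℝ) / b * (H : ℝ) ^ j := by gcongr
          _ ≤ ((j + 1).factorial : ℝ) / (H : ℝ) ^ (((j + 1 : ℕ) : ℝ) - c5) * (H : ℝ) ^ j := by
              gcongr
          _ = ((j + 1).factorial : ℝ) / (H : ℝ) ^ (1 - c5) := by
              rw [e3]
              field_simp
          _ ≤ 1 / 2 := by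
              rw [div_le_div_iff₀ (by positivity) (by norm_num)]
              linarith
      have hjJm : j ≤ Jm := by omega
      have hfin := hW j hjJm H β hH1 hW2 hW1 _ hpoly H le_rfl
      have := block_bound G d Y H (j + 1) hY hYd _ hfin
      refine this.trans ?_
      gcongr
    have havg := shift_avg (fun m => ee (G / (m : ℝ))) (fun m => (norm_ee _).le) a n H
    have hsum : ∑ i ∈ range n, ‖∑ h ∈ range H, ee (G / ((a + i + h : ℕ) : ℝ))‖
        ≤ 8 * Y * (KW * (H : ℝ) ^ (1 - σW) + H * (2 * Real.pi * (Y : ℝ) ^ (-(c1 / 8)))) := by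
      refine (sum_le_sum hblock).trans ?_
      rw [sum_const, card_range, nsmul_eq_mul]
      gcongr
    have hHσ : (H : ℝ) ^ (1 - σW) ≤ H * (2 * (Y : ℝ) ^ (-σ)) := by
      have e1 : (H : ℝ) ^ (1 - σW) = H * (H : ℝ) ^ (-σW) := by
        nth_rw 2 [← Real.rpow_one (H : ℝ)]
        rw [← Real.rpow_add hH0']
        congr 1
      rw [e1]
      gcongr
      have e2 : (Y : ℝ) ^ (1 / (Jm : ℝ)) ≤ 2 * H := by
        have e3 : (Y : ℝ) ^ (1 / (Jm : ℝ)) ≤ (u ^ (Jm : ℝ)) ^ (1 / (Jm : ℝ)) :=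
          Real.rpow_le_rpow hY0.le huY (by positivity)
        rw [← Real.rpow_mul hu0.le, mul_one_div_cancel hJm0.ne', Real.rpow_one] at e3
        linarith
      have e4 : (2 * (H : ℝ)) ^ (-σW) ≤ ((Y : ℝ) ^ (1 / (Jm : ℝ))) ^ (-σW) :=
        Real.rpow_le_rpow_of_nonpos (by positivity) e2 (by linarith)
      rw [← Real.rpow_mul hY0.le, Real.mul_rpow (by norm_num) hH0'.le] at e4
      have e5 : (Y : ℝ) ^ (1 / (Jm : ℝ) * -σW) ≤ (Y : ℝ) ^ (-σ) := by
        apply Real.rpow_le_rpow_of_exponent_le hYr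
        have : 1 / (Jm : ℝ) * -σW = -(σW / Jm) := by ring
        rw [this]
        linarith
      have e6 : (1 : ℝ) / 2 ≤ (2 : ℝ) ^ (-σW) := by
        have : (2 : ℝ) ^ (-1 : ℝ) ≤ (2 : ℝ) ^ (-σW) :=
          Real.rpow_le_rpow_of_exponent_le (by norm_num) (by linarith)
        rw [Real.rpow_neg_one] at this
        linarith
      have e7 : 0 < (H : ℝ) ^ (-σW) := by positivity
      nlinarith
    have hYc : (Y : ℝ) ^ (-(c1 / 8)) ≤ (Y : ℝ) ^ (-σ) :=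
      Real.rpow_le_rpow_of_exponent_le hYr (by linarith)
    have hHY : (H : ℝ) ≤ (Y : ℝ) ^ (1 - σ) := by
      calc (H : ℝ) ≤ u := hHu
        _ = u ^ (1 : ℝ) := (Real.rpow_one u).symm
        _ ≤ u ^ (1 + c5) := Real.rpow_le_rpow_of_exponent_le hu1 (by linarith)
        _ ≤ (Y : ℝ) ^ (1 - c1 / 8) := hu3
        _ ≤ (Y : ℝ) ^ (1 - σ) := Real.rpow_le_rpow_of_exponent_le hYr (by linarith)
    have hYY : (Y : ℝ) * (Y : ℝ) ^ (-σ) = (Y : ℝ) ^ (1 - σ) := by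
      nth_rw 1 [← Real.rpow_one (Y : ℝ)]
      rw [← Real.rpow_add hY0]
      congr 1
    have hmain : H * ‖∑ i ∈ range n, ee (G / ((a + i : ℕ) : ℝ))‖
        ≤ H * ((16 * KW + 16 * Real.pi + 2) * (Y : ℝ) ^ (1 - σ)) := by
      refine havg.trans ?_
      have hYn : 0 < (Y : ℝ) ^ (-σ) := by positivity
      calc ∑ i ∈ range n, ‖∑ h ∈ range H, ee (G / ((a + i + h : ℕ) : ℝ))‖ + 2 * (H : ℝ) ^ 2
          ≤ 8 * Y * (KW * (H : ℝ) ^ (1 - σW) + H * (2 * Real.pi * (Y : ℝ) ^ (-(c1 / 8))))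
            + 2 * (H : ℝ) ^ 2 := by linarith
        _ ≤ 8 * Y * (KW * (H * (2 * (Y : ℝ) ^ (-σ))) + H * (2 * Real.pi * (Y : ℝ) ^ (-σ)))
            + 2 * (H * (Y : ℝ) ^ (1 - σ)) := by
            have : (H : ℝ) ^ 2 = H * H := by ring
            rw [this]
            gcongr
        _ = H * ((16 * KW + 16 * Real.pi) * (Y * (Y : ℝ) ^ (-σ)) + 2 * (Y : ℝ) ^ (1 - σ)) := by
            ring
        _ = H * ((16 * KW + 16 * Real.pi + 2) * (Y : ℝ) ^ (1 - σ)) := by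
            rw [hYY]
            ring
    have := le_of_mul_le_mul_left hmain hH0'
    exact this.trans (mul_le_mul_of_nonneg_right (by linarith) (by positivity))

/-- The same bound for intervals `Ico a b`. -/
theorem weyl_inv (c C : ℝ) (hc : 0 < c) :
    ∃ σ : ℝ, 0 < σ ∧ σ ≤ 1 ∧ ∃ K : ℝ, 1 ≤ K ∧ ∀ (G : ℝ) (Y a b : ℕ), 1 ≤ Y → Y ≤ a →
      b ≤ 8 * Y → (Y : ℝ) ^ (1 + c) ≤ |G| → |G| ≤ (Y : ℝ) ^ C →
      ‖∑ d ∈ Ico a b, ee (G / (d : ℝ))‖ ≤ K * (Y : ℝ) ^ (1 - σ) := by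
  obtain ⟨σ, h1, h2, K, h3, h4⟩ := weyl_inv_range c C hc
  refine ⟨σ, h1, h2, K, h3, fun G Y a b hY hYa hb hG1 hG2 => ?_⟩
  rcases Nat.lt_or_ge b a with hlt | hge
  · rw [Finset.Ico_eq_empty (by omega), sum_empty, norm_zero]
    positivity
  · rw [Finset.sum_Ico_eq_sum_range]
    exact h4 G Y a (b - a) hY hYa (by omega) hG1 hG2

end ESU
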