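import Mathlib

/-!
Weyl differencing for polynomial phases with a leading coefficient in a fixed power range.
-/

open Finset

namespace ESU

/-- `ee t = exp (2 π i t)`. -/
noncomputable def ee (t : ℝ) : ℂ := Complex.exp (((2 * Real.pi * t : ℝ) : ℂ) * Complex.I)

lemma norm_ee (t : ℝ) : ‖ee t‖ = 1 := by
  unfold ee
  exact Complex.norm_exp_ofReal_mul_I _

lemma ee_add (s t : ℝ) : ee (s + t) = ee s * ee t := by
  unfold ee
  rw [← Complex.exp_add]
  congr 1
  push_cast
  ring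

lemma ee_zero : ee 0 = 1 := by
  simp [ee]

lemma ee_neg (t : ℝ) : ee (-t) = (starRingEnd ℂ) (ee t) := by
  unfold ee
  rw [← Complex.exp_conj]
  congr 1
  rw [map_mul, Complex.conj_ofReal, Complex.conj_I]
  push_cast
  ring

lemma ee_sub (s t : ℝ) : ee (s - t) = ee s * (starRingEnd ℂ) (ee t) := by
  rw [sub_eq_add_neg, ee_add, ee_neg]

lemma ee_nat_mul (n : ℕ) (t : ℝ) : ee (n * t) = ee t ^ n := by
  induction n with
  | zero => simp [ee_zero]
  | succ n ih =>
    rw [pow_succ, ← ih, ← ee_add]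
    congr 1
    push_cast
    ring

lemma norm_ee_sub_one_ge {t : ℝ} (ht : |t| ≤ 1 / 2) : 4 * |t| ≤ ‖ee t - 1‖ := by
  have h1 : ee t = Complex.exp (Complex.I * ((2 * Real.pi * t : ℝ) : ℂ)) := by
    unfold ee
    rw [mul_comm]
  rw [h1, Complex.norm_exp_I_mul_ofReal_sub_one]
  have h2 : 2 * Real.pi * t / 2 = Real.pi * t := by ring
  rw [h2, Real.norm_eq_abs, abs_mul]
  have h3 : |Real.pi * t| ≤ Real.pi / 2 := by
    rw [abs_mul, abs_of_pos Real.pi_pos]
    nlinarith [Real.pi_pos]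
  have h4 := Real.mul_abs_le_abs_sin h3
  rw [abs_mul, abs_of_pos Real.pi_pos] at h4
  have h5 : 2 / Real.pi * (Real.pi * |t|) = 2 * |t| := by
    field_simp
  rw [h5] at h4
  simp only [abs_two]
  linarith

lemma norm_ee_sub_le (s t : ℝ) : ‖ee s - ee t‖ ≤ 2 * Real.pi * |s - t| := by
  have h : ee s - ee t = ee t * (ee (s - t) - 1) := by
    rw [mul_sub, ← ee_add]
    simp
  rw [h, norm_mul, norm_ee, one_mul]
  have h1 : ee (s - t) = Complex.exp (Complex.I * ((2 * Real.pi * (s - t) : ℝ) : ℂ)) := by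
    unfold ee
    rw [mul_comm]
  rw [h1, Complex.norm_exp_I_mul_ofReal_sub_one]
  have h2 : 2 * Real.pi * (s - t) / 2 = Real.pi * (s - t) := by ring
  rw [h2, Real.norm_eq_abs, abs_mul, abs_two]
  have h3 : |Real.sin (Real.pi * (s - t))| ≤ |Real.pi * (s - t)| := Real.abs_sin_le_abs
  rw [abs_mul, abs_of_pos Real.pi_pos] at h3
  linarith

/-- Norm squared of a partial sum as diagonal plus correlations. -/
lemma normSq_sum_aux (z : ℕ → ℂ) (L : ℕ) :
    ‖∑ h ∈ range L, z h‖ ^ 2 = ∑ h ∈ range L, ‖z h‖ ^ 2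
      + 2 * (∑ h ∈ range L, ∑ h' ∈ range h, z h * (starRingEnd ℂ) (z h')).re := by
  induction L with
  | zero => simp
  | succ L ih =>
    rw [sum_range_succ, sum_range_succ, sum_range_succ, ← Complex.normSq_eq_norm_sq,
      Complex.normSq_add, Complex.normSq_eq_norm_sq, Complex.normSq_eq_norm_sq, ih]
    rw [Complex.add_re, ← mul_sum, ← map_sum]
    have h1 : ((∑ h ∈ range L, z h) * (starRingEnd ℂ) (z L)).re
        = (z L * (starRingEnd ℂ) (∑ h ∈ range L, z h)).re := by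
      simp only [Complex.mul_re, Complex.conj_re, Complex.conj_im]
      ring
    rw [h1]
    ring

lemma sum_range_triangle {M : Type*} [AddCommMonoid M] (f : ℕ → ℕ → M) (L : ℕ) :
    ∑ h ∈ range L, ∑ h' ∈ range h, f h h'
      = ∑ r ∈ Ico 1 L, ∑ h' ∈ range (L - r), f (h' + r) h' := by
  rw [Finset.sum_sigma', Finset.sum_sigma']
  refine Finset.sum_bij' (fun x _ => ⟨x.1 - x.2, x.2⟩) (fun x _ => ⟨x.2 + x.1, x.2⟩) ?_ ?_ ?_ ?_ ?_
  · rintro ⟨h, h'⟩ hx
    simp only [mem_sigma, mem_range, mem_Ico] at hx ⊢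
    omega
  · rintro ⟨r, h'⟩ hx
    simp only [mem_sigma, mem_range, mem_Ico] at hx ⊢
    omega
  · rintro ⟨h, h'⟩ hx
    simp only [mem_sigma, mem_range] at hx
    simp only [Sigma.mk.injEq, heq_eq_eq, and_true]
    omega
  · rintro ⟨r, h'⟩ hx
    simp only [mem_sigma, mem_range, mem_Ico] at hx
    simp only [Sigma.mk.injEq, heq_eq_eq, and_true]
    omega
  · rintro ⟨h, h'⟩ hx
    simp only [mem_sigma, mem_range] at hx
    have : h' + (h - h') = h := by omega
    simp only [this]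

/-- Weyl differencing. -/
lemma weyl_diff (f : ℕ → ℝ) (L : ℕ) :
    ‖∑ h ∈ range L, ee (f h)‖ ^ 2
      ≤ L + 2 * ∑ r ∈ Ico 1 L, ‖∑ h ∈ range (L - r), ee (f (h + r) - f h)‖ := by
  rw [normSq_sum_aux]
  have h1 : ∑ h ∈ range L, ‖ee (f h)‖ ^ 2 = L := by
    simp [norm_ee]
  rw [h1, sum_range_triangle]
  have h2 : (∑ r ∈ Ico 1 L, ∑ h' ∈ range (L - r),
      ee (f (h' + r)) * (starRingEnd ℂ) (ee (f h'))).re
      ≤ ∑ r ∈ Ico 1 L, ‖∑ h ∈ range (L - r), ee (f (h + r) - f h)‖ := by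
    refine (Complex.re_le_norm _).trans ((norm_sum_le _ _).trans (le_of_eq ?_))
    refine sum_congr rfl fun r _ => ?_
    congr 1
    refine sum_congr rfl fun h _ => ?_
    rw [ee_sub]
  linarith

/-- `PolyD J β f`: the `J`-fold difference of `f` with steps `r₁, …, r_J` is `β r₁ ⋯ r_J`. -/
def PolyD : ℕ → ℝ → (ℕ → ℝ) → Prop
  | 0, β, f => ∀ h, f h = β
  | J + 1, β, f => ∀ r : ℕ, PolyD J (r * β) (fun h => f (h + r) - f h)

lemma PolyD.congr_beta {J : ℕ} {β γ : ℝ} {f : ℕ → ℝ} (h : PolyD J β f) (hb : β = γ) :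
    PolyD J γ f := hb ▸ h

lemma PolyD.congr_fun {J : ℕ} {β : ℝ} {f g : ℕ → ℝ} (h : PolyD J β f) (hb : ∀ x, f x = g x) :
    PolyD J β g := by
  have : f = g := funext hb
  exact this ▸ h

lemma PolyD.add {J : ℕ} : ∀ {β γ : ℝ} {f g : ℕ → ℝ}, PolyD J β f → PolyD J γ g →
    PolyD J (β + γ) (fun h => f h + g h) := by
  induction J with
  | zero =>
    intro β γ f g hf hg h
    have h1 := hf h
    have h2 := hg h
    simp only [h1, h2]
  | succ J ih =>
    intro β γ f g hf hg r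
    have h1 := ih (hf r) (hg r)
    refine (h1.congr_beta (by ring)).congr_fun fun x => by ring

lemma PolyD.smul {J : ℕ} : ∀ {β : ℝ} {f : ℕ → ℝ} (a : ℝ), PolyD J β f →
    PolyD J (a * β) (fun h => a * f h) := by
  induction J with
  | zero =>
    intro β f a hf h
    have h1 := hf h
    simp only [h1]
  | succ J ih =>
    intro β f a hf r
    have h1 := ih a (hf r)
    refine (h1.congr_beta (by ring)).congr_fun fun x => by ring

lemma PolyD.shift {J : ℕ} : ∀ {β : ℝ} {f : ℕ → ℝ} (s : ℕ), PolyD J β f →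
    PolyD J β (fun h => f (h + s)) := by
  induction J with
  | zero =>
    intro β f s hf h
    exact hf (h + s)
  | succ J ih =>
    intro β f s hf r
    have h1 := ih s (hf r)
    refine h1.congr_fun fun x => by
      have : x + s + r = x + r + s := by ring
      simp only [this]

lemma PolyD.raise {J : ℕ} : ∀ {β : ℝ} {f : ℕ → ℝ}, PolyD J β f → PolyD (J + 1) 0 f := by
  induction J with
  | zero =>
    intro β f hf r h
    have h1 := hf h
    have h2 := hf (h + r)
    simp only [h1, h2]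
    ring
  | succ J ih =>
    intro β f hf r
    exact (ih (hf r)).congr_beta (by ring)

lemma PolyD.mulh {J : ℕ} : ∀ {β : ℝ} {f : ℕ → ℝ}, PolyD J β f →
    PolyD (J + 1) ((J + 1 : ℕ) * β) (fun h => (h : ℝ) * f h) := by
  induction J with
  | zero =>
    intro β f hf r h
    have h1 := hf h
    have h2 := hf (h + r)
    simp only [h1, h2]
    push_cast
    ring
  | succ J ih =>
    intro β f hf r
    have h1 := ih (hf r)
    have h2 := (hf.shift r).smul (r : ℝ)
    have h3 := h1.add h2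
    refine (h3.congr_beta (by push_cast; ring)).congr_fun fun x => by push_cast; ring

lemma PolyD.pow (J : ℕ) : PolyD J (J.factorial : ℝ) (fun h => (h : ℝ) ^ J) := by
  induction J with
  | zero =>
    intro h
    simp
  | succ J ih =>
    have h1 := ih.mulh
    refine (h1.congr_beta ?_).congr_fun fun x => ?_
    · rw [Nat.factorial_succ]
      push_cast
      ring
    · ring

lemma PolyD.sum_pow (a : ℕ → ℝ) (J : ℕ) :
    PolyD J (a J * J.factorial) (fun h => ∑ j ∈ range (J + 1), a j * (h : ℝ) ^ j) := by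
  induction J with
  | zero =>
    intro h
    simp
  | succ J ih =>
    have h1 := ih.raise
    have h2 := (PolyD.pow (J + 1)).smul (a (J + 1))
    have h3 := h1.add h2
    refine (h3.congr_beta (by ring)).congr_fun fun x => ?_
    rw [sum_range_succ _ (J + 1)]

/-- Geometric sum bound for linear phases. -/
lemma linear_bound {β : ℝ} {f : ℕ → ℝ} (hf : PolyD 1 β f) (hβ : |β| ≤ 1 / 2) (hβ0 : 0 < |β|)
    (L : ℕ) : ‖∑ h ∈ range L, ee (f h)‖ ≤ 1 / (2 * |β|) := by
  have h1 : ∀ h : ℕ, f h = f 0 + h * β := by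
    intro h
    have := hf h 0
    simp only [zero_add] at this
    linarith
  have h2 : ∑ h ∈ range L, ee (f h) = ee (f 0) * ∑ h ∈ range L, ee β ^ h := by
    rw [mul_sum]
    refine sum_congr rfl fun h _ => ?_
    rw [h1 h, ee_add, ee_nat_mul]
  have h3 := norm_ee_sub_one_ge hβ
  have h4 : ee β ≠ 1 := by
    intro h
    rw [h, sub_self, norm_zero] at h3
    linarith
  rw [h2, norm_mul, norm_ee, one_mul, geom_sum_eq h4, norm_div]
  have h5 : ‖ee β ^ L - 1‖ ≤ 2 := by
    refine (norm_sub_le _ _).trans ?_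
    rw [norm_pow, norm_ee]
    norm_num
  rw [div_le_div_iff₀ (lt_of_lt_of_le (by positivity) h3) (by positivity)]
  nlinarith

lemma sum_norm_le_card (f : ℕ → ℝ) (L : ℕ) : ‖∑ h ∈ range L, ee (f h)‖ ≤ L := by
  refine (norm_sum_le _ _).trans ?_
  simp [norm_ee]

/-- Weyl's inequality in the power range. -/
theorem weyl_poly (j : ℕ) : ∀ c : ℝ, 0 < c → c ≤ 1 → ∃ σ : ℝ, 0 < σ ∧ σ ≤ 1 ∧ ∃ K : ℝ, 1 ≤ K ∧
    ∀ (H : ℕ) (β : ℝ), 1 ≤ H → (H : ℝ) ^ c ≤ |β| * (H : ℝ) ^ (j + 1) →
      |β| * (H : ℝ) ^ j ≤ 1 / 2 → ∀ f : ℕ → ℝ, PolyD (j + 1) β f → ∀ L : ℕ, L ≤ H →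
        ‖∑ h ∈ range L, ee (f h)‖ ≤ K * (H : ℝ) ^ (1 - σ) := by
  induction j with
  | zero =>
    intro c hc hc1
    refine ⟨c, hc, hc1, 1, le_rfl, ?_⟩
    intro H β hH h1 h2 f hf L hL
    have hHr : (1 : ℝ) ≤ H := by exact_mod_cast hH
    have hH0 : (0 : ℝ) < H := by linarith
    simp only [zero_add, pow_one, pow_zero, mul_one] at h1 h2
    have hβ0 : 0 < |β| := by
      by_contra hcon
      have : |β| = 0 := le_antisymm (not_lt.mp hcon) (abs_nonneg _)
      rw [this, zero_mul] at h1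
      have := Real.rpow_pos_of_pos hH0 c
      linarith
    refine (linear_bound hf h2 hβ0 L).trans ?_
    rw [one_mul, Real.rpow_sub hH0, Real.rpow_one]
    have hc0 := Real.rpow_pos_of_pos hH0 c
    rw [div_le_div_iff₀ (by positivity) hc0]
    nlinarith
  | succ j ih =>
    intro c hc hc1
    obtain ⟨σ, hσ, hσ1, K, hK, hmain⟩ := ih (c / 2) (by linarith) (by linarith)
    refine ⟨min (c / 2) σ / 2, by positivity, ?_, 5 * K, by linarith, ?_⟩
    · have : min (c / 2) σ ≤ σ := min_le_right _ _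
      linarith
    intro H β hH h1 h2 f hf L hL
    have hHr : (1 : ℝ) ≤ H := by exact_mod_cast hH
    have hH0 : (0 : ℝ) < H := by linarith
    set s : ℝ := min (c / 2) σ with hs
    have hspos : 0 < s := by positivity
    have hs1 : s ≤ c / 2 := min_le_left _ _
    have hs2 : s ≤ σ := min_le_right _ _
    have hbd : ∀ r ∈ Ico 1 L, ‖∑ h ∈ range (L - r), ee (f (h + r) - f h)‖
        ≤ (if (r : ℝ) < (H : ℝ) ^ (1 - c / 2) then (H : ℝ) else 0) + K * (H : ℝ) ^ (1 - σ) := by
      intro r hr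
      rw [mem_Ico] at hr
      have hKp : 0 ≤ K * (H : ℝ) ^ (1 - σ) := by positivity
      split_ifs with hlt
      · have := sum_norm_le_card (fun h => f (h + r) - f h) (L - r)
        have h3 : ((L - r : ℕ) : ℝ) ≤ H := by
          exact_mod_cast (Nat.sub_le _ _).trans hL
        linarith
      · rw [zero_add]
        push Not at hlt
        have hr0 : (0 : ℝ) < r := by exact_mod_cast hr.1
        have hrH : (r : ℝ) ≤ H := by exact_mod_cast (hr.2.le.trans hL)
        refine hmain H (r * β) hH ?_ ?_ _ (hf r) (L - r) ((Nat.sub_le _ _).trans hL)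
        · rw [abs_mul, abs_of_pos hr0]
          have e1 : (H : ℝ) ^ (c / 2) = (H : ℝ) ^ (1 - c / 2) * (H : ℝ) ^ c / H := by
            rw [← Real.rpow_add hH0, eq_div_iff hH0.ne']
            nth_rw 2 [← Real.rpow_one (H : ℝ)]
            rw [← Real.rpow_add hH0]
            congr 1
            ring
          rw [e1, div_le_iff₀ hH0]
          calc (H : ℝ) ^ (1 - c / 2) * (H : ℝ) ^ c
              ≤ r * (|β| * (H : ℝ) ^ (j + 1 + 1)) := by
                apply mul_le_mul hlt h1 (by positivity) hr0.le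
            _ = r * |β| * (H : ℝ) ^ (j + 1) * H := by ring
        · rw [abs_mul, abs_of_pos hr0]
          calc r * |β| * (H : ℝ) ^ j ≤ H * |β| * (H : ℝ) ^ j := by gcongr
            _ = |β| * (H : ℝ) ^ (j + 1) := by ring
            _ ≤ 1 / 2 := h2
    have hsum : ∑ r ∈ Ico 1 L, ‖∑ h ∈ range (L - r), ee (f (h + r) - f h)‖
        ≤ (H : ℝ) ^ (1 - c / 2) * H + H * (K * (H : ℝ) ^ (1 - σ)) := by
      refine (sum_le_sum hbd).trans ?_
      rw [sum_add_distrib]
      have hA : ∑ r ∈ Ico 1 L, (if (r : ℝ) < (H : ℝ) ^ (1 - c / 2) then (H : ℝ) else 0)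
          ≤ (H : ℝ) ^ (1 - c / 2) * H := by
        rw [← sum_filter, sum_const, nsmul_eq_mul]
        have hcard : (((Ico 1 L).filter fun r : ℕ => (r : ℝ) < (H : ℝ) ^ (1 - c / 2)).card : ℝ)
            ≤ (H : ℝ) ^ (1 - c / 2) := by
          have hsub : ((Ico 1 L).filter fun r : ℕ => (r : ℝ) < (H : ℝ) ^ (1 - c / 2))
              ⊆ Ico 1 (⌊(H : ℝ) ^ (1 - c / 2)⌋₊ + 1) := by
            intro r hr
            rw [mem_filter, mem_Ico] at hr
            rw [mem_Ico]
            refine ⟨hr.1.1, Nat.lt_succ_of_le (Nat.le_floor hr.2.le)⟩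
          have := card_le_card hsub
          rw [Nat.card_Ico] at this
          calc (((Ico 1 L).filter fun r : ℕ => (r : ℝ) < (H : ℝ) ^ (1 - c / 2)).card : ℝ)
              ≤ (⌊(H : ℝ) ^ (1 - c / 2)⌋₊ : ℝ) := by exact_mod_cast (by omega)
            _ ≤ _ := Nat.floor_le (by positivity)
        exact mul_le_mul_of_nonneg_right hcard hH0.le
      have hB : ∑ r ∈ Ico 1 L, K * (H : ℝ) ^ (1 - σ) ≤ H * (K * (H : ℝ) ^ (1 - σ)) := by
        rw [sum_const, nsmul_eq_mul, Nat.card_Ico]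
        have : ((L - 1 : ℕ) : ℝ) ≤ H := by exact_mod_cast (Nat.sub_le _ _).trans hL
        gcongr
      linarith
    have hweyl := weyl_diff f L
    have hLr : (L : ℝ) ≤ H := by exact_mod_cast hL
    have e1 : (H : ℝ) ^ (1 - c / 2) * H ≤ (H : ℝ) ^ (2 - s) := by
      have : (H : ℝ) ^ (1 - c / 2) * H = (H : ℝ) ^ (2 - c / 2) := by
        nth_rw 2 [← Real.rpow_one (H : ℝ)]
        rw [← Real.rpow_add hH0]
        congr 1
        ring
      rw [this]
      exact Real.rpow_le_rpow_of_exponent_le hHr (by linarith)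
    have e2 : H * (K * (H : ℝ) ^ (1 - σ)) ≤ K * (H : ℝ) ^ (2 - s) := by
      have : H * (K * (H : ℝ) ^ (1 - σ)) = K * (H : ℝ) ^ (2 - σ) := by
        have h3 : (H : ℝ) ^ (2 - σ) = (H : ℝ) ^ (1 : ℝ) * (H : ℝ) ^ (1 - σ) := by
          rw [← Real.rpow_add hH0]
          congr 1
          ring
        rw [h3, Real.rpow_one]
        ring
      rw [this]
      gcongr
    have e3 : (H : ℝ) ≤ (H : ℝ) ^ (2 - s) := by
      nth_rw 1 [← Real.rpow_one (H : ℝ)]
      exact Real.rpow_le_rpow_of_exponent_le hHr (by linarith)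
    have hP : 0 ≤ (H : ℝ) ^ (2 - s) := by positivity
    have h4 : ‖∑ h ∈ range L, ee (f h)‖ ^ 2 ≤ 5 * K * (H : ℝ) ^ (2 - s) := by
      nlinarith
    have h5 : (5 * K * (H : ℝ) ^ (1 - s / 2)) ^ 2 = 25 * K ^ 2 * (H : ℝ) ^ (2 - s) := by
      have : (H : ℝ) ^ (2 - s) = (H : ℝ) ^ (1 - s / 2) * (H : ℝ) ^ (1 - s / 2) := by
        rw [← Real.rpow_add hH0]
        congr 1
        ring
      rw [this]
      ring
    have h6 : ‖∑ h ∈ range L, ee (f h)‖ ^ 2 ≤ (5 * K * (H : ℝ) ^ (1 - s / 2)) ^ 2 := by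
      rw [h5]
      refine h4.trans ?_
      nlinarith
    exact le_of_sq_le_sq h6 (by positivity)

end ESU
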