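import Pool.Agent.Helper48.ESU.Wy

/-!
Power saving for the sums of `e(G/d)` over `Y ≤ d ≤ 8Y`, `Y^(1+c) ≤ |G| ≤ Y^C`.
-/

open Finset

namespace ESU

lemma rpow_mono_sigma {H : ℕ} (hH : 1 ≤ H) {K K' σ σ' : ℝ} (hK : K ≤ K') (hK0 : 0 ≤ K')
    (hσ : σ' ≤ σ) : K * (H : ℝ) ^ (1 - σ) ≤ K' * (H : ℝ) ^ (1 - σ') := by
  have hHr : (1 : ℝ) ≤ H := by exact_mod_cast hH
  have h1 : (H : ℝ) ^ (1 - σ) ≤ (H : ℝ) ^ (1 - σ') :=
    Real.rpow_le_rpow_of_exponent_le hHr (by linarith)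
  have h2 : 0 ≤ (H : ℝ) ^ (1 - σ) := by positivity
  calc K * (H : ℝ) ^ (1 - σ) ≤ K' * (H : ℝ) ^ (1 - σ) := by gcongr
    _ ≤ K' * (H : ℝ) ^ (1 - σ') := by gcongr

/-- Weyl's inequality, uniformly in bounded degree. -/
theorem weyl_poly_unif (c : ℝ) (hc : 0 < c) (hc1 : c ≤ 1) (n : ℕ) :
    ∃ σ : ℝ, 0 < σ ∧ σ ≤ 1 ∧ ∃ K : ℝ, 1 ≤ K ∧ ∀ j : ℕ, j ≤ n →
    ∀ (H : ℕ) (β : ℝ), 1 ≤ H → (H : ℝ) ^ c ≤ |β| * (H : ℝ) ^ (j + 1) →
      |β| * (H : ℝ) ^ j ≤ 1 / 2 → ∀ f : ℕ → ℝ, PolyD (j + 1) β f → ∀ L : ℕ, L ≤ H →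
        ‖∑ h ∈ range L, ee (f h)‖ ≤ K * (H : ℝ) ^ (1 - σ) := by
  induction n with
  | zero =>
    obtain ⟨σ, h1, h2, K, h3, h4⟩ := weyl_poly 0 c hc hc1
    refine ⟨σ, h1, h2, K, h3, fun j hj => ?_⟩
    have : j = 0 := by omega
    subst this
    exact h4
  | succ n ih =>
    obtain ⟨σ, h1, h2, K, h3, h4⟩ := ih
    obtain ⟨σ', h1', h2', K', h3', h4'⟩ := weyl_poly (n + 1) c hc hc1
    refine ⟨min σ σ', by positivity, (min_le_left _ _).trans h2, max K K',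
      h3.trans (le_max_left _ _), fun j hj H β hH e1 e2 f hf L hL => ?_⟩
    rcases Nat.lt_or_ge n j with hlt | hge
    · have : j = n + 1 := by omega
      subst this
      exact (h4' H β hH e1 e2 f hf L hL).trans
        (rpow_mono_sigma hH (le_max_right _ _) (by positivity) (min_le_right _ _))
    · exact (h4 j hge H β hH e1 e2 f hf L hL).trans
        (rpow_mono_sigma hH (le_max_left _ _) (by positivity) (min_le_left _ _))

lemma shift_sum (F : ℕ → ℂ) (hF : ∀ n, ‖F n‖ ≤ 1) (a n h : ℕ) :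
    ‖∑ i ∈ range n, F (a + i + h) - ∑ i ∈ range n, F (a + i)‖ ≤ 2 * h := by
  induction h with
  | zero => simp
  | succ h ih =>
    have h1 : ∑ i ∈ range n, F (a + i + (h + 1)) - ∑ i ∈ range n, F (a + i + h)
        = F (a + n + h) - F (a + h) := by
      rw [← sum_sub_distrib]
      have := Finset.sum_range_sub (fun i => F (a + i + h)) n
      rw [add_zero] at this
      rw [← this]
      refine sum_congr rfl fun i _ => ?_
      congr 2
      ring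
    have h2 : ‖F (a + n + h) - F (a + h)‖ ≤ 2 := by
      refine (norm_sub_le _ _).trans ?_
      linarith [hF (a + n + h), hF (a + h)]
    calc ‖∑ i ∈ range n, F (a + i + (h + 1)) - ∑ i ∈ range n, F (a + i)‖
        = ‖(∑ i ∈ range n, F (a + i + (h + 1)) - ∑ i ∈ range n, F (a + i + h))
          + (∑ i ∈ range n, F (a + i + h) - ∑ i ∈ range n, F (a + i))‖ := by
          congr 1
          ring
      _ ≤ 2 + 2 * h := by
          refine (norm_add_le _ _).trans ?_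
          rw [h1]
          exact add_le_add h2 ih
      _ = 2 * ((h + 1 : ℕ) : ℝ) := by
          push_cast
          ring

lemma shift_avg (F : ℕ → ℂ) (hF : ∀ n, ‖F n‖ ≤ 1) (a n H : ℕ) :
    H * ‖∑ i ∈ range n, F (a + i)‖
      ≤ ∑ i ∈ range n, ‖∑ h ∈ range H, F (a + i + h)‖ + 2 * (H : ℝ) ^ 2 := by
  have h1 : (H : ℂ) * ∑ i ∈ range n, F (a + i)
      = ∑ h ∈ range H, ∑ i ∈ range n, F (a + i + h)
        - ∑ h ∈ range H, (∑ i ∈ range n, F (a + i + h) - ∑ i ∈ range n, F (a + i)) := by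
    rw [sum_sub_distrib]
    simp
  have h2 : ‖∑ h ∈ range H, (∑ i ∈ range n, F (a + i + h) - ∑ i ∈ range n, F (a + i))‖
      ≤ 2 * (H : ℝ) ^ 2 := by
    refine (norm_sum_le _ _).trans ?_
    calc ∑ h ∈ range H, ‖∑ i ∈ range n, F (a + i + h) - ∑ i ∈ range n, F (a + i)‖
        ≤ ∑ h ∈ range H, 2 * (H : ℝ) := by
          refine sum_le_sum fun h hh => (shift_sum F hF a n h).trans ?_
          have : (h : ℝ) ≤ H := by exact_mod_cast (mem_range.mp hh).le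
          linarith
      _ = 2 * (H : ℝ) ^ 2 := by
          simp only [sum_const, card_range, nsmul_eq_mul]
          ring
  have h3 : ‖∑ h ∈ range H, ∑ i ∈ range n, F (a + i + h)‖
      ≤ ∑ i ∈ range n, ‖∑ h ∈ range H, F (a + i + h)‖ := by
    rw [sum_comm]
    exact norm_sum_le _ _
  have h4 : (H : ℝ) * ‖∑ i ∈ range n, F (a + i)‖ = ‖(H : ℂ) * ∑ i ∈ range n, F (a + i)‖ := by
    rw [norm_mul, Complex.norm_natCast]
  rw [h4, h1]
  exact (norm_sub_le _ _).trans (add_le_add h3 h2)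

/-- Taylor polynomial of `h ↦ G/(d+h)` with exact remainder. -/
lemma taylor_inv (G d h : ℝ) (hd : 0 < d) (hh : 0 ≤ h) (J : ℕ) :
    G / (d + h) = ∑ j ∈ range (J + 1), G * (-1) ^ j / d ^ (j + 1) * h ^ j
      + G * (-1) ^ (J + 1) * h ^ (J + 1) / (d ^ (J + 1) * (d + h)) := by
  induction J with
  | zero =>
    simp only [zero_add, range_one, sum_singleton, pow_zero, pow_one, mul_one]
    field_simp
    ring
  | succ J ih =>
    rw [sum_range_succ, ih]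
    have h1 : G * (-1) ^ (J + 1) * h ^ (J + 1) / (d ^ (J + 1) * (d + h))
        = G * (-1) ^ (J + 1) / d ^ (J + 1 + 1) * h ^ (J + 1)
          + G * (-1) ^ (J + 1 + 1) * h ^ (J + 1 + 1) / (d ^ (J + 1 + 1) * (d + h)) := by
      field_simp
      ring
    rw [h1]
    ring

lemma block_bound (G : ℝ) (d Y H J : ℕ) (hY : 1 ≤ Y) (hd : Y ≤ d) (T : ℝ)
    (hT : ‖∑ h ∈ range H, ee (∑ j ∈ range (J + 1), G * (-1) ^ j / (d : ℝ) ^ (j + 1)
      * (h : ℝ) ^ j)‖ ≤ T) :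
    ‖∑ h ∈ range H, ee (G / ((d + h : ℕ) : ℝ))‖
      ≤ T + H * (2 * Real.pi * (|G| * (H : ℝ) ^ (J + 1) / (Y : ℝ) ^ (J + 2))) := by
  have hY0 : (0 : ℝ) < Y := by exact_mod_cast hY
  have hd0 : (0 : ℝ) < d := lt_of_lt_of_le hY0 (by exact_mod_cast hd)
  have hYd : (Y : ℝ) ≤ d := by exact_mod_cast hd
  have h1 : ‖∑ h ∈ range H, ee (G / ((d + h : ℕ) : ℝ))
      - ∑ h ∈ range H, ee (∑ j ∈ range (J + 1), G * (-1) ^ j / (d : ℝ) ^ (j + 1) * (h : ℝ) ^ j)‖
      ≤ H * (2 * Real.pi * (|G| * (H : ℝ) ^ (J + 1) / (Y : ℝ) ^ (J + 2))) := by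
    rw [← sum_sub_distrib]
    refine (norm_sum_le _ _).trans ?_
    calc ∑ h ∈ range H, ‖ee (G / ((d + h : ℕ) : ℝ)) - ee (∑ j ∈ range (J + 1),
          G * (-1) ^ j / (d : ℝ) ^ (j + 1) * (h : ℝ) ^ j)‖
        ≤ ∑ h ∈ range H, (2 * Real.pi * (|G| * (H : ℝ) ^ (J + 1) / (Y : ℝ) ^ (J + 2))) := by
          refine sum_le_sum fun h hh => (norm_ee_sub_le _ _).trans ?_
          have hhH : (h : ℝ) ≤ H := by exact_mod_cast (mem_range.mp hh).le
          have hh0 : (0 : ℝ) ≤ h := by positivity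
          have e := taylor_inv G d h hd0 hh0 J
          have e2 : ((d + h : ℕ) : ℝ) = d + h := by push_cast; ring
          rw [e2, e, add_sub_cancel_left]
          have hpi := Real.pi_pos
          have e3 : |G * (-1) ^ (J + 1) * (h : ℝ) ^ (J + 1) / ((d : ℝ) ^ (J + 1) * (d + h))|
              ≤ |G| * (H : ℝ) ^ (J + 1) / (Y : ℝ) ^ (J + 2) := by
            rw [abs_div, abs_mul, abs_mul, abs_pow, abs_neg, abs_one, one_pow, mul_one,
              abs_of_nonneg (pow_nonneg hh0 _),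
              abs_of_pos (mul_pos (pow_pos hd0 _) (by linarith))]
            have e4 : (Y : ℝ) ^ (J + 2) ≤ (d : ℝ) ^ (J + 1) * (d + h) := by
              calc (Y : ℝ) ^ (J + 2) = (Y : ℝ) ^ (J + 1) * Y := by ring
                _ ≤ (d : ℝ) ^ (J + 1) * (d + h) := by
                  gcongr
                  linarith
            have e5 : 0 < (Y : ℝ) ^ (J + 2) := by positivity
            gcongr
          gcongr
      _ = H * (2 * Real.pi * (|G| * (H : ℝ) ^ (J + 1) / (Y : ℝ) ^ (J + 2))) := by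
          simp
  have h2 : ∑ h ∈ range H, ee (G / ((d + h : ℕ) : ℝ))
      = ∑ h ∈ range H, ee (∑ j ∈ range (J + 1), G * (-1) ^ j / (d : ℝ) ^ (j + 1) * (h : ℝ) ^ j)
        + (∑ h ∈ range H, ee (G / ((d + h : ℕ) : ℝ)) - ∑ h ∈ range H, ee (∑ j ∈ range (J + 1),
            G * (-1) ^ j / (d : ℝ) ^ (j + 1) * (h : ℝ) ^ j)) := by ring
  rw [h2]
  exact (norm_add_le _ _).trans (add_le_add hT h1)

end ESU
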